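import Mathlib

open Finset

namespace Pool.Agent.LqFlat

/-- Minkowski's inequality in power form -/
lemma mink {ι α : Type*} {q : ℕ} (hq : 1 ≤ q) (s : Finset ι) (t : Finset α) (a : ι → α → ℝ)
    (A : ι → ℝ) (ha : ∀ i ∈ s, ∀ x ∈ t, 0 ≤ a i x) (hA : ∀ i ∈ s, 0 ≤ A i)
    (h : ∀ i ∈ s, ∑ x ∈ t, a i x ^ q ≤ A i ^ q) :
    ∑ x ∈ t, (∑ i ∈ s, a i x) ^ q ≤ (∑ i ∈ s, A i) ^ q := by
  have hS0 : 0 ≤ ∑ i ∈ s, A i := Finset.sum_nonneg hA
  have hzero : ∀ i ∈ s, A i = 0 → ∀ x ∈ t, a i x = 0 := by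
    intro i hi h0 x hx
    have h1 := h i hi
    rw [h0, zero_pow (by omega)] at h1
    have h2 : a i x ^ q ≤ 0 :=
      (Finset.single_le_sum (f := fun x => a i x ^ q) (fun y hy => pow_nonneg (ha i hi y hy) q)
        hx).trans h1
    have h3 : a i x ^ q = 0 := le_antisymm h2 (pow_nonneg (ha i hi x hx) q)
    exact pow_eq_zero_iff (by omega) |>.1 h3
  rcases hS0.eq_or_lt with hS | hS
  · have hA0 : ∀ i ∈ s, A i = 0 := (Finset.sum_eq_zero_iff_of_nonneg hA).1 hS.symm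
    have : ∀ x ∈ t, (∑ i ∈ s, a i x) ^ q = 0 := by
      intro x hx
      rw [Finset.sum_eq_zero fun i hi => hzero i hi (hA0 i hi) x hx, zero_pow (by omega)]
    rw [Finset.sum_eq_zero this]
    exact pow_nonneg hS0 q
  · set S := ∑ i ∈ s, A i with hSdef
    -- pointwise Jensen
    have key : ∀ x ∈ t, (∑ i ∈ s, a i x) ^ q ≤ S ^ (q - 1) * ∑ i ∈ s, A i * (a i x / A i) ^ q := by
      intro x hx
      have h1 := Real.pow_arith_mean_le_arith_mean_pow s (fun i => A i / S)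
        (fun i => S * (a i x / A i)) (fun i hi => div_nonneg (hA i hi) hS.le)
        (by rw [← Finset.sum_div, ← hSdef, div_self hS.ne'])
        (fun i hi => mul_nonneg hS.le (div_nonneg (ha i hi x hx) (hA i hi))) q
      have e1 : ∑ i ∈ s, A i / S * (S * (a i x / A i)) = ∑ i ∈ s, a i x := by
        apply Finset.sum_congr rfl
        intro i hi
        rcases eq_or_ne (A i) 0 with h0 | h0
        · rw [h0, hzero i hi h0 x hx]; simp
        · field_simp
      rw [e1] at h1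
      refine h1.trans (le_of_eq ?_)
      rw [Finset.mul_sum]
      apply Finset.sum_congr rfl
      intro i hi
      obtain ⟨r, rfl⟩ : ∃ r, q = r + 1 := ⟨q - 1, by omega⟩
      simp only [Nat.add_sub_cancel]
      rw [mul_pow, pow_succ S r]
      field_simp
    calc ∑ x ∈ t, (∑ i ∈ s, a i x) ^ q
        ≤ ∑ x ∈ t, S ^ (q - 1) * ∑ i ∈ s, A i * (a i x / A i) ^ q := Finset.sum_le_sum key
      _ = S ^ (q - 1) * ∑ i ∈ s, ∑ x ∈ t, A i * (a i x / A i) ^ q := by
          rw [← Finset.mul_sum, Finset.sum_comm]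
      _ ≤ S ^ (q - 1) * ∑ i ∈ s, A i := by
          apply mul_le_mul_of_nonneg_left _ (pow_nonneg hS.le _)
          apply Finset.sum_le_sum
          intro i hi
          rcases eq_or_ne (A i) 0 with h0 | h0
          · simp [h0]
          · have hpos : 0 < A i := lt_of_le_of_ne (hA i hi) (Ne.symm h0)
            rw [← Finset.mul_sum]
            have : ∑ x ∈ t, (a i x / A i) ^ q ≤ 1 := by
              simp only [div_pow]
              rw [← Finset.sum_div, div_le_one (pow_pos hpos q)]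
              exact h i hi
            nlinarith
      _ = S ^ q := by
          obtain ⟨r, rfl⟩ : ∃ r, q = r + 1 := ⟨q - 1, by omega⟩
          rw [Nat.add_sub_cancel, pow_succ, ← hSdef]

/-- `f` is periodic with period `M` -/
abbrev Per (M : ℕ) (f : ℤ → ℝ) : Prop := Function.Periodic f (M : ℤ)

lemma Per.eq_of {M : ℕ} {f : ℤ → ℝ} (hf : Per M f) {x y : ℤ} (h : (M : ℤ) ∣ x - y) : f x = f y := by
  obtain ⟨k, hk⟩ := h
  have : x = y + k * (M : ℤ) := by linarith [mul_comm (M : ℤ) k]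
  rw [this]
  exact hf.int_mul k y

lemma Per.comp_add {M : ℕ} {f : ℤ → ℝ} (hf : Per M f) (t : ℤ) : Per M fun x => f (x + t) := by
  intro x
  have : x + M + t = (x + t) + M := by ring
  simp only [this]
  exact hf _

lemma Per.comp_sub {M : ℕ} {f : ℤ → ℝ} (hf : Per M f) (t : ℤ) : Per M fun x => f (t - x) := by
  intro x
  apply hf.eq_of
  exact ⟨-1, by ring⟩

/-- sum over a full period, in `ZMod M` -/
lemma sum_range_eq_zmod {M : ℕ} [NeZero M] (f : ℤ → ℝ) :
    ∑ x ∈ range M, f x = ∑ z : ZMod M, f (z.val : ℤ) := by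
  symm
  apply Finset.sum_nbij (fun z => z.val)
  · intro z _
    exact Finset.mem_range.2 (ZMod.val_lt z)
  · intro z _ w _ h
    exact ZMod.val_injective M h
  · intro x hx
    have hx' : x < M := Finset.mem_range.1 hx
    exact ⟨(x : ZMod M), by simp, by simp [ZMod.val_natCast, Nat.mod_eq_of_lt hx']⟩
  · intro z _
    rfl

/-- reindexing by a bijection of `ZMod M` -/
lemma sum_reindex {M : ℕ} [NeZero M] {f : ℤ → ℝ} (hf : Per M f) (φ : ℤ → ℤ)
    (e : ZMod M ≃ ZMod M) (h : ∀ x : ℤ, ((φ x : ℤ) : ZMod M) = e (x : ZMod M)) :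
    ∑ x ∈ range M, f (φ x) = ∑ x ∈ range M, f x := by
  rw [sum_range_eq_zmod (fun x => f (φ x)), sum_range_eq_zmod f]
  rw [← Equiv.sum_comp e (fun z : ZMod M => f (z.val : ℤ))]
  apply Finset.sum_congr rfl
  intro z _
  apply hf.eq_of
  rw [← ZMod.intCast_zmod_eq_zero_iff_dvd]
  push_cast
  rw [h]
  simp

lemma sum_shift {M : ℕ} [NeZero M] {f : ℤ → ℝ} (hf : Per M f) (t : ℤ) :
    ∑ x ∈ range M, f (x + t) = ∑ x ∈ range M, f x :=
  sum_reindex hf (fun x => x + t) (Equiv.addRight (t : ZMod M)) (fun x => by simp)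

lemma sum_refl {M : ℕ} [NeZero M] {f : ℤ → ℝ} (hf : Per M f) (t : ℤ) :
    ∑ x ∈ range M, f (t - x) = ∑ x ∈ range M, f x :=
  sum_reindex hf (fun x => t - x) (Equiv.subLeft (t : ZMod M)) (fun x => by simp)

lemma sum_unit {M : ℕ} [NeZero M] {f : ℤ → ℝ} (hf : Per M f) {a : ℤ}
    (ha : IsUnit ((a : ℤ) : ZMod M)) :
    ∑ x ∈ range M, f (a * x) = ∑ x ∈ range M, f x := by
  obtain ⟨u, hu⟩ := ha
  exact sum_reindex hf (fun x => a * x) (Units.mulLeft u) (fun x => by simp [← hu])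

lemma sum_mul_range (M R : ℕ) (f : ℤ → ℝ) :
    ∑ x ∈ range (M * R), f x = ∑ c ∈ range R, ∑ x ∈ range M, f (c + R * x) := by
  rcases Nat.eq_zero_or_pos R with rfl | hR
  · simp
  rw [← Finset.sum_product']
  symm
  apply Finset.sum_nbij' (fun p => p.1 + R * p.2) (fun x => (x % R, x / R))
  · rintro ⟨c, x⟩ h
    simp only [Finset.mem_product, Finset.mem_range] at h ⊢
    nlinarith [h.1, h.2, Nat.mul_le_mul_left R (Nat.succ_le_of_lt h.2)]
  · intro x h
    simp only [Finset.mem_product, Finset.mem_range] at h ⊢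
    exact ⟨Nat.mod_lt _ hR, Nat.div_lt_of_lt_mul (by rwa [mul_comm] at h)⟩
  · rintro ⟨c, x⟩ h
    simp only [Finset.mem_product, Finset.mem_range] at h ⊢
    rw [Nat.add_mul_mod_self_left, Nat.mod_eq_of_lt h.1, Nat.add_mul_div_left _ _ hR,
      Nat.div_eq_of_lt h.1, zero_add]
  · intro x _
    exact Nat.mod_add_div x R
  · rintro ⟨c, x⟩ _
    push_cast
    rfl

/-- convolution with `π` modulo `M` -/
def T (M : ℕ) (π g : ℤ → ℝ) (y : ℤ) : ℝ := ∑ c ∈ range M, π c * g (y - c)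

/-- slice -/
def sl (R : ℕ) (e : ℤ) (f : ℤ → ℝ) (x : ℤ) : ℝ := f (e + R * x)

/-- total mass -/
def mass (M : ℕ) (f : ℤ → ℝ) : ℝ := ∑ x ∈ range M, f x

lemma T_per {M : ℕ} {π g : ℤ → ℝ} (hg : Per M g) : Per M (T M π g) := by
  intro y
  unfold T
  apply Finset.sum_congr rfl
  intro c _
  have : g (y + M - c) = g (y - c) := hg.eq_of ⟨1, by ring⟩
  rw [this]

lemma T_nonneg {M : ℕ} {π g : ℤ → ℝ} (hπ : ∀ x, 0 ≤ π x) (hg : ∀ x, 0 ≤ g x) (y : ℤ) :
    0 ≤ T M π g y := Finset.sum_nonneg fun c _ => mul_nonneg (hπ c) (hg _)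

lemma sl_per {M R : ℕ} {f : ℤ → ℝ} (hf : Per (M * R) f) (e : ℤ) : Per M (sl R e f) := by
  intro x
  unfold sl
  apply hf.eq_of
  exact ⟨1, by push_cast; ring⟩

lemma sl_sl (R R' : ℕ) (e e' : ℤ) (f : ℤ → ℝ) :
    sl R' e' (sl R e f) = sl (R * R') (e + R * e') f := by
  ext x
  unfold sl
  congr 1
  push_cast; ring

lemma mass_nonneg {M : ℕ} {f : ℤ → ℝ} (hf : ∀ x, 0 ≤ f x) : 0 ≤ mass M f :=
  Finset.sum_nonneg fun _ _ => hf _

lemma mass_mul (M R : ℕ) (f : ℤ → ℝ) : mass (M * R) f = ∑ c ∈ range R, mass M (sl R c f) :=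
  sum_mul_range M R f

end Pool.Agent.LqFlat
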