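import Pool.Agent.LqFlat.L2

open Finset

namespace Pool.Agent.LqFlat

/-- the box `{0, …, M-1}^K` -/
abbrev box (K M : ℕ) : Finset (Fin K → ℕ) := Fintype.piFinset fun _ : Fin K => range M

/-- `K`-fold convolution modulo `M` -/
noncomputable def CK (K M : ℕ) (π : Fin K → ℤ → ℝ) (g : ℤ → ℝ) (y : ℤ) : ℝ :=
  ∑ c ∈ box K M, (∏ i, π i (c i)) * g (y - ∑ i, (c i : ℤ))

lemma CK_zero (M : ℕ) (π : Fin 0 → ℤ → ℝ) (g : ℤ → ℝ) (y : ℤ) : CK 0 M π g y = g y := by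
  unfold CK
  simp

lemma sum_box_succ (K M : ℕ) (f : (Fin (K + 1) → ℕ) → ℝ) :
    ∑ c ∈ box (K + 1) M, f c
      = ∑ c₀ ∈ range M, ∑ c ∈ box K M, f (Fin.cons c₀ c : Fin (K + 1) → ℕ) := by
  rw [← Finset.sum_product']
  symm
  apply Finset.sum_nbij' (fun p : ℕ × (Fin K → ℕ) => (Fin.cons p.1 p.2 : Fin (K + 1) → ℕ))
    (fun c : Fin (K + 1) → ℕ => (c 0, (Fin.tail c : Fin K → ℕ)))
  · rintro ⟨c₀, c⟩ h
    simp only [Finset.mem_product, Fintype.mem_piFinset] at h ⊢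
    intro i
    refine Fin.cases ?_ (fun i => ?_) i
    · simpa using h.1
    · simpa using h.2 i
  · intro c h
    simp only [Finset.mem_product, Fintype.mem_piFinset] at h ⊢
    exact ⟨h 0, fun i => h i.succ⟩
  · rintro ⟨c₀, c⟩ _
    simp
  · intro c _
    simp
  · rintro ⟨c₀, c⟩ _
    rfl

lemma CK_succ (K M : ℕ) (π : Fin (K + 1) → ℤ → ℝ) (g : ℤ → ℝ) (y : ℤ) :
    CK (K + 1) M π g y = T M (π 0) (CK K M (fun i => π i.succ) g) y := by
  unfold CK T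
  rw [sum_box_succ]
  apply Finset.sum_congr rfl
  intro c₀ _
  rw [Finset.mul_sum]
  apply Finset.sum_congr rfl
  intro c _
  rw [Fin.prod_univ_succ, Fin.sum_univ_succ]
  simp only [Fin.cons_zero, Fin.cons_succ]
  rw [← sub_sub, mul_assoc]

lemma CK_per {K M : ℕ} {π : Fin K → ℤ → ℝ} {g : ℤ → ℝ} (hg : Per M g) : Per M (CK K M π g) := by
  intro y
  unfold CK
  apply Finset.sum_congr rfl
  intro c _
  have : g (y + M - ∑ i, (c i : ℤ)) = g (y - ∑ i, (c i : ℤ)) := hg.eq_of ⟨1, by ring⟩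
  rw [this]

lemma CK_V {P M : ℕ} {K : ℕ} : ∀ {π : Fin K → ℤ → ℝ} {g : ℤ → ℝ}, V P g → V P (CK K M π g) := by
  induction K with
  | zero =>
    intro π g hg x
    simp only [CK_zero]
    exact hg x
  | succ K ih =>
    intro π g hg x
    simp only [CK_succ]
    exact T_V (ih hg) x

lemma CK_nonneg {K M : ℕ} {π : Fin K → ℤ → ℝ} {g : ℤ → ℝ} (hπ : ∀ i x, 0 ≤ π i x)
    (hg : ∀ x, 0 ≤ g x) (y : ℤ) : 0 ≤ CK K M π g y :=
  Finset.sum_nonneg fun _ _ => mul_nonneg (Finset.prod_nonneg fun _ _ => hπ _ _) (hg _)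

lemma prod_mass {K M : ℕ} (π : Fin K → ℤ → ℝ) :
    ∑ c ∈ box K M, ∏ i, π i (c i) = ∏ i, mass M (π i) := by
  unfold mass
  rw [Finset.prod_univ_sum]

/-- branching of a distribution on `ℤ / P²`, `P = 3 ^ D` -/
def bra' (D : ℕ) (π : ℤ → ℝ) : Prop :=
  ∀ v ∈ range (3 ^ D), ∑ j ∈ range (3 ^ D), π (v + (3 ^ D : ℕ) * j)
      ≤ (1 - ((3 : ℝ) ^ D)⁻¹) * mass (3 ^ D * 3 ^ D) π

open Classical in
lemma CK_contr {D : ℕ} {K : ℕ} : ∀ {π : Fin K → ℤ → ℝ} {g : ℤ → ℝ}, (∀ i x, 0 ≤ π i x) →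
    Per (3 ^ D * 3 ^ D) g → V (3 ^ D) g →
    sq2 (3 ^ D * 3 ^ D) (CK K (3 ^ D * 3 ^ D) π g)
      ≤ (∏ i, (if bra' D (π i) then (1 - (((3 : ℝ) ^ D) ^ 5)⁻¹) else 1) *
          (mass (3 ^ D * 3 ^ D) (π i)) ^ 2) * sq2 (3 ^ D * 3 ^ D) g := by
  have hρ : 0 ≤ (1 - (((3 : ℝ) ^ D) ^ 5)⁻¹) := by
    have : (1 : ℝ) ≤ ((3 : ℝ) ^ D) ^ 5 := one_le_pow₀ (one_le_pow₀ (by norm_num))
    have := inv_le_one_of_one_le₀ this
    linarith
  have : NeZero (3 ^ D * 3 ^ D) := ⟨by positivity⟩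
  induction K with
  | zero =>
    intro π g _ _ _
    have : CK 0 (3 ^ D * 3 ^ D) π g = g := by ext y; exact CK_zero _ _ _ _
    rw [this]; simp
  | succ K ih =>
    intro π g hπ hg hV
    have h1 : CK (K + 1) (3 ^ D * 3 ^ D) π g
        = T (3 ^ D * 3 ^ D) (π 0) (CK K (3 ^ D * 3 ^ D) (fun i => π i.succ) g) := by
      ext y; exact CK_succ _ _ _ _ _
    rw [h1, Fin.prod_univ_succ]
    have h2 := ih (π := fun i => π i.succ) (fun i x => hπ i.succ x) hg hV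
    have hper := CK_per (K := K) (π := fun i => π i.succ) hg
    have hVV := CK_V (M := 3 ^ D * 3 ^ D) (K := K) (π := fun i => π i.succ) hV
    have hm : 0 ≤ (mass (3 ^ D * 3 ^ D) (π 0)) ^ 2 := sq_nonneg _
    have h0 := sq2_nonneg (3 ^ D * 3 ^ D) (CK K (3 ^ D * 3 ^ D) (fun i => π i.succ) g)
    split_ifs with hb
    · have h3 := T_contr_bra (hπ 0) hper hVV hb
      unfold sq2 at *
      refine h3.trans ?_
      rw [← mul_assoc, mul_assoc ((1 - (((3 : ℝ) ^ D) ^ 5)⁻¹) * _)]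
      exact mul_le_mul_of_nonneg_left h2 (mul_nonneg hρ hm)
    · have h3 := T_contr (π := π 0) (hπ 0) hper
      unfold sq2 at *
      refine h3.trans ?_
      rw [one_mul, mul_assoc]
      exact mul_le_mul_of_nonneg_left h2 hm

/-- Young's inequality -/
lemma CK_young {K R q : ℕ} [NeZero R] (hq : 1 ≤ q) {π : Fin K → ℤ → ℝ} {A : ℤ → ℝ}
    (hπ : ∀ i x, 0 ≤ π i x) (hA : ∀ x, 0 ≤ A x) (hper : Per R A) {E : ℝ} (hE0 : 0 ≤ E)
    (hE : ∑ v ∈ range R, A v ^ q ≤ E ^ q) :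
    ∑ u ∈ range R, (CK K R π A u) ^ q ≤ (E * ∏ i, mass R (π i)) ^ q := by
  have h1 : E * ∏ i, mass R (π i) = ∑ c ∈ box K R, (∏ i, π i (c i)) * E := by
    rw [← Finset.sum_mul, prod_mass]; ring
  rw [h1]
  apply mink hq
  · intro c _ u _
    exact mul_nonneg (Finset.prod_nonneg fun _ _ => hπ _ _) (hA _)
  · intro c _
    exact mul_nonneg (Finset.prod_nonneg fun _ _ => hπ _ _) hE0
  · intro c _
    simp only [mul_pow]
    rw [← Finset.mul_sum]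
    apply mul_le_mul_of_nonneg_left _ (pow_nonneg (Finset.prod_nonneg fun _ _ => hπ _ _) _)
    have h2 : Per R fun x => A x ^ q := fun x => by simp only [hper x]
    have h3 := sum_shift h2 (-(∑ i, (c i : ℤ)))
    simp only [← sub_eq_add_neg] at h3
    rw [h3]; exact hE

lemma mink2 {α : Type*} {q : ℕ} (hq : 1 ≤ q) (t : Finset α) (a b : α → ℝ) (A B : ℝ)
    (ha : ∀ x ∈ t, 0 ≤ a x) (hb : ∀ x ∈ t, 0 ≤ b x) (hA : 0 ≤ A) (hB : 0 ≤ B)
    (h1 : ∑ x ∈ t, a x ^ q ≤ A ^ q) (h2 : ∑ x ∈ t, b x ^ q ≤ B ^ q) :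
    ∑ x ∈ t, (a x + b x) ^ q ≤ (A + B) ^ q := by
  have := mink hq (univ : Finset (Fin 2)) t (fun i x => if i = 0 then a x else b x)
    (fun i => if i = 0 then A else B) (by
      intro i _ x hx
      split_ifs
      · exact ha x hx
      · exact hb x hx) (by
      intro i _
      split_ifs <;> assumption) (by
      intro i _
      split_ifs <;> assumption)
  simpa [Fin.sum_univ_two] using this

open Classical in
/-- The good step: many branching factors make the second block uniform. -/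
lemma good_step {D K k q : ℕ} (hq : 2 ≤ q) {π : Fin K → ℤ → ℝ} {A A1 : ℤ → ℝ}
    (hπ : ∀ i x, 0 ≤ π i x) (hA : ∀ x, 0 ≤ A x) (hper : Per (3 ^ D * 3 ^ D) A)
    (hsum : ∀ v, ∑ j ∈ range (3 ^ D), A (v + (3 ^ D : ℕ) * j) ≤ A1 v) {a H χ κ : ℝ}
    (ha : 0 ≤ a) (hH : 0 ≤ H) (hχ : 0 ≤ χ) (hκ : 0 ≤ κ)
    (hA1 : ∑ v ∈ range (3 ^ D), A1 v ≤ a) (hA1q : ∑ v ∈ range (3 ^ D), A1 v ^ q ≤ (H * a) ^ q)
    (hχq : χ ^ q = (3 : ℝ) ^ D * (((3 : ℝ) ^ D)⁻¹) ^ q)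
    (hκk : (1 - (((3 : ℝ) ^ D) ^ 5)⁻¹) ^ k ≤ κ ^ 2)
    (hk : k ≤ #{i | bra' D (π i)}) :
    ∑ u ∈ range (3 ^ D * 3 ^ D), (CK K (3 ^ D * 3 ^ D) π A u) ^ q
      ≤ ((χ * H + κ) * a * ∏ i, mass (3 ^ D * 3 ^ D) (π i)) ^ q := by
  have hneR : NeZero (3 ^ D * 3 ^ D) := ⟨by positivity⟩
  have hneP : NeZero (3 ^ D) := ⟨by positivity⟩
  have hA10 : ∀ v, 0 ≤ A1 v := fun v => (Finset.sum_nonneg fun j _ => hA _).trans (hsum v)
  have hQ0 : (0 : ℝ) < (3 : ℝ) ^ D := by positivity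
  set Q : ℝ := (3 : ℝ) ^ D with hQ
  set m := ∏ i, mass (3 ^ D * 3 ^ D) (π i) with hm
  have hm0 : 0 ≤ m := Finset.prod_nonneg fun i _ => mass_nonneg (hπ i)
  let Ab : ℤ → ℝ := fun x => Q⁻¹ * ∑ j ∈ range (3 ^ D), A (x + (3 ^ D : ℕ) * j)
  let Ap : ℤ → ℝ := fun x => A x - Ab x
  have hAbP : Per (3 ^ D) Ab := by
    intro x
    simp only [Ab]
    congr 1
    have hp : Per (3 ^ D) fun j => A (x + (3 ^ D : ℕ) * j) := by
      intro j
      apply hper.eq_of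
      exact ⟨1, by push_cast; ring⟩
    rw [← sum_shift hp 1]
    apply Finset.sum_congr rfl
    intro j _
    congr 1; ring
  have hAb0 : ∀ x, 0 ≤ Ab x := fun x =>
    mul_nonneg (inv_nonneg.2 hQ0.le) (Finset.sum_nonneg fun j _ => hA _)
  have hAbR : Per (3 ^ D * 3 ^ D) Ab := by
    intro x
    apply hAbP.eq_of
    exact ⟨(3 ^ D : ℕ), by push_cast; ring⟩
  have hApR : Per (3 ^ D * 3 ^ D) Ap := by
    intro x; simp only [Ap, hper x, hAbR x]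
  have hAbc : ∀ (v : ℤ) (j : ℕ), Ab (v + (3 ^ D : ℕ) * j) = Ab v := by
    intro v j
    apply hAbP.eq_of
    exact ⟨j, by ring⟩
  have hcard : ((3 ^ D : ℕ) : ℝ) = Q := by rw [hQ]; push_cast; rfl
  have hApV : V (3 ^ D) Ap := by
    intro x
    simp only [Ap, Finset.sum_sub_distrib]
    have : ∑ j ∈ range (3 ^ D), Ab (x + (3 ^ D : ℕ) * j) = Q * Ab x := by
      rw [Finset.sum_congr rfl fun j _ => hAbc x j, Finset.sum_const, card_range, nsmul_eq_mul,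
        hcard]
    rw [this]
    simp only [Ab]
    rw [← mul_assoc, mul_inv_cancel₀ hQ0.ne', one_mul, sub_self]
  -- the averaged part
  have hb1 : ∑ u ∈ range (3 ^ D * 3 ^ D), (CK K (3 ^ D * 3 ^ D) π Ab u) ^ q
      ≤ (χ * H * a * m) ^ q := by
    have hE : ∑ v ∈ range (3 ^ D * 3 ^ D), Ab v ^ q ≤ (χ * H * a) ^ q := by
      have h1 := sum_mul_range (3 ^ D) (3 ^ D) (fun x => Ab x ^ q)
      rw [h1]
      have h2 : ∀ v ∈ range (3 ^ D), ∑ j ∈ range (3 ^ D), Ab (v + (3 ^ D : ℕ) * j) ^ q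
          ≤ Q * (Q⁻¹) ^ q * A1 v ^ q := by
        intro v _
        rw [Finset.sum_congr rfl fun j _ => by rw [hAbc v j], Finset.sum_const, card_range,
          nsmul_eq_mul, hcard, mul_assoc]
        apply mul_le_mul_of_nonneg_left _ hQ0.le
        rw [← mul_pow]
        apply pow_le_pow_left₀ (hAb0 _)
        exact mul_le_mul_of_nonneg_left (hsum v) (inv_nonneg.2 hQ0.le)
      refine (Finset.sum_le_sum h2).trans ?_
      rw [← Finset.mul_sum, ← hχq, mul_assoc χ, mul_pow χ]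
      exact mul_le_mul_of_nonneg_left hA1q (pow_nonneg hχ q)
    have := CK_young (K := K) (by omega : 1 ≤ q) hπ hAb0 hAbR (by positivity) hE
    rwa [← hm] at this
  -- the orthogonal part
  have hsq : sq2 (3 ^ D * 3 ^ D) Ap ≤ a ^ 2 := by
    have h1 := sum_mul_range (3 ^ D) (3 ^ D) (fun x => Ap x ^ 2)
    have h2 := sum_mul_range (3 ^ D) (3 ^ D) (fun x => A x ^ 2)
    have h3 : sq2 (3 ^ D * 3 ^ D) Ap ≤ ∑ x ∈ range (3 ^ D * 3 ^ D), A x ^ 2 := by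
      unfold sq2
      rw [h1, h2]
      apply Finset.sum_le_sum
      intro v _
      have h4 : ∑ j ∈ range (3 ^ D), Ap (v + (3 ^ D : ℕ) * j) ^ 2
          = ∑ j ∈ range (3 ^ D), A (v + (3 ^ D : ℕ) * j) ^ 2 - Q * Ab v ^ 2 := by
        have h5 : ∑ j ∈ range (3 ^ D), A (v + (3 ^ D : ℕ) * j) = Q * Ab v := by
          simp only [Ab]
          rw [← mul_assoc, mul_inv_cancel₀ hQ0.ne', one_mul]
        have h6 : ∀ j : ℕ, Ap (v + (3 ^ D : ℕ) * j) ^ 2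
            = A (v + (3 ^ D : ℕ) * j) ^ 2 - 2 * Ab v * A (v + (3 ^ D : ℕ) * j) + Ab v ^ 2 := by
          intro j
          simp only [Ap]
          rw [hAbc]; ring
        simp only [h6]
        rw [Finset.sum_add_distrib, Finset.sum_sub_distrib, ← Finset.mul_sum, h5,
          Finset.sum_const, card_range, nsmul_eq_mul, hcard]
        ring
      rw [h4]
      have : 0 ≤ Q * Ab v ^ 2 := by positivity
      linarith
    have h7 : ∑ x ∈ range (3 ^ D * 3 ^ D), A x ≤ a := by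
      rw [sum_mul_range]
      exact le_trans (Finset.sum_le_sum fun v _ => hsum (v : ℤ)) hA1
    have h8 : ∑ x ∈ range (3 ^ D * 3 ^ D), A x ^ 2 ≤ (∑ x ∈ range (3 ^ D * 3 ^ D), A x) ^ 2 := by
      rw [sq (∑ x ∈ range (3 ^ D * 3 ^ D), A x), Finset.sum_mul]
      apply Finset.sum_le_sum
      intro x hx
      rw [sq]
      exact mul_le_mul_of_nonneg_left (Finset.single_le_sum (f := fun x : ℕ => A x)
        (fun _ _ => hA _) hx) (hA _)
    have h9 : 0 ≤ ∑ x ∈ range (3 ^ D * 3 ^ D), A x := Finset.sum_nonneg fun x _ => hA _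
    calc _ ≤ _ := h3
      _ ≤ _ := h8
      _ ≤ a ^ 2 := pow_le_pow_left₀ h9 h7 2
  have hρ0 : 0 ≤ (1 - (Q ^ 5)⁻¹) := by
    have : (1 : ℝ) ≤ Q ^ 5 := one_le_pow₀ (one_le_pow₀ (by norm_num))
    have := inv_le_one_of_one_le₀ this
    linarith
  have hρ1 : (1 - (Q ^ 5)⁻¹) ≤ 1 := by
    have : 0 < (Q ^ 5)⁻¹ := by positivity
    linarith
  have hE2 : sq2 (3 ^ D * 3 ^ D) (CK K (3 ^ D * 3 ^ D) π Ap) ≤ (κ * a * m) ^ 2 := by
    have h1 := CK_contr (D := D) (K := K) hπ hApR hApV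
    refine h1.trans ?_
    rw [Finset.prod_mul_distrib, Finset.prod_pow, ← hm, Finset.prod_ite, Finset.prod_const,
      Finset.prod_const_one, mul_one]
    have h2 : (1 - (Q ^ 5)⁻¹) ^ #{i | bra' D (π i)} ≤ κ ^ 2 :=
      (pow_le_pow_of_le_one hρ0 hρ1 hk).trans hκk
    calc (1 - (Q ^ 5)⁻¹) ^ #{i | bra' D (π i)} * m ^ 2 * sq2 (3 ^ D * 3 ^ D) Ap
        ≤ κ ^ 2 * m ^ 2 * a ^ 2 := by
          apply mul_le_mul _ hsq (sq2_nonneg _ _) (by positivity)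
          exact mul_le_mul_of_nonneg_right h2 (sq_nonneg _)
      _ = (κ * a * m) ^ 2 := by ring
  have hκ' : 0 ≤ κ * a * m := by positivity
  have hb2 : ∑ u ∈ range (3 ^ D * 3 ^ D), |CK K (3 ^ D * 3 ^ D) π Ap u| ^ q
      ≤ (κ * a * m) ^ q := by
    obtain ⟨r, rfl⟩ : ∃ r, q = r + 2 := ⟨q - 2, by omega⟩
    have h1 : ∀ u ∈ range (3 ^ D * 3 ^ D), |CK K (3 ^ D * 3 ^ D) π Ap u| ≤ κ * a * m := by
      intro u hu
      refine abs_le_of_sq_le_sq ?_ hκ'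
      refine le_trans ?_ hE2
      exact Finset.single_le_sum (f := fun u : ℕ => (CK K (3 ^ D * 3 ^ D) π Ap u) ^ 2)
        (fun _ _ => sq_nonneg _) hu
    calc ∑ u ∈ range (3 ^ D * 3 ^ D), |CK K (3 ^ D * 3 ^ D) π Ap u| ^ (r + 2)
        ≤ ∑ u ∈ range (3 ^ D * 3 ^ D), (κ * a * m) ^ r * (CK K (3 ^ D * 3 ^ D) π Ap u) ^ 2 := by
          apply Finset.sum_le_sum
          intro u hu
          rw [pow_add, sq_abs]
          exact mul_le_mul_of_nonneg_right (pow_le_pow_left₀ (abs_nonneg _) (h1 u hu) r)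
            (sq_nonneg _)
      _ ≤ (κ * a * m) ^ r * (κ * a * m) ^ 2 := by
          rw [← Finset.mul_sum]
          exact mul_le_mul_of_nonneg_left hE2 (pow_nonneg hκ' r)
      _ = _ := by rw [pow_add]
  have hdec : ∀ u : ℤ, CK K (3 ^ D * 3 ^ D) π A u
      = CK K (3 ^ D * 3 ^ D) π Ab u + CK K (3 ^ D * 3 ^ D) π Ap u := by
    intro u
    unfold CK
    rw [← Finset.sum_add_distrib]
    apply Finset.sum_congr rfl
    intro c _
    simp only [Ap]; ring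
  calc ∑ u ∈ range (3 ^ D * 3 ^ D), (CK K (3 ^ D * 3 ^ D) π A u) ^ q
      ≤ ∑ u ∈ range (3 ^ D * 3 ^ D),
        (CK K (3 ^ D * 3 ^ D) π Ab u + |CK K (3 ^ D * 3 ^ D) π Ap u|) ^ q := by
        apply Finset.sum_le_sum
        intro u _
        apply pow_le_pow_left₀ (CK_nonneg hπ hA _)
        rw [hdec]
        linarith [le_abs_self (CK K (3 ^ D * 3 ^ D) π Ap u)]
    _ ≤ (χ * H * a * m + κ * a * m) ^ q :=
        mink2 (by omega) _ _ _ _ _ (fun u _ => CK_nonneg hπ hAb0 _) (fun u _ => abs_nonneg _)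
          (by positivity) hκ' hb1 hb2
    _ = _ := by congr 1; ring

end Pool.Agent.LqFlat
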