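import Pool.Agent.LqFlat.Collatz

open Finset

namespace Pool.Agent.LqFlat

/-- index set of the words -/
def Ix (n B : ℕ) : Finset ((_ : ℕ) × ℕ) := (range (B + 1)).sigma fun b => W n b

/-- weight of an index in the class of `u` -/
noncomputable def wi (n : ℕ) (u : ℤ) (i : (_ : ℕ) × ℕ) : ℝ :=
  if (3 : ℤ) ^ n ∣ 2 ^ i.1 * u - i.2 then wt n i.1 else 0

lemma wi_nonneg (n : ℕ) (u : ℤ) (i : (_ : ℕ) × ℕ) : 0 ≤ wi n u i := by
  unfold wi
  split_ifs
  · exact wt_nonneg _ _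
  · exact le_rfl

lemma A_eq (n B : ℕ) (F : ℤ → ℝ) (u y : ℤ) : A n B F (u + 3 ^ n * y)
    = ∑ i ∈ Ix n B, wi n u i * F (2 ^ i.1 * y + (2 ^ i.1 * u - i.2) / 3 ^ n) := by
  unfold A op Ix wi
  rw [Finset.sum_sigma]
  apply Finset.sum_congr rfl
  intro b _
  rw [Finset.mul_sum]
  apply Finset.sum_congr rfl
  intro S _
  rw [trm_add]
  split_ifs <;> simp

lemma nu_eq (n B : ℕ) (u : ℤ) : nu n B u = ∑ i ∈ Ix n B, wi n u i := by
  have := A_eq n B (fun _ => 1) u 0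
  simp only [mul_zero, add_zero, mul_one] at this
  exact this

/-- local `ℓ^q` inequality -/
lemma local_q {q n m B : ℕ} (hq : 1 ≤ q) {F : ℤ → ℝ} (hF : ∀ x, 0 ≤ F x) (hp : Per (3 ^ m) F)
    {S : ℝ} (hS : 0 ≤ S) (h : ∑ y ∈ range (3 ^ m), F y ^ q ≤ S ^ q) (u : ℤ) :
    ∑ y ∈ range (3 ^ m), (A n B F (u + 3 ^ n * y)) ^ q ≤ (nu n B u * S) ^ q := by
  have hne : NeZero (3 ^ m) := ⟨by positivity⟩
  rw [nu_eq, Finset.sum_mul]
  simp only [A_eq]
  apply mink hq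
  · intro i _ y _
    exact mul_nonneg (wi_nonneg _ _ _) (hF _)
  · intro i _
    exact mul_nonneg (wi_nonneg _ _ _) hS
  · intro i _
    simp only [mul_pow]
    rw [← Finset.mul_sum]
    apply mul_le_mul_of_nonneg_left _ (pow_nonneg (wi_nonneg _ _ _) q)
    have hpq : Per (3 ^ m) fun x => F x ^ q := fun x => by simp only [hp x]
    have h1 := sum_unit (hpq.comp_add ((2 ^ i.1 * u - i.2) / 3 ^ n)) (a := 2 ^ i.1)
      (isUnit_two_pow i.1 m)
    rw [h1, sum_shift hpq]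
    exact h

/-- supremum over truncations of the `ℓ^q` sum -/
noncomputable def hh (q m : ℕ) : ℝ := ⨆ B : ℕ, ∑ x ∈ range (3 ^ m), nu m B x ^ q

lemma nuq_le_one {q m : ℕ} (hq : 1 ≤ q) (B : ℕ) : ∑ x ∈ range (3 ^ m), nu m B x ^ q ≤ 1 := by
  refine le_trans (Finset.sum_le_sum fun x _ => ?_) (sum_nu_le m B)
  exact pow_le_of_le_one (nu_nonneg m B x) (nu_le_one m B x) (by omega)

lemma hh_bdd {q m : ℕ} (hq : 1 ≤ q) :
    BddAbove (Set.range fun B : ℕ => ∑ x ∈ range (3 ^ m), nu m B x ^ q) :=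
  ⟨1, by rintro _ ⟨B, rfl⟩; exact nuq_le_one hq B⟩

lemma le_hh {q m : ℕ} (hq : 1 ≤ q) (B : ℕ) : ∑ x ∈ range (3 ^ m), nu m B x ^ q ≤ hh q m :=
  le_ciSup (hh_bdd hq) B

lemma hh_le_one {q m : ℕ} (hq : 1 ≤ q) : hh q m ≤ 1 := ciSup_le fun B => nuq_le_one hq B

lemma hh_nonneg {q m : ℕ} (hq : 1 ≤ q) : 0 ≤ hh q m :=
  le_trans (Finset.sum_nonneg (f := fun x : ℕ => nu m 0 x ^ q)
    fun x _ => pow_nonneg (nu_nonneg m 0 x) q) (le_hh hq 0)

/-- `q`-th root -/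
noncomputable def Sq (q m : ℕ) : ℝ := (hh q m) ^ (1 / q : ℝ)

lemma Sq_nonneg {q m : ℕ} (hq : 1 ≤ q) : 0 ≤ Sq q m := Real.rpow_nonneg (hh_nonneg hq) _

lemma Sq_pow {q m : ℕ} (hq : 1 ≤ q) : Sq q m ^ q = hh q m := by
  unfold Sq
  rw [one_div]
  exact Real.rpow_inv_natCast_pow (hh_nonneg hq) (by omega)

lemma Sq_le_one {q m : ℕ} (hq : 1 ≤ q) : Sq q m ≤ 1 :=
  Real.rpow_le_one (hh_nonneg hq) (hh_le_one hq) (by positivity)

lemma A_lq {q n m B : ℕ} (hq : 1 ≤ q) {F : ℤ → ℝ} (hF : ∀ x, 0 ≤ F x) (hp : Per (3 ^ m) F)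
    {S : ℝ} (hS : 0 ≤ S) (h : ∑ y ∈ range (3 ^ m), F y ^ q ≤ S ^ q) :
    ∑ x ∈ range (3 ^ m * 3 ^ n), (A n B F x) ^ q ≤ (Sq q n * S) ^ q := by
  have h1 := sum_mul_range (3 ^ m) (3 ^ n) (fun x => (A n B F x) ^ q)
  rw [h1]
  have h2 : ∀ u ∈ range (3 ^ n), ∑ x ∈ range (3 ^ m), (A n B F ((u : ℤ) + ((3 ^ n : ℕ) : ℤ) * x)) ^ q
      ≤ (nu n B u * S) ^ q := by
    intro u _
    push_cast
    exact local_q hq hF hp hS h u
  refine (Finset.sum_le_sum h2).trans ?_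
  simp only [mul_pow]
  rw [← Finset.sum_mul, Sq_pow hq]
  exact mul_le_mul_of_nonneg_right (le_hh hq B) (pow_nonneg hS q)

lemma hh_mul {q n m : ℕ} (hq : 1 ≤ q) : hh q (n + m) ≤ hh q n * hh q m := by
  apply ciSup_le
  intro B
  have h1 := A_lq (n := n) (B := B) hq (nu_nonneg m B) (nu_per m B) (Sq_nonneg (m := m) hq)
    (by rw [Sq_pow hq]; exact le_hh hq B)
  rw [mul_pow, Sq_pow hq, Sq_pow hq] at h1
  refine le_trans ?_ h1
  rw [add_comm n m, pow_add]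
  apply Finset.sum_le_sum
  intro x _
  apply pow_le_pow_left₀ (nu_nonneg _ _ _)
  rw [add_comm m n]
  exact nu_add_le n m B x

lemma loc_sum {D q : ℕ} (hq : 1 ≤ q) {H : ℝ} (hH : 0 ≤ H) {ι : Type*} (s : Finset ι) {w : ι → ℝ}
    (hw : ∀ i, 0 ≤ w i) : ∀ (L : ℕ) (F : ι → ℤ → ℝ) (a : ι → ℝ), (∀ i, 0 ≤ a i) →
    (∀ i, Loc D q H L (F i) (a i)) →
    Loc D q H L (fun x => ∑ i ∈ s, w i * F i x) (∑ i ∈ s, w i * a i) := by
  intro L
  induction L with
  | zero =>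
    intro F a _ h x
    exact Finset.sum_le_sum fun i _ => mul_le_mul_of_nonneg_left (h i x) (hw i)
  | succ L ih =>
    intro F a ha h
    choose A hA0 hAp hA1 hAq hAe using h
    refine ⟨fun x => ∑ i ∈ s, w i * A i x, fun x => Finset.sum_nonneg fun i _ =>
      mul_nonneg (hw i) (hA0 i x), ?_, ?_, ?_, ?_⟩
    · intro x
      exact Finset.sum_congr rfl fun i _ => by rw [hAp i x]
    · rw [Finset.sum_comm]
      simp only [← Finset.mul_sum]
      exact Finset.sum_le_sum fun i _ => mul_le_mul_of_nonneg_left (hA1 i) (hw i)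
    · have e : H * ∑ i ∈ s, w i * a i = ∑ i ∈ s, w i * (H * a i) := by
        rw [Finset.mul_sum]
        exact Finset.sum_congr rfl fun i _ => by ring
      rw [e]
      apply mink hq
      · intro i _ x _
        exact mul_nonneg (hw i) (hA0 i _)
      · intro i _
        exact mul_nonneg (hw i) (mul_nonneg hH (ha i))
      · intro i _
        simp only [mul_pow]
        rw [← Finset.mul_sum, ← mul_pow H]
        exact mul_le_mul_of_nonneg_left (hAq i) (pow_nonneg (hw i) q)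
    · intro e
      exact ih (fun i => sl (3 ^ D) e (F i)) (fun i => A i e) (fun i => hA0 i e) (fun i => hAe i e)

lemma loc_mono {D q : ℕ} {H : ℝ} : ∀ (L : ℕ) (F G : ℤ → ℝ) (a : ℝ), (∀ x, F x ≤ G x) →
    Loc D q H L G a → Loc D q H L F a := by
  intro L
  induction L with
  | zero => intro F G a h hG x; exact (h x).trans (hG x)
  | succ L ih =>
    intro F G a h hG
    obtain ⟨A, hA0, hAp, hA1, hAq, hAe⟩ := hG
    exact ⟨A, hA0, hAp, hA1, hAq, fun e => ih _ _ _ (fun x => h _) (hAe e)⟩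

lemma loc_aff {D q : ℕ} {H : ℝ} (b : ℕ) : ∀ (L : ℕ) (F : ℤ → ℝ) (c : ℤ) (a : ℝ),
    Loc D q H L F a → Loc D q H L (fun x => F (2 ^ b * x + c)) a := by
  have hne : NeZero (3 ^ D) := ⟨by positivity⟩
  intro L
  induction L with
  | zero => intro F c a h x; exact h _
  | succ L ih =>
    intro F c a h
    obtain ⟨A, hA0, hAp, hA1, hAq, hAe⟩ := h
    refine ⟨fun x => A (2 ^ b * x + c), fun x => hA0 _, ?_, ?_, ?_, ?_⟩
    · intro x
      apply hAp.eq_of
      exact ⟨2 ^ b, by ring⟩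
    · rw [sum_unit (hAp.comp_add c) (a := 2 ^ b) (isUnit_two_pow b D), sum_shift hAp]
      exact hA1
    · have hpq : Per (3 ^ D) fun x => A x ^ q := fun x => by simp only [hAp x]
      rw [sum_unit (hpq.comp_add c) (a := 2 ^ b) (isUnit_two_pow b D), sum_shift hpq]
      exact hAq
    · intro e
      have h1 := ih (sl (3 ^ D) (2 ^ b * e + c) F) 0 (A (2 ^ b * e + c)) (hAe _)
      have h2 : (fun x => sl (3 ^ D) (2 ^ b * e + c) F (2 ^ b * x + 0))
          = sl (3 ^ D) e (fun x => F (2 ^ b * x + c)) := by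
        ext x
        unfold sl
        congr 1
        ring
      rw [h2] at h1
      exact h1

lemma nu_loc {D q B : ℕ} (hq : 1 ≤ q) (L : ℕ) :
    Loc D q (Sq q D) L (nu (D * L) B) 1 := by
  induction L with
  | zero =>
    intro x
    rw [mul_zero, nu_zero]
  | succ L ih =>
    refine ⟨nu D B, nu_nonneg D B, nu_per D B, sum_nu_le D B, ?_, ?_⟩
    · rw [mul_one, Sq_pow hq]
      exact le_hh hq B
    · intro e
      rw [nu_eq]
      have h1 := loc_sum (D := D) (q := q) hq (Sq_nonneg (m := D) hq) (Ix D B) (w := wi D e)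
        (wi_nonneg D e) L (fun i x => nu (D * L) B (2 ^ i.1 * x + (2 ^ i.1 * e - i.2) / 3 ^ D))
        (fun _ => 1) (fun _ => zero_le_one) (fun i => loc_aff i.1 L _ _ _ ih)
      simp only [mul_one] at h1
      refine loc_mono L _ _ _ (fun x => ?_) h1
      rw [← A_eq]
      unfold sl
      have e2 : D * (L + 1) = D + D * L := by ring
      rw [e2]
      push_cast
      exact nu_add_le D (D * L) B _

end Pool.Agent.LqFlat
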