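import Pool.Agent.LqFlat.Spectral

open Finset

namespace Pool.Agent.LqFlat

/-- numerators: `n` odd steps, total exponent `b` -/
def W : ℕ → ℕ → Finset ℕ
  | 0, b => if b = 0 then {0} else ∅
  | n + 1, b => (range b).biUnion fun e => (W n e).image fun S => 2 ^ e + 3 * S

lemma mem_W_zero {b S : ℕ} : S ∈ W 0 b ↔ b = 0 ∧ S = 0 := by
  unfold W
  split_ifs with h <;> simp [h]

lemma mem_W_succ {n b S : ℕ} : S ∈ W (n + 1) b ↔ ∃ e < b, ∃ S' ∈ W n e, 2 ^ e + 3 * S' = S := by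
  rw [W]
  simp only [Finset.mem_biUnion, Finset.mem_range, Finset.mem_image]

lemma W_lt {n b S : ℕ} (h : S ∈ W n b) : S < 3 ^ n * 2 ^ b := by
  induction n generalizing b S with
  | zero =>
    obtain ⟨rfl, rfl⟩ := mem_W_zero.1 h
    norm_num
  | succ n ih =>
    obtain ⟨e, he, S', hS', rfl⟩ := mem_W_succ.1 h
    have h1 := ih hS'
    have h2 : 2 ^ (e + 1) ≤ 2 ^ b := Nat.pow_le_pow_right (by norm_num) he
    have h3 : 3 ^ (n + 1) * 2 ^ (e + 1) ≤ 3 ^ (n + 1) * 2 ^ b := Nat.mul_le_mul_left _ h2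
    have h4 : 1 * 2 ^ e ≤ 3 ^ (n + 1) * 2 ^ e := Nat.mul_le_mul_right _ (Nat.one_le_pow _ _ (by norm_num))
    have h5 : 3 ^ (n + 1) * 2 ^ (e + 1) = 3 ^ (n + 1) * 2 ^ e + 3 * (3 ^ n * 2 ^ e) := by
      rw [pow_succ 2 e, pow_succ 3 n]; ring
    omega

lemma W_le {n b S : ℕ} (h : S ∈ W n b) : n ≤ b := by
  induction n generalizing b S with
  | zero => exact Nat.zero_le _
  | succ n ih =>
    obtain ⟨e, he, S', hS', rfl⟩ := mem_W_succ.1 h
    have := ih hS'
    omega

lemma mem_W_add {m : ℕ} : ∀ {n b S : ℕ}, S ∈ W (n + m) b →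
    ∃ e ≤ b, ∃ S1 ∈ W n (b - e), ∃ S2 ∈ W m e, 2 ^ e * S1 + 3 ^ n * S2 = S := by
  intro n
  induction n with
  | zero =>
    intro b S h
    rw [zero_add] at h
    refine ⟨b, le_rfl, 0, ?_, S, h, by simp⟩
    rw [Nat.sub_self]
    exact mem_W_zero.2 ⟨rfl, rfl⟩
  | succ n ih =>
    intro b S h
    rw [Nat.add_right_comm] at h
    obtain ⟨f, hf, S', hS', rfl⟩ := mem_W_succ.1 h
    obtain ⟨e, he, S1, hS1, S2, hS2, rfl⟩ := ih hS'
    refine ⟨e, by omega, 2 ^ (f - e) + 3 * S1, mem_W_succ.2 ⟨f - e, by omega, S1, hS1, rfl⟩,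
      S2, hS2, ?_⟩
    have : 2 ^ f = 2 ^ e * 2 ^ (f - e) := by
      rw [← pow_add]; congr 1; omega
    rw [this]; ring

/-- one term of the transfer operator -/
noncomputable def trm (n b S : ℕ) (F : ℤ → ℝ) (x : ℤ) : ℝ :=
  if (3 : ℤ) ^ n ∣ 2 ^ b * x - S then F ((2 ^ b * x - S) / 3 ^ n) else 0

lemma trm_nonneg {n b S : ℕ} {F : ℤ → ℝ} (hF : ∀ x, 0 ≤ F x) (x : ℤ) : 0 ≤ trm n b S F x := by
  unfold trm
  split_ifs
  · exact hF _
  · exact le_rfl

lemma trm_mono {n b S : ℕ} {F G : ℤ → ℝ} (h : ∀ x, F x ≤ G x) (x : ℤ) :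
    trm n b S F x ≤ trm n b S G x := by
  unfold trm
  split_ifs
  · exact h _
  · exact le_rfl

/-- transfer operator with `n` odd steps and total exponent `b` -/
noncomputable def op (n b : ℕ) (F : ℤ → ℝ) (x : ℤ) : ℝ := ∑ S ∈ W n b, trm n b S F x

lemma op_nonneg {n b : ℕ} {F : ℤ → ℝ} (hF : ∀ x, 0 ≤ F x) (x : ℤ) : 0 ≤ op n b F x :=
  Finset.sum_nonneg fun _ _ => trm_nonneg hF x

lemma op_sum {n b : ℕ} {ι : Type*} (s : Finset ι) (c : ι → ℝ) (F : ι → ℤ → ℝ) (x : ℤ) :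
    op n b (fun y => ∑ i ∈ s, c i * F i y) x = ∑ i ∈ s, c i * op n b (F i) x := by
  unfold op trm
  simp only [Finset.mul_sum]
  rw [Finset.sum_comm]
  apply Finset.sum_congr rfl
  intro S _
  split_ifs
  · rfl
  · simp

lemma op_add_le {n m b : ℕ} {F : ℤ → ℝ} (hF : ∀ x, 0 ≤ F x) (x : ℤ) :
    op (n + m) b F x ≤ ∑ e ∈ range (b + 1), op n (b - e) (op m e F) x := by
  classical
  set I : Finset ((_ : ℕ) × (ℕ × ℕ)) := (range (b + 1)).sigma fun e => W n (b - e) ×ˢ W m e with hI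
  set g : ((_ : ℕ) × (ℕ × ℕ)) → ℕ := fun i => 2 ^ i.1 * i.2.1 + 3 ^ n * i.2.2 with hg
  have h1 : W (n + m) b ⊆ I.image g := by
    intro S hS
    obtain ⟨e, he, S1, hS1, S2, hS2, rfl⟩ := mem_W_add hS
    apply Finset.mem_image.2
    refine ⟨⟨e, (S1, S2)⟩, ?_, rfl⟩
    rw [hI]
    simp only [Finset.mem_sigma, Finset.mem_range, Finset.mem_product]
    exact ⟨by omega, hS1, hS2⟩
  unfold op
  refine (Finset.sum_le_sum_of_subset_of_nonneg h1 fun S _ _ => trm_nonneg hF x).trans ?_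
  refine (Finset.sum_image_le_of_nonneg (g := g) (f := fun S => trm (n + m) b S F x)
    fun S _ => trm_nonneg hF x).trans ?_
  rw [hI, Finset.sum_sigma]
  apply Finset.sum_le_sum
  intro e he
  have he' : e ≤ b := by have := Finset.mem_range.1 he; omega
  rw [Finset.sum_product]
  apply Finset.sum_le_sum
  intro S1 _
  simp only [hg]
  unfold trm
  have e2 : (2 : ℤ) ^ b = 2 ^ e * 2 ^ (b - e) := by
    rw [← pow_add]; congr 1; omega
  have hexp : ∀ S2 : ℕ, (2 : ℤ) ^ b * x - ((2 ^ e * S1 + 3 ^ n * S2 : ℕ) : ℤ)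
      = 2 ^ e * (2 ^ (b - e) * x - S1) - 3 ^ n * S2 := by
    intro S2
    push_cast
    rw [e2]; ring
  by_cases hd : (3 : ℤ) ^ n ∣ 2 ^ (b - e) * x - S1
  · rw [if_pos hd]
    apply Finset.sum_le_sum
    intro S2 _
    obtain ⟨y, hy⟩ := hd
    rw [hexp, hy, Int.mul_ediv_cancel_left _ (by positivity)]
    have h3 : (2 : ℤ) ^ e * (3 ^ n * y) - 3 ^ n * S2 = 3 ^ n * (2 ^ e * y - S2) := by ring
    rw [h3, pow_add]
    by_cases hd2 : (3 : ℤ) ^ n * 3 ^ m ∣ 3 ^ n * (2 ^ e * y - S2)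
    · rw [if_pos hd2, if_pos (Int.dvd_of_mul_dvd_mul_left (by positivity) hd2)]
      rw [Int.mul_ediv_mul_of_pos _ _ (by positivity)]
    · rw [if_neg hd2]
      split_ifs
      · exact hF _
      · exact le_rfl
  · rw [if_neg hd]
    apply le_of_eq
    apply Finset.sum_eq_zero
    intro S2 _
    rw [if_neg]
    intro hd2
    apply hd
    rw [hexp, pow_add] at hd2
    have h4 : (3 : ℤ) ^ n ∣ 2 ^ e * (2 ^ (b - e) * x - S1) := by
      have h5 := dvd_of_mul_right_dvd hd2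
      have h6 : (3 : ℤ) ^ n ∣ 3 ^ n * S2 := dvd_mul_right _ _
      have := dvd_add h5 h6
      simpa using this
    have h7 : IsCoprime ((3 : ℤ) ^ n) (2 ^ e) := by
      apply IsCoprime.pow
      norm_num
    exact h7.dvd_of_dvd_mul_left h4

/-- weights -/
noncomputable def wt (n b : ℕ) : ℝ := (1 / 3) ^ n * (3 / 4) ^ b

lemma wt_nonneg (n b : ℕ) : 0 ≤ wt n b := by unfold wt; positivity

/-- truncated transfer operator -/
noncomputable def A (n B : ℕ) (F : ℤ → ℝ) (x : ℤ) : ℝ :=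
  ∑ b ∈ range (B + 1), wt n b * op n b F x

lemma A_nonneg {n B : ℕ} {F : ℤ → ℝ} (hF : ∀ x, 0 ≤ F x) (x : ℤ) : 0 ≤ A n B F x :=
  Finset.sum_nonneg fun _ _ => mul_nonneg (wt_nonneg _ _) (op_nonneg hF x)

lemma A_add_le {n m B : ℕ} {F : ℤ → ℝ} (hF : ∀ x, 0 ≤ F x) (x : ℤ) :
    A (n + m) B F x ≤ A n B (A m B F) x := by
  have h1 : ∀ b ∈ range (B + 1), wt (n + m) b * op (n + m) b F x
      ≤ ∑ e ∈ range (b + 1), wt n (b - e) * wt m e * op n (b - e) (op m e F) x := by
    intro b _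
    refine (mul_le_mul_of_nonneg_left (op_add_le hF x) (wt_nonneg _ _)).trans (le_of_eq ?_)
    rw [Finset.mul_sum]
    apply Finset.sum_congr rfl
    intro e he
    have he' : e ≤ b := by have := Finset.mem_range.1 he; omega
    congr 1
    unfold wt
    have : (3 / 4 : ℝ) ^ b = (3 / 4) ^ (b - e) * (3 / 4) ^ e := by
      rw [← pow_add]; congr 1; omega
    rw [this, pow_add]; ring
  unfold A at *
  refine (Finset.sum_le_sum h1).trans ?_
  have h2 := Finset.sum_range_diag_flip (B + 1)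
    (fun e b' => wt n b' * wt m e * op n b' (op m e F) x)
  rw [h2]
  have h3 : ∀ b ∈ range (B + 1), wt n b * op n b (fun y => ∑ e ∈ range (B + 1), wt m e * op m e F y) x
      = ∑ e ∈ range (B + 1), wt n b * wt m e * op n b (op m e F) x := by
    intro b _
    rw [op_sum, Finset.mul_sum]
    apply Finset.sum_congr rfl
    intro e _
    ring
  rw [Finset.sum_congr rfl h3, Finset.sum_comm]
  apply Finset.sum_le_sum
  intro e _
  apply Finset.sum_le_sum_of_subset_of_nonneg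
  · intro b hb
    rw [Finset.mem_range] at *
    omega
  · intro b _ _
    exact mul_nonneg (mul_nonneg (wt_nonneg _ _) (wt_nonneg _ _))
      (op_nonneg (op_nonneg hF) x)

lemma A_mono_fun {n B : ℕ} {F G : ℤ → ℝ} (h : ∀ x, F x ≤ G x) (x : ℤ) : A n B F x ≤ A n B G x :=
  Finset.sum_le_sum fun _ _ => mul_le_mul_of_nonneg_left
    (Finset.sum_le_sum fun _ _ => trm_mono h x) (wt_nonneg _ _)

lemma A_mono_B {n B B' : ℕ} (hB : B ≤ B') {F : ℤ → ℝ} (hF : ∀ x, 0 ≤ F x) (x : ℤ) :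
    A n B F x ≤ A n B' F x := by
  apply Finset.sum_le_sum_of_subset_of_nonneg
  · intro b hb
    rw [Finset.mem_range] at *
    omega
  · intro b _ _
    exact mul_nonneg (wt_nonneg _ _) (op_nonneg hF x)

/-- the truncated distribution of `n` steps modulo `3 ^ n` -/
noncomputable def nu (n B : ℕ) : ℤ → ℝ := A n B fun _ => 1

lemma nu_nonneg (n B : ℕ) (x : ℤ) : 0 ≤ nu n B x := A_nonneg (fun _ => zero_le_one) x

lemma nu_add_le (n m B : ℕ) (x : ℤ) : nu (n + m) B x ≤ A n B (nu m B) x :=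
  A_add_le (fun _ => zero_le_one) x

lemma nu_zero (B : ℕ) (x : ℤ) : nu 0 B x = 1 := by
  unfold nu A
  rw [Finset.sum_eq_single_of_mem 0 (by simp)]
  · simp [wt, op, W, trm]
  · intro b _ hb
    simp [op, W, hb]

lemma trm_add {n b S : ℕ} (F : ℤ → ℝ) (u y : ℤ) :
    trm n b S F (u + 3 ^ n * y) = if (3 : ℤ) ^ n ∣ 2 ^ b * u - S then
      F (2 ^ b * y + (2 ^ b * u - S) / 3 ^ n) else 0 := by
  unfold trm
  have e : (2 : ℤ) ^ b * (u + 3 ^ n * y) - S = (2 ^ b * u - S) + 3 ^ n * (2 ^ b * y) := by ring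
  rw [e]
  have h0 : (3 : ℤ) ^ n ≠ 0 := by positivity
  by_cases hd : (3 : ℤ) ^ n ∣ 2 ^ b * u - S
  · rw [if_pos hd, if_pos (dvd_add hd (dvd_mul_right _ _)), Int.add_mul_ediv_left _ _ h0, add_comm]
  · rw [if_neg hd, if_neg]
    intro h
    exact hd ((Int.dvd_add_left (dvd_mul_right _ _)).1 h)

lemma trm_per {n m b S : ℕ} {F : ℤ → ℝ} (hF : Per (3 ^ m) F) :
    Per (3 ^ m * 3 ^ n) (trm n b S F) := by
  intro x
  have e : x + ((3 ^ m * 3 ^ n : ℕ) : ℤ) = x + 3 ^ n * 3 ^ m := by push_cast; ring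
  rw [e, trm_add]
  unfold trm
  split_ifs
  · apply hF.eq_of
    exact ⟨2 ^ b, by push_cast; ring⟩
  · rfl

lemma op_per {n m b : ℕ} {F : ℤ → ℝ} (hF : Per (3 ^ m) F) : Per (3 ^ m * 3 ^ n) (op n b F) := by
  intro x
  unfold op
  exact Finset.sum_congr rfl fun S _ => trm_per hF x

lemma A_per {n m B : ℕ} {F : ℤ → ℝ} (hF : Per (3 ^ m) F) : Per (3 ^ m * 3 ^ n) (A n B F) := by
  intro x
  unfold A
  exact Finset.sum_congr rfl fun b _ => by rw [op_per hF x]

lemma nu_per (n B : ℕ) : Per (3 ^ n) (nu n B) := by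
  have := A_per (n := n) (m := 0) (B := B) (F := fun _ => 1) (fun _ => rfl)
  rw [pow_zero, one_mul] at this
  exact this

lemma isUnit_two_pow (b m : ℕ) : IsUnit (((2 ^ b : ℤ)) : ZMod (3 ^ m)) := by
  push_cast
  apply IsUnit.pow
  have : IsUnit ((2 : ℕ) : ZMod (3 ^ m)) := by
    rw [ZMod.isUnit_iff_coprime]
    exact Nat.Coprime.pow_right _ (by norm_num)
  simpa using this

/-- number of terms: `∑_x op n b 1 x = |W n b|` -/
lemma sum_op_one (n b : ℕ) : ∑ x ∈ range (3 ^ n), op n b (fun _ => 1) x = #(W n b) := by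
  have hne : NeZero (3 ^ n) := ⟨by positivity⟩
  unfold op
  rw [Finset.sum_comm, Finset.card_eq_sum_ones]
  push_cast
  apply Finset.sum_congr rfl
  intro S _
  unfold trm
  set f : ℤ → ℝ := fun z => if (3 : ℤ) ^ n ∣ z then 1 else 0 with hf
  have hfp : Per (3 ^ n) f := by
    intro z
    simp only [hf]
    have : (3 : ℤ) ^ n ∣ z + ((3 ^ n : ℕ) : ℤ) ↔ (3 : ℤ) ^ n ∣ z := by
      push_cast
      exact Int.dvd_add_left (dvd_refl _)
    simp only [this]
  have h1 : ∑ x ∈ range (3 ^ n), f (2 ^ b * x - S) = ∑ x ∈ range (3 ^ n), f x := by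
    have hp : Per (3 ^ n) fun z => f (z - S) := by
      have := hfp.comp_add (-(S : ℤ))
      simpa [sub_eq_add_neg] using this
    have h2 := sum_unit hp (a := 2 ^ b) (isUnit_two_pow b n)
    rw [h2]
    have h3 := sum_shift hfp (-(S : ℤ))
    simpa [sub_eq_add_neg] using h3
  refine h1.trans ?_
  rw [Finset.sum_eq_single_of_mem 0 (by simp)]
  · simp [hf]
  · intro z hz hz0
    simp only [hf]
    rw [if_neg]
    intro hd
    have hz' := Finset.mem_range.1 hz
    have : (3 ^ n : ℕ) ∣ z := by exact_mod_cast hd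
    exact absurd (Nat.le_of_dvd (Nat.pos_of_ne_zero hz0) this) (by omega)

lemma card_W_succ_le (n b : ℕ) : #(W (n + 1) b) ≤ ∑ e ∈ range b, #(W n e) := by
  rw [W]
  exact card_biUnion_le.trans (Finset.sum_le_sum fun e _ => Finset.card_image_le)

lemma sum_W_le {s : ℝ} (hs : 0 ≤ s) (hs1 : s < 1) (n B : ℕ) :
    ∑ b ∈ range (B + 1), s ^ b * #(W n b) ≤ (s / (1 - s)) ^ n := by
  induction n with
  | zero =>
    rw [pow_zero, Finset.sum_eq_single_of_mem 0 (by simp)]
    · simp [W]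
    · intro b _ hb
      simp [W, hb]
  | succ n ih =>
    have h1s : 0 < 1 - s := by linarith
    have h1 : ∑ b ∈ range (B + 1), s ^ b * #(W (n + 1) b)
        ≤ ∑ b ∈ range (B + 1), ∑ e ∈ range (B + 1), (if e < b then s ^ b * (#(W n e) : ℝ) else 0) := by
      apply Finset.sum_le_sum
      intro b hb
      have hb' := Finset.mem_range.1 hb
      rw [← Finset.sum_filter]
      have h2 : (range (B + 1)).filter (fun e => e < b) = range b := by
        ext e; simp only [Finset.mem_filter, Finset.mem_range]; omega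
      rw [h2, ← Finset.mul_sum]
      apply mul_le_mul_of_nonneg_left _ (by positivity)
      exact_mod_cast card_W_succ_le n b
    refine h1.trans ?_
    rw [Finset.sum_comm]
    have h2 : ∀ e ∈ range (B + 1), ∑ b ∈ range (B + 1), (if e < b then s ^ b * (#(W n e) : ℝ) else 0)
        ≤ (s / (1 - s)) * (s ^ e * #(W n e)) := by
      intro e _
      have h3 : ∑ b ∈ range (B + 1), (if e < b then s ^ b * (#(W n e) : ℝ) else 0)
          = (∑ b ∈ range (B + 1), (if e < b then s ^ b else 0)) * #(W n e) := by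
        rw [Finset.sum_mul]
        apply Finset.sum_congr rfl
        intro b _
        split_ifs <;> simp
      rw [h3, ← mul_assoc]
      apply mul_le_mul_of_nonneg_right _ (Nat.cast_nonneg _)
      have h4 : ∀ B : ℕ, (1 - s) * ∑ b ∈ range (B + 1), (if e < b then s ^ b else 0)
          ≤ s ^ (e + 1) := by
        intro B
        have h5 : (1 - s) * ∑ b ∈ range (B + 1), (if e < b then s ^ b else 0)
            ≤ s ^ (e + 1) - s ^ (max (e + 1) (B + 1)) := by
          induction B with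
          | zero =>
            simp
          | succ B ihB =>
            rw [Finset.sum_range_succ, mul_add]
            split_ifs with h
            · have e1 : max (e + 1) (B + 1 + 1) = B + 1 + 1 := by omega
              have e2 : max (e + 1) (B + 1) = B + 1 := by omega
              rw [e2] at ihB
              rw [e1, pow_succ s (B + 1)]
              linarith
            · have e1 : max (e + 1) (B + 1 + 1) = e + 1 ∧ max (e + 1) (B + 1) = e + 1 := by omega
              rw [e1.2] at ihB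
              rw [e1.1]
              linarith
        have : 0 ≤ s ^ (max (e + 1) (B + 1)) := pow_nonneg hs _
        linarith
      have h6 := h4 B
      rw [div_mul_eq_mul_div, le_div_iff₀ h1s, mul_comm]
      rw [pow_succ] at h6
      linarith
    refine (Finset.sum_le_sum h2).trans ?_
    rw [← Finset.mul_sum, pow_succ, mul_comm]
    exact mul_le_mul_of_nonneg_right ih (by positivity)

lemma sum_nu_le (n B : ℕ) : ∑ x ∈ range (3 ^ n), nu n B x ≤ 1 := by
  unfold nu A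
  rw [Finset.sum_comm]
  simp only [← Finset.mul_sum, sum_op_one]
  unfold wt
  simp only [mul_assoc]
  rw [← Finset.mul_sum]
  have h := sum_W_le (s := 3 / 4) (by norm_num) (by norm_num) n B
  have h2 : (3 / 4 : ℝ) / (1 - 3 / 4) = 3 := by norm_num
  rw [h2] at h
  calc (1 / 3 : ℝ) ^ n * ∑ b ∈ range (B + 1), (3 / 4 : ℝ) ^ b * #(W n b)
      ≤ (1 / 3 : ℝ) ^ n * 3 ^ n := mul_le_mul_of_nonneg_left h (by positivity)
    _ = 1 := by rw [← mul_pow]; norm_num

lemma nu_le_one (n B : ℕ) (x : ℤ) : nu n B x ≤ 1 := by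
  have hM : ((3 ^ n : ℕ) : ℤ) ≠ 0 := by positivity
  have h8 : 0 ≤ x % ((3 ^ n : ℕ) : ℤ) := Int.emod_nonneg _ hM
  have h9 : x % ((3 ^ n : ℕ) : ℤ) < (3 ^ n : ℕ) := Int.emod_lt_of_pos _ (by positivity)
  have h1 : nu n B x = nu n B (x % ((3 ^ n : ℕ) : ℤ)) := by
    apply (nu_per n B).eq_of
    exact Int.dvd_self_sub_emod
  rw [h1, ← Int.toNat_of_nonneg h8]
  refine (Finset.single_le_sum (f := fun x : ℕ => nu n B x) (fun x _ => nu_nonneg n B x)
    (Finset.mem_range.2 (by omega))).trans (sum_nu_le n B)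

end Pool.Agent.LqFlat
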