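import Mathlib

open Finset

namespace Pool.Agent.LqFlat

/-- the `3x+1` map -/
def tm (n : ℕ) : ℕ := if n % 2 = 0 then n / 2 else (3 * n + 1) / 2

/-- `N^*(k, a)`: the number of depth-`k` leaves of the pruned tree of `a` -/
noncomputable def Nstar (k a : ℕ) : ℕ := Set.ncard {n : ℕ | 1 ≤ n ∧ n % 3 ≠ 0 ∧ tm^[k] n = a}

/-- the number of all `n ≥ 1` with `T^{(k)}(n) = a` -/
noncomputable def Nall (k a : ℕ) : ℕ := Set.ncard {n : ℕ | 1 ≤ n ∧ tm^[k] n = a}

/-- representatives of the `2 * 3 ^ k` residue classes modulo `3 ^ (k + 1)` prime to `3` -/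
def classes (k : ℕ) : Finset ℕ := (range (3 ^ (k + 1))).filter fun a => a % 3 ≠ 0

/-- `N_k^+`, the maximum of `N^*(k, a)` -/
noncomputable def Nplus (k : ℕ) : ℕ := (classes k).sup (Nstar k)

end Pool.Agent.LqFlat
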