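import Pool.Agent.LqFlat.CLoc
import Pool.Agent.LqFlat.Defs

open Finset

namespace Pool.Agent.LqFlat

lemma tm_eq {x a : ℕ} : tm x = a ↔ x = 2 * a ∨ (3 * x + 1 = 2 * a) := by
  unfold tm
  split_ifs with h <;> omega

lemma W_mono {n b : ℕ} {S : ℕ} (h : S ∈ W (n + 1) b) : S ∈ W (n + 1) (b + 1) := by
  obtain ⟨e, he, S', hS', rfl⟩ := mem_W_succ.1 h
  exact mem_W_succ.2 ⟨e, by omega, S', hS', rfl⟩

lemma pre_struct (k : ℕ) : ∀ (m a : ℕ), tm^[k] m = a →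
    ∃ b ≤ k, ∃ j, ∃ S ∈ W j b, ∃ y : ℕ, m = 2 ^ (k - b) * y ∧ 3 ^ j * y + S = 2 ^ b * a := by
  induction k with
  | zero =>
    intro m a h
    refine ⟨0, le_rfl, 0, 0, mem_W_zero.2 ⟨rfl, rfl⟩, m, by simp, ?_⟩
    simpa using h
  | succ k ih =>
    intro m a h
    rw [Function.iterate_succ_apply'] at h
    obtain ⟨b, hb, j, S, hS, y, hm, hy⟩ := ih m _ rfl
    rcases tm_eq.1 h with h1 | h1
    · rw [h1] at hy
      rcases Nat.eq_zero_or_pos j with rfl | hj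
      · obtain ⟨rfl, rfl⟩ := mem_W_zero.1 hS
        refine ⟨0, Nat.zero_le _, 0, 0, mem_W_zero.2 ⟨rfl, rfl⟩, a, ?_, by simp⟩
        rw [hm]
        simp only [pow_zero, one_mul, add_zero, Nat.sub_zero] at hy ⊢
        rw [hy, pow_succ]; ring
      · obtain ⟨i, rfl⟩ : ∃ i, j = i + 1 := ⟨j - 1, by omega⟩
        refine ⟨b + 1, by omega, i + 1, S, W_mono hS, y, ?_, ?_⟩
        · rw [hm]; congr 2; omega
        · rw [hy, pow_succ]; ring
    · refine ⟨b + 1, by omega, j + 1, 2 ^ b + 3 * S, mem_W_succ.2 ⟨b, by omega, S, hS, rfl⟩, y, ?_, ?_⟩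
      · rw [hm]; congr 2; omega
      · have h2 : 2 ^ b * (3 * tm^[k] m + 1) = 2 ^ b * (2 * a) := by rw [h1]
        have h3 : 3 ^ (j + 1) * y + 3 * S = 3 * (2 ^ b * tm^[k] m) := by rw [← hy]; ring
        have h4 : 2 ^ (b + 1) * a = 2 ^ b * (2 * a) := by ring
        rw [h4, ← h2]
        linarith

open Classical in
/-- index set for the leaves -/
noncomputable def Lf (k a : ℕ) : Finset ((_ : ℕ) × ((_ : ℕ) × ℕ)) :=
  (range (k + 1)).sigma fun j => (range (k + 1)).sigma fun b =>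
    (W j b).filter fun S : ℕ => (3 : ℤ) ^ j ∣ 2 ^ b * (a : ℤ) - S

lemma leaves_sub (k a : ℕ) : {m : ℕ | tm^[k] m = a} ⊆
    ((Lf k a).image fun i => 2 ^ (k - i.2.1) * ((2 ^ i.2.1 * a - i.2.2) / 3 ^ i.1) : Finset ℕ) := by
  intro m hm
  obtain ⟨b, hb, j, S, hS, y, hmy, hy⟩ := pre_struct k m a hm
  rw [Finset.mem_coe, Finset.mem_image]
  refine ⟨⟨j, ⟨b, S⟩⟩, ?_, ?_⟩
  · unfold Lf
    simp only [Finset.mem_sigma, Finset.mem_range, Finset.mem_filter]
    have := W_le hS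
    refine ⟨by omega, by omega, hS, y, ?_⟩
    have h2 : ((3 ^ j * y + S : ℕ) : ℤ) = ((2 ^ b * a : ℕ) : ℤ) := by rw [hy]
    push_cast at h2
    linarith
  · simp only
    rw [← hy, Nat.add_sub_cancel, Nat.mul_div_cancel_left _ (by positivity), hmy]

lemma leaves_finite (k a : ℕ) : {m : ℕ | tm^[k] m = a}.Finite :=
  (Finset.finite_toSet _).subset (leaves_sub k a)

lemma card_Lf (k a : ℕ) : (#(Lf k a) : ℝ)
    = ∑ j ∈ range (k + 1), ∑ b ∈ range (k + 1), op j b (fun _ => 1) a := by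
  classical
  unfold Lf
  rw [Finset.card_sigma]
  push_cast
  apply Finset.sum_congr rfl
  intro j _
  rw [Finset.card_sigma]
  push_cast
  apply Finset.sum_congr rfl
  intro b _
  unfold op trm
  rw [← Finset.sum_filter, Finset.sum_const, nsmul_eq_mul, mul_one]

lemma nu_le_Sq {q m : ℕ} (hq : 1 ≤ q) (B : ℕ) (x : ℤ) : nu m B x ≤ Sq q m := by
  have hM : ((3 ^ m : ℕ) : ℤ) ≠ 0 := by positivity
  have h8 : 0 ≤ x % ((3 ^ m : ℕ) : ℤ) := Int.emod_nonneg _ hM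
  have h9 : x % ((3 ^ m : ℕ) : ℤ) < (3 ^ m : ℕ) := Int.emod_lt_of_pos _ (by positivity)
  have h1 : nu m B x = nu m B (x % ((3 ^ m : ℕ) : ℤ)) := by
    apply (nu_per m B).eq_of
    exact Int.dvd_self_sub_emod
  rw [h1, ← Int.toNat_of_nonneg h8]
  set y : ℕ := (x % ((3 ^ m : ℕ) : ℤ)).toNat with hy
  have h2 : nu m B y ^ q ≤ Sq q m ^ q := by
    rw [Sq_pow hq]
    refine (Finset.single_le_sum (f := fun x : ℕ => nu m B x ^ q)
      (fun x _ => pow_nonneg (nu_nonneg m B x) q) (Finset.mem_range.2 (by omega))).trans (le_hh hq B)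
  exact le_of_pow_le_pow_left₀ (by omega) (Sq_nonneg hq) h2

/-- upper bound for the number of leaves -/
theorem leaves_le {q : ℕ} (hq : 1 ≤ q) (k a : ℕ) :
    (({m : ℕ | tm^[k] m = a}.ncard : ℕ) : ℝ)
      ≤ (4 / 3 : ℝ) ^ k * ∑ j ∈ range (k + 1), 3 ^ j * Sq q j := by
  have h1 : {m : ℕ | tm^[k] m = a}.ncard ≤ #(Lf k a) := by
    refine (Set.ncard_le_ncard (leaves_sub k a) (Finset.finite_toSet _)).trans ?_
    rw [Set.ncard_coe_finset]
    exact Finset.card_image_le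
  have h2 : (({m : ℕ | tm^[k] m = a}.ncard : ℕ) : ℝ) ≤ #(Lf k a) := by exact_mod_cast h1
  refine h2.trans ?_
  rw [card_Lf, Finset.mul_sum]
  apply Finset.sum_le_sum
  intro j _
  have h3 : ∑ b ∈ range (k + 1), op j b (fun _ => 1) a
      ≤ ∑ b ∈ range (k + 1), (3 ^ j * (4 / 3 : ℝ) ^ k) * (wt j b * op j b (fun _ => 1) a) := by
    apply Finset.sum_le_sum
    intro b hb
    have hb' : b ≤ k := by have := Finset.mem_range.1 hb; omega
    rw [← mul_assoc]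
    have h4 : 1 ≤ 3 ^ j * (4 / 3 : ℝ) ^ k * wt j b := by
      unfold wt
      have h5 : (4 / 3 : ℝ) ^ b ≤ (4 / 3) ^ k := pow_le_pow_right₀ (by norm_num) hb'
      have h6 : (3 : ℝ) ^ j * (1 / 3) ^ j = 1 := by rw [← mul_pow]; norm_num
      have h7 : (4 / 3 : ℝ) ^ b * (3 / 4) ^ b = 1 := by rw [← mul_pow]; norm_num
      calc (1 : ℝ) = (3 ^ j * (1 / 3) ^ j) * ((4 / 3) ^ b * (3 / 4) ^ b) := by rw [h6, h7]; norm_num
        _ ≤ (3 ^ j * (1 / 3) ^ j) * ((4 / 3) ^ k * (3 / 4) ^ b) := by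
            apply mul_le_mul_of_nonneg_left _ (by positivity)
            exact mul_le_mul_of_nonneg_right h5 (by positivity)
        _ = _ := by ring
    have h8 : 0 ≤ op j b (fun _ => 1) (a : ℤ) := op_nonneg (fun _ => zero_le_one) _
    have := mul_le_mul_of_nonneg_right h4 h8
    linarith
  refine h3.trans ?_
  rw [← Finset.mul_sum]
  have h4 := nu_le_Sq (m := j) hq k (a : ℤ)
  unfold nu A at h4
  have h5 : (0 : ℝ) ≤ 3 ^ j * (4 / 3 : ℝ) ^ k := by positivity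
  have := mul_le_mul_of_nonneg_left h4 h5
  refine this.trans (le_of_eq ?_)
  ring

end Pool.Agent.LqFlat
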