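import Pool.Agent.LqFlat.Final2

open Finset Filter

namespace Pool.Agent.LqFlat

/-- no rate below `q - 1` -/
theorem decay {q : ℕ} (hq : 2 ≤ q) {t : ℝ} (ht : t < q - 1) :
    ∃ m : ℕ, 1 ≤ m ∧ hh q m < E (-(t * m)) := by
  by_contra hcon
  push Not at hcon
  have hq1 : 1 ≤ q := by omega
  have hq0 : (0 : ℝ) < q := by exact_mod_cast (by omega : 0 < q)
  obtain ⟨τ₀, h0, h1, hlow, hup⟩ := rate hq ht hcon
  obtain ⟨D, hD, ε, hε, hε1, hfl⟩ := flat_use hq h0 h1 hlow hup
  set e₀ : ℝ := 1 - 1 / q - τ₀ with he₀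
  have he0 : 0 < e₀ := by rw [he₀]; linarith
  have hqinv : (0 : ℝ) < 1 / q := by positivity
  have he1 : e₀ ≤ 1 := by rw [he₀]; linarith
  have hτ1 : τ₀ ≤ 1 := by linarith
  have hD0 : (1 : ℝ) ≤ D := by exact_mod_cast hD
  -- `δ₂`
  set δ₂ : ℝ := ε / (4 * 672 * D) with hδ₂
  have hδ₂0 : 0 < δ₂ := by positivity
  have hδD : δ₂ * (672 * D) = ε / 4 := by rw [hδ₂]; field_simp
  have hup2 := hup δ₂ hδ₂0
  have htn : Tendsto (fun g : ℕ => 32 * D * g) atTop atTop :=
    tendsto_id.const_mul_atTop' (by positivity)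
  have htm : Tendsto (fun g : ℕ => D * (640 * g)) atTop atTop :=
    (tendsto_id.const_mul_atTop' (by positivity)).const_mul_atTop' (by positivity)
  set C : ℝ := (640 * D + 1) * (5120 * D + 2) + (640 * D + 1) + 1 with hC
  obtain ⟨g, hg, hun, hum, hsm, hg1⟩ := (hfl.and ((htn.eventually hup2).and
    ((htm.eventually hup2).and ((ev_small (lam := 3 / 4 * ε) (by positivity) C 2).and
      (eventually_ge_atTop 1))))).exists
  set n : ℕ := 32 * D * g with hn
  set m : ℕ := D * (640 * g) with hm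
  have hnR : (n : ℝ) = 32 * D * g := by rw [hn]; push_cast; ring
  have hmR : (m : ℝ) = 640 * D * g := by rw [hm]; push_cast; ring
  have hβ : 20 * n = m := by rw [hn, hm]; ring
  clear_value n m
  have hgR : (1 : ℝ) ≤ g := by exact_mod_cast hg1
  have hω : E (-((1 - 1 / q) * n)) ^ q = 3 ^ n * ((1 / 3 : ℝ) ^ n) ^ q := by
    rw [← E_neg_nat, ← E_nat, E_pow, E_pow, ← E_add]
    congr 1
    field_simp
    ring
  have hkey := key_ineq (q := q) (n := n) (m := m) (β := 20)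
    (γ := ((4 * m : ℕ) + 1) * (2 * E (-(ε * g)))) (ω := E (-((1 - 1 / q) * n))) hq1
    (by rw [hβ]; exact Nat.pow_le_pow_left (by norm_num) m) (E_pos _).le hω
    (mul_nonneg (by positivity) (mul_nonneg (by norm_num) (E_pos _).le)) hg
  have hlownm := hlow (n + m)
  -- rewrite everything in terms of `P`, `Q`
  set P := E (-(τ₀ * n)) with hP
  set Q := E (-(τ₀ * m)) with hQ
  have hP0 : 0 < P := E_pos _
  have hQ0 : 0 < Q := E_pos _
  have hPQ : (3 : ℝ) ^ (-(τ₀ * ((n + m : ℕ) : ℝ))) = P * Q := by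
    rw [hP, hQ, ← E_add]
    unfold E
    congr 1; push_cast; ring
  rw [hPQ] at hlownm
  have hSm : Sq q m ≤ Q * E (δ₂ * m) := by
    refine hum.trans (le_of_eq ?_)
    rw [hQ, ← E_add]
    unfold E
    congr 1; ring
  have hSn : Sq q n ≤ P * E (δ₂ * n) := by
    refine hun.trans (le_of_eq ?_)
    rw [hP, ← E_add]
    unfold E
    congr 1; ring
  have hωP : E (-((1 - 1 / q) * n)) = P * E (-(e₀ * n)) := by
    rw [hP, ← E_add]; congr 1; rw [he₀]; ring
  have htail : (7 / 3 : ℝ) ^ n * (6 / 7) ^ (20 * n) ≤ P * E (-n) := by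
    have e1 : E (-(n : ℝ)) * E (-(n : ℝ)) ≤ P * E (-n) := by
      apply mul_le_mul_of_nonneg_right _ (E_pos _).le
      rw [hP]
      apply E_le
      have : τ₀ * n ≤ 1 * n := mul_le_mul_of_nonneg_right hτ1 (Nat.cast_nonneg _)
      linarith
    refine le_trans ?_ e1
    rw [E_neg_nat, ← mul_pow, pow_mul, ← mul_pow]
    apply pow_le_pow_left₀ (by positivity)
    norm_num
  have hγ0 : 0 ≤ ((4 * m : ℕ) + 1) * (2 * E (-(ε * g))) :=
    mul_nonneg (by positivity) (mul_nonneg (by norm_num) (E_pos _).le)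
  have hSq0 : 0 ≤ Sq q m := Sq_nonneg hq1
  have hSqn0 : 0 ≤ Sq q n := Sq_nonneg hq1
  have hbig : ((20 : ℕ) * n + 1) * (((4 * m : ℕ) + 1) * (2 * E (-(ε * g))) * Sq q n
        + E (-((1 - 1 / q) * n))) + (7 / 3 : ℝ) ^ n * (6 / 7) ^ (20 * n)
      ≤ P * ((20 * n + 1) * ((4 * m + 1) * (2 * E (-(ε * g))) * E (δ₂ * n) + E (-(e₀ * n)))
        + E (-n)) := by
    have h2 := mul_le_mul_of_nonneg_left hSn hγ0
    have h3 : ((4 * m : ℕ) + 1) * (2 * E (-(ε * g))) * Sq q n + E (-((1 - 1 / q) * n))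
        ≤ P * (((4 * m : ℕ) + 1) * (2 * E (-(ε * g))) * E (δ₂ * n) + E (-(e₀ * n))) := by
      rw [hωP]
      linarith
    have h4 := mul_le_mul_of_nonneg_left h3 (show (0 : ℝ) ≤ (20 : ℕ) * n + 1 by positivity)
    refine (add_le_add h4 htail).trans (le_of_eq ?_)
    push_cast
    ring
  set X := (20 * n + 1) * ((4 * m + 1) * (2 * E (-(ε * g))) * E (δ₂ * n) + E (-(e₀ * n)))
        + E (-n) with hX
  have hX0 : 0 ≤ X := by
    rw [hX]
    have a1 := (E_pos (-(ε * g))).le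
    have a2 := (E_pos (δ₂ * n)).le
    have a3 := (E_pos (-(e₀ * n))).le
    have a4 := (E_pos (-(n : ℝ))).le
    positivity
  have hchain : P * Q ≤ Q * E (δ₂ * m) * (P * X) := by
    refine hlownm.trans (hkey.trans ?_)
    refine (mul_le_mul_of_nonneg_left hbig hSq0).trans ?_
    exact mul_le_mul_of_nonneg_right hSm (mul_nonneg hP0.le hX0)
  have hchain' : (P * Q) * 1 ≤ (P * Q) * (E (δ₂ * m) * X) := by
    rw [mul_one]
    refine hchain.trans (le_of_eq ?_)
    ring
  have hone : 1 ≤ E (δ₂ * m) * X := le_of_mul_le_mul_left hchain' (mul_pos hP0 hQ0)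
  -- all terms are small
  set y := E (-(3 / 4 * ε * g)) with hy
  have hy0 : 0 < y := E_pos _
  have hεg : 0 ≤ ε * g := by positivity
  have hδm : δ₂ * m + δ₂ * n = ε / 4 * g := by
    rw [hmR, hnR]
    linear_combination (g : ℝ) * hδD
  have hδm' : δ₂ * m ≤ ε / 4 * g := by
    have : 0 ≤ δ₂ * n := by positivity
    linarith
  have s1 : E (δ₂ * m) * (E (-(ε * g)) * E (δ₂ * n)) = y := by
    rw [← E_add, ← E_add, hy]
    congr 1
    linear_combination hδm
  have hεD : ε * g ≤ D * e₀ * g := by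
    have := mul_le_mul_of_nonneg_right hε1 (show (0 : ℝ) ≤ g by positivity)
    refine this.trans (le_of_eq ?_); ring
  have s2 : E (δ₂ * m) * E (-(e₀ * n)) ≤ y := by
    rw [← E_add, hy]
    apply E_le
    rw [hnR]
    have h2 : e₀ * (32 * D * g) = 32 * (D * e₀ * g) := by ring
    rw [h2]
    linarith
  have s3 : E (δ₂ * m) * E (-(n : ℝ)) ≤ y := by
    rw [← E_add, hy]
    apply E_le
    have h3 : D * e₀ * g ≤ D * g := by
      have h4 : (0 : ℝ) ≤ D * g := by positivity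
      have := mul_le_mul_of_nonneg_right he1 h4
      calc D * e₀ * g = e₀ * (D * g) := by ring
        _ ≤ 1 * (D * g) := this
        _ = D * g := one_mul _
    have h5 : (n : ℝ) = 32 * (D * g) := by rw [hnR]; ring
    have h6 : (0 : ℝ) ≤ D * g := by positivity
    rw [h5]
    linarith
  have hfinal : E (δ₂ * m) * X ≤ ((20 * n + 1) * ((4 * m + 1) * 2) + (20 * n + 1) + 1) * y := by
    have e1 : E (δ₂ * m) * X = (20 * n + 1) * ((4 * m + 1) * 2) *
        (E (δ₂ * m) * (E (-(ε * g)) * E (δ₂ * n))) + (20 * n + 1) * (E (δ₂ * m) * E (-(e₀ * n)))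
        + E (δ₂ * m) * E (-(n : ℝ)) := by
      rw [hX]; ring
    rw [e1, s1]
    have h2 := mul_le_mul_of_nonneg_left s2 (show (0 : ℝ) ≤ 20 * n + 1 by positivity)
    linarith
  have hpoly : (20 * (n : ℝ) + 1) * ((4 * m + 1) * 2) + (20 * n + 1) + 1 ≤ C * (g : ℝ) ^ 2 := by
    have a1 : 20 * (n : ℝ) + 1 ≤ (640 * D + 1) * g := by rw [hnR]; linarith
    have a2 : (4 * (m : ℝ) + 1) * 2 ≤ (5120 * D + 2) * g := by rw [hmR]; linarith
    have a3 : (20 * (n : ℝ) + 1) * ((4 * m + 1) * 2) ≤ ((640 * D + 1) * g) * ((5120 * D + 2) * g) :=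
      mul_le_mul a1 a2 (by positivity) (by positivity)
    have a4 : (g : ℝ) ≤ g ^ 2 := le_self_pow₀ hgR (by norm_num)
    have a5 : (1 : ℝ) ≤ g ^ 2 := one_le_pow₀ hgR
    have a6 : (640 * (D : ℝ) + 1) * g ≤ (640 * D + 1) * g ^ 2 :=
      mul_le_mul_of_nonneg_left a4 (by positivity)
    rw [hC]
    linarith
  have hlast := mul_le_mul_of_nonneg_right hpoly hy0.le
  have : C * (g : ℝ) ^ 2 * y < 1 := hsm
  linarith

/-- exponential decay of the `ℓ^q` sums at every rate below `q - 1` -/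
theorem decay_all {q : ℕ} (hq : 2 ≤ q) {t : ℝ} (ht0 : 0 ≤ t) (ht : t < q - 1) :
    ∃ C : ℝ, 0 < C ∧ ∀ n : ℕ, hh q n ≤ C * E (-(t * n)) := by
  have hq1 : 1 ≤ q := by omega
  obtain ⟨m, hm, hlt⟩ := decay hq ht
  refine ⟨E (t * m), E_pos _, ?_⟩
  have hpow : ∀ k : ℕ, hh q (m * k) ≤ E (-(t * m)) ^ k := by
    intro k
    induction k with
    | zero =>
      rw [mul_zero, pow_zero]
      exact hh_le_one hq1
    | succ k ih =>
      have e : m * (k + 1) = m * k + m := by ring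
      rw [e, pow_succ]
      exact (hh_mul hq1).trans (mul_le_mul ih hlt.le (hh_nonneg hq1) (pow_nonneg (E_pos _).le _))
  intro n
  have h1 : n = m * (n / m) + n % m := (Nat.div_add_mod n m).symm
  have h2 : hh q n ≤ E (-(t * m)) ^ (n / m) := by
    have h3 := (hh_mul (q := q) (n := m * (n / m)) (m := n % m) hq1)
    rw [← h1] at h3
    refine h3.trans ?_
    have := mul_le_mul (hpow (n / m)) (hh_le_one (m := n % m) hq1) (hh_nonneg hq1)
      (pow_nonneg (E_pos _).le _)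
    rwa [mul_one] at this
  refine h2.trans ?_
  rw [E_pow, ← E_add]
  apply E_le
  have h4 : (n : ℝ) ≤ m * ((n / m : ℕ) : ℝ) + m := by
    have : n ≤ m * (n / m) + m := by
      have := Nat.mod_lt n (by omega : 0 < m)
      omega
    exact_mod_cast this
  have := mul_le_mul_of_nonneg_left h4 ht0
  linarith

end Pool.Agent.LqFlat
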