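import Pool.Agent.LqFlat.Flatten

open Finset Filter

namespace Pool.Agent.LqFlat

lemma hh_zero {q : ℕ} (hq : 1 ≤ q) : 1 ≤ hh q 0 := by
  have h := le_hh (m := 0) hq 0
  simpa [nu_zero] using h

lemma one_le_Sq_zero {q : ℕ} (hq : 1 ≤ q) : 1 ≤ Sq q 0 := by
  by_contra hcon
  push Not at hcon
  have h1 := pow_lt_one₀ (Sq_nonneg (m := 0) hq) hcon (n := q) (by omega)
  rw [Sq_pow hq] at h1
  linarith [hh_zero hq]

lemma Sq_mul {q n m : ℕ} (hq : 1 ≤ q) : Sq q (n + m) ≤ Sq q n * Sq q m := by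
  have h := hh_mul (n := n) (m := m) hq
  rw [← Sq_pow hq, ← Sq_pow (m := n) hq, ← Sq_pow (m := m) hq, ← mul_pow] at h
  exact le_of_pow_le_pow_left₀ (by omega) (mul_nonneg (Sq_nonneg hq) (Sq_nonneg hq)) h

/-- existence of the rate -/
lemma rate {q : ℕ} (hq : 2 ≤ q) {t : ℝ} (ht : t < q - 1)
    (h : ∀ m : ℕ, 1 ≤ m → (3 : ℝ) ^ (-(t * m)) ≤ hh q m) :
    ∃ τ₀ : ℝ, 0 ≤ τ₀ ∧ τ₀ < 1 - 1 / q ∧ (∀ m : ℕ, (3 : ℝ) ^ (-(τ₀ * m)) ≤ Sq q m) ∧
      ∀ δ : ℝ, 0 < δ → ∀ᶠ m : ℕ in atTop, Sq q m ≤ (3 : ℝ) ^ (-((τ₀ - δ) * m)) := by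
  have hq1 : 1 ≤ q := by omega
  have hq0 : (0 : ℝ) < q := by exact_mod_cast (by omega : 0 < q)
  have h3 : (1 : ℝ) < 3 := by norm_num
  have ht0 : 0 ≤ t := by
    by_contra hcon
    push Not at hcon
    have h1 := (h 1 le_rfl).trans (hh_le_one hq1)
    have h2 := Real.one_lt_rpow h3 (z := -(t * (1 : ℕ))) (by push_cast; linarith)
    linarith
  have hpos : ∀ m : ℕ, 0 < Sq q m := by
    intro m
    rcases Nat.eq_zero_or_pos m with rfl | hm
    · linarith [one_le_Sq_zero hq1]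
    · apply lt_of_le_of_ne (Sq_nonneg hq1)
      intro h0
      have h1 := h m hm
      rw [← Sq_pow hq1, ← h0, zero_pow (by omega)] at h1
      have := Real.rpow_pos_of_pos (show (0 : ℝ) < 3 by norm_num) (-(t * m))
      linarith
  set u : ℕ → ℝ := fun m => Real.logb 3 (Sq q m) with hu
  have hsub : Subadditive u := by
    intro m n
    simp only [hu]
    rw [← Real.logb_mul (hpos m).ne' (hpos n).ne']
    exact Real.logb_le_logb_of_le h3 (hpos _) (Sq_mul hq1)
  have hSu : ∀ m, Sq q m = (3 : ℝ) ^ (u m) := fun m =>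
    (Real.rpow_logb (by norm_num) (by norm_num) (hpos m)).symm
  have hu0 : ∀ m, u m ≤ 0 := by
    intro m
    simp only [hu]
    exact Real.logb_nonpos h3 (Sq_nonneg hq1) (Sq_le_one hq1)
  have hlow : ∀ m : ℕ, -(t / q) * m ≤ u m := by
    intro m
    rcases Nat.eq_zero_or_pos m with rfl | hm
    · have := Real.logb_nonneg h3 (one_le_Sq_zero hq1)
      simpa [hu] using this
    · have h1 := h m hm
      rw [← Sq_pow hq1, hSu, ← Real.rpow_natCast, ← Real.rpow_mul (by norm_num)] at h1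
      have h2 := (Real.rpow_le_rpow_left_iff h3).1 h1
      have h4 : -(t / q) * m = -(t * m) / q := by ring
      rw [h4, div_le_iff₀ hq0]
      exact h2
  have hlow' : ∀ m : ℕ, -(t / q) ≤ u m / m := by
    intro m
    rcases Nat.eq_zero_or_pos m with rfl | hm
    · simp only [Nat.cast_zero, div_zero]
      have : 0 ≤ t / q := by positivity
      linarith
    · rw [le_div_iff₀ (by exact_mod_cast hm)]
      exact hlow m
  have hbdd : BddBelow (Set.range fun n => u n / n) := ⟨-(t / q), by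
    rintro _ ⟨m, rfl⟩; exact hlow' m⟩
  have hlim := hsub.tendsto_lim hbdd
  refine ⟨-hsub.lim, ?_, ?_, ?_, ?_⟩
  · have h1 := hsub.lim_le_div hbdd (n := 1) one_ne_zero
    have h2 := hu0 1
    simp only [Nat.cast_one, div_one] at h1
    linarith
  · have h1 : -(t / q) ≤ hsub.lim := ge_of_tendsto' hlim hlow'
    have h2 : t / q < 1 - 1 / q := by
      have e : (1 : ℝ) - 1 / q = (q - 1) / q := by field_simp
      rw [e]
      exact div_lt_div_of_pos_right ht hq0
    linarith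
  · intro m
    rcases Nat.eq_zero_or_pos m with rfl | hm
    · simpa using one_le_Sq_zero hq1
    · have h1 := hsub.lim_le_div hbdd (n := m) (by omega)
      rw [le_div_iff₀ (by exact_mod_cast hm)] at h1
      rw [hSu]
      apply Real.rpow_le_rpow_of_exponent_le h3.le
      linarith
  · intro δ hδ
    have h1 := hlim.eventually (gt_mem_nhds (show hsub.lim < hsub.lim + δ by linarith))
    filter_upwards [h1, eventually_ge_atTop 1] with m hm hm1
    have hm0 : (0 : ℝ) < m := by exact_mod_cast (by omega : 0 < m)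
    have h2 : u m < (hsub.lim + δ) * m := by
      rwa [div_lt_iff₀ hm0] at hm
    rw [hSu]
    apply Real.rpow_le_rpow_of_exponent_le h3.le
    linarith

lemma sy_per {M : ℕ} {τ : ℤ → ℝ} (hτ : Per M τ) : Per M (sy M τ) := T_per hτ

lemma sy_mass {M : ℕ} [NeZero M] {τ : ℤ → ℝ} (hτ : Per M τ) (hm : mass M τ = 1) :
    mass M (sy M τ) = 1 := by
  unfold mass sy T
  rw [Finset.sum_comm]
  have h1 : ∀ c : ℤ, ∑ y ∈ range M, rf τ c * τ (y - c) = rf τ c := by
    intro c
    rw [← Finset.mul_sum]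
    have h3 := sum_shift hτ (-c)
    simp only [← sub_eq_add_neg] at h3
    rw [h3]
    unfold mass at hm
    rw [hm, mul_one]
  simp only [h1]
  have h2 := sum_refl hτ 0
  simp only [zero_sub] at h2
  unfold rf
  rw [h2]
  exact hm

lemma sy_le {M : ℕ} [NeZero M] {τ : ℤ → ℝ} (hτ0 : ∀ x, 0 ≤ τ x) (hτ : Per M τ)
    (hm : mass M τ = 1) {a : ℝ} (ha : ∀ x, τ x ≤ a) (x : ℤ) : sy M τ x ≤ a := by
  unfold sy T
  have h1 : ∑ c ∈ range M, rf τ c * τ (x - c) ≤ ∑ c ∈ range M, rf τ c * a :=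
    Finset.sum_le_sum fun c _ => mul_le_mul_of_nonneg_left (ha _) (hτ0 _)
  refine h1.trans ?_
  rw [← Finset.sum_mul]
  have h2 := sum_refl hτ 0
  simp only [zero_sub] at h2
  unfold rf
  rw [h2]
  unfold mass at hm
  rw [hm, one_mul]

end Pool.Agent.LqFlat
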