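import Pool.Agent.LqFlat.Final

open Finset Filter

namespace Pool.Agent.LqFlat

/-- powers of three -/
noncomputable def E (x : ℝ) : ℝ := (3 : ℝ) ^ x

lemma E_pos (x : ℝ) : 0 < E x := Real.rpow_pos_of_pos (by norm_num) x

lemma E_add (x y : ℝ) : E (x + y) = E x * E y := Real.rpow_add (by norm_num) x y

lemma E_pow (x : ℝ) (n : ℕ) : E x ^ n = E (x * n) := by
  unfold E
  rw [Real.rpow_mul (by norm_num), Real.rpow_natCast]

lemma E_nat (n : ℕ) : E n = 3 ^ n := Real.rpow_natCast 3 n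

lemma E_neg_nat (n : ℕ) : E (-n) = (1 / 3) ^ n := by
  unfold E
  rw [Real.rpow_neg (by norm_num), Real.rpow_natCast, one_div, inv_pow]

lemma E_le {x y : ℝ} (h : x ≤ y) : E x ≤ E y := Real.rpow_le_rpow_of_exponent_le (by norm_num) h

lemma E_zero : E 0 = 1 := Real.rpow_zero 3

lemma E_le_one {x : ℝ} (h : x ≤ 0) : E x ≤ 1 := by rw [← E_zero]; exact E_le h

lemma E_sqrt (x : ℝ) : √(E x) = E (x / 2) := by
  rw [Real.sqrt_eq_iff_mul_self_eq (E_pos _).le (E_pos _).le, ← E_add]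
  congr 1; ring

/-- geometric decay beats constants -/
lemma ev_small {lam : ℝ} (hlam : 0 < lam) (C : ℝ) (k : ℕ) :
    ∀ᶠ g : ℕ in atTop, C * (g : ℝ) ^ k * E (-(lam * g)) < 1 := by
  have h1 : |E (-lam)| < 1 := by
    rw [abs_of_pos (E_pos _)]
    unfold E
    exact Real.rpow_lt_one_of_one_lt_of_neg (by norm_num) (by linarith)
  have h2 := (tendsto_pow_const_mul_const_pow_of_abs_lt_one k h1).const_mul C
  rw [mul_zero] at h2
  filter_upwards [h2.eventually (gt_mem_nhds one_pos)] with g hg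
  rw [E_pow] at hg
  have e : -(lam * (g : ℝ)) = -lam * g := by ring
  rw [e, mul_assoc]
  exact hg

/-- parameters for the flattening -/
lemma flat_use {q : ℕ} (hq : 2 ≤ q) {τ₀ : ℝ} (h0 : 0 ≤ τ₀) (h1 : τ₀ < 1 - 1 / q)
    (hlow : ∀ m : ℕ, E (-(τ₀ * m)) ≤ Sq q m)
    (hup : ∀ δ : ℝ, 0 < δ → ∀ᶠ m : ℕ in atTop, Sq q m ≤ E (-((τ₀ - δ) * m))) :
    ∃ D : ℕ, 1 ≤ D ∧ ∃ ε : ℝ, 0 < ε ∧ ε ≤ (1 - 1 / q - τ₀) * D ∧ ∀ᶠ g : ℕ in atTop,
      ∀ B : ℕ, ∀ τ : ℤ → ℝ, (∀ x, 0 ≤ τ x) → Per (3 ^ (D * (640 * g))) τ →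
      mass (3 ^ (D * (640 * g))) τ = 1 → (∀ x, τ x ≤ (3 / 4 : ℝ) ^ (32 * D * g)) →
      ∑ y ∈ range (3 ^ (D * (640 * g))), (T (3 ^ (D * (640 * g))) τ (nu (D * (640 * g)) B) y) ^ q
        ≤ ((((4 * (D * (640 * g)) : ℕ) + 1) * (2 * E (-(ε * g)))) * Sq q (D * (640 * g))) ^ q := by
  have hq1 : 1 ≤ q := by omega
  have hq0 : (0 : ℝ) < q := by exact_mod_cast (by omega : 0 < q)
  set e₀ : ℝ := 1 - 1 / q - τ₀ with he₀
  have he0 : 0 < e₀ := by rw [he₀]; linarith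
  have hqinv : (0 : ℝ) < 1 / q := by positivity
  have he1 : e₀ ≤ 1 := by rw [he₀]; linarith
  have heτ : e₀ + τ₀ = 1 - 1 / q := by rw [he₀]; ring
  have hτ1 : τ₀ ≤ 1 := by linarith
  -- choice of `D`
  have hδ : 0 < e₀ / 5120 := by positivity
  obtain ⟨D, hD1, hD2, hD3⟩ := ((hup _ hδ).and ((eventually_ge_atTop 640).and
    (eventually_ge_atTop ⌈2 / e₀⌉₊))).exists
  have hDpos : (640 : ℝ) ≤ D := by exact_mod_cast hD2
  have hDe : 2 / e₀ ≤ D := (Nat.le_ceil _).trans (by exact_mod_cast hD3)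
  have hDe' : 2 ≤ e₀ * D := by
    rw [div_le_iff₀ he0] at hDe
    linarith
  -- choice of `k`, `K`
  set κ : ℝ := E (-(3 * D)) with hκ
  have hκ0 : 0 < κ := E_pos _
  obtain ⟨k, hk⟩ := exists_pow_lt_of_lt_one (show 0 < κ ^ 2 by positivity)
    (show 1 - (((3 : ℝ) ^ D) ^ 5)⁻¹ < 1 by
      have : (0 : ℝ) < (((3 : ℝ) ^ D) ^ 5)⁻¹ := by positivity
      linarith)
  set j : ℕ := 320 * k with hj
  set K : ℕ := 2 ^ j with hK
  have hKj : j < K := Nat.lt_two_pow_self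
  have hK0 : 0 < K := by positivity
  have hK0' : (1 : ℝ) ≤ K := by exact_mod_cast hK0
  refine ⟨D, by omega, e₀ * D / (8 * (K * q)), by positivity, ?_, ?_⟩
  · rw [div_le_iff₀ (by positivity)]
    have h2 : (1 : ℝ) ≤ 8 * (K * q) := by
      have h3 : (1 : ℝ) ≤ q := by exact_mod_cast hq1
      have := one_le_mul_of_one_le_of_one_le hK0' h3
      linarith
    have h4 : 0 ≤ e₀ * D := by positivity
    exact le_mul_of_one_le_right h4 h2
  set ε : ℝ := e₀ * D / (8 * (K * q)) with hε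
  have hε0 : 0 < ε := by positivity
  have hεK : ε * (K * q) = e₀ * D / 8 := by
    rw [hε]; field_simp
  have hεD : ε ≤ D := by
    rw [hε, div_le_iff₀ (by positivity)]
    have h3 : (1 : ℝ) ≤ q := by exact_mod_cast hq1
    have h2 : (1 : ℝ) ≤ 8 * (K * q) := by
      have := one_le_mul_of_one_le_of_one_le hK0' h3
      linarith
    have h5 : (0 : ℝ) ≤ D := Nat.cast_nonneg _
    calc e₀ * D ≤ 1 * D := mul_le_mul_of_nonneg_right he1 h5
      _ = D * 1 := by ring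
      _ ≤ D * (8 * (K * q)) := mul_le_mul_of_nonneg_left h2 h5
  filter_upwards [ev_small (lam := e₀ * D / 4) (by positivity) (1 + K) 0,
    eventually_ge_atTop 1] with g hg hg1 B τ hτ0 hτp hτm hτa
  rw [pow_zero, mul_one] at hg
  set L : ℕ := 640 * g with hL
  set m : ℕ := D * L with hm
  clear_value m
  have hne : NeZero (3 ^ m) := ⟨by positivity⟩
  have hMM : 3 ^ m = (3 ^ D) ^ L := by rw [hm, pow_mul]
  set S := Sq q m with hS
  have hSlow : E (-(τ₀ * m)) ≤ S := hlow m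
  have hSpos : 0 < S := lt_of_lt_of_le (E_pos _) hSlow
  set ρ := E (-(ε * g)) with hρ
  have hρ0 : 0 < ρ := E_pos _
  have hg0 : (0 : ℝ) ≤ g := Nat.cast_nonneg _
  have hρ1 : ρ ≤ 1 := E_le_one (by
    have : 0 ≤ ε * g := by positivity
    linarith)
  have hmR : (m : ℝ) = 640 * D * g := by rw [hm, hL]; push_cast; ring
  have hF0 := nu_nonneg m B
  have hFp := nu_per m B
  have hFq : ∑ y ∈ range (3 ^ m), nu m B y ^ q ≤ S ^ q := by
    rw [hS, Sq_pow hq1]; exact le_hh hq1 B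
  by_contra hcon
  push Not at hcon
  have hcon' : (((4 * m : ℕ) + 1) * (2 * ρ * S)) ^ q
      < ∑ y ∈ range (3 ^ m), (T (3 ^ m) τ (nu m B) y) ^ q := by
    refine lt_of_eq_of_lt ?_ hcon
    congr 1; ring
  have hJ : ((3 ^ m : ℕ) : ℝ) * ((1 / 2 : ℝ) ^ (4 * m)) ^ q ≤ (2 * ρ * S) ^ q := by
    have h2 : ((3 ^ m : ℕ) : ℝ) ≤ ((3 : ℝ) ^ m) ^ q := by
      push_cast
      exact le_self_pow₀ (one_le_pow₀ (by norm_num)) (by omega)
    have h3 : ((3 ^ m : ℕ) : ℝ) * ((1 / 2 : ℝ) ^ (4 * m)) ^ q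
        ≤ ((3 : ℝ) ^ m) ^ q * ((1 / 2 : ℝ) ^ (4 * m)) ^ q :=
      mul_le_mul_of_nonneg_right h2 (by positivity)
    refine h3.trans ?_
    rw [← mul_pow]
    apply pow_le_pow_left₀ (by positivity)
    have h4 : (3 : ℝ) ^ m * (1 / 2) ^ (4 * m) = (3 / 16) ^ m := by
      rw [pow_mul, ← mul_pow]; norm_num
    rw [h4]
    have h6 : E (-(D * g)) ≤ ρ := E_le (by
      have := mul_le_mul_of_nonneg_right hεD hg0
      linarith)
    have h7 : E (-(m : ℝ)) ≤ S := (E_le (by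
      have : τ₀ * m ≤ 1 * m := mul_le_mul_of_nonneg_right hτ1 (Nat.cast_nonneg m)
      linarith)).trans hSlow
    have hm640 : (640 : ℝ) * (D * g) = m := by rw [hmR]; ring
    have h8 : (3 / 16 : ℝ) ^ m ≤ E (-(3 / 2 * m)) := by
      have e1 : E (-(3 / 2 * m)) = (E (-(3 / 2))) ^ m := by
        rw [E_pow]; congr 1; ring
      rw [e1]
      apply pow_le_pow_left₀ (by norm_num)
      have h9 : E (-(3 / 2)) * E (-(3 / 2)) = 1 / 27 := by
        rw [← E_add]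
        have : (-(3 / 2) + -(3 / 2) : ℝ) = -((3 : ℕ) : ℝ) := by norm_num
        rw [this, E_neg_nat]; norm_num
      have := E_pos (-(3 / 2))
      nlinarith
    refine h8.trans ?_
    have h10 : E (-(3 / 2 * m)) ≤ E (-(D * g)) * E (-(m : ℝ)) := by
      rw [← E_add]
      apply E_le
      have : (0 : ℝ) ≤ D * g := by positivity
      linarith
    refine h10.trans ?_
    have h11 : E (-(D * g)) * E (-(m : ℝ)) ≤ ρ * S :=
      mul_le_mul h6 h7 (E_pos _).le hρ0.le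
    have h12 : 0 ≤ ρ * S := by positivity
    linarith
  have hlower := flat (M := 3 ^ m) (q := q) (J := 4 * m) (j := j) hq hτ0 hτp hτm hF0
    (nu_le_one m B) hFp hSpos hρ0.le hρ1 hFq (by exact_mod_cast hJ) (by exact_mod_cast hcon')
  have hχ : E (-((1 - 1 / q) * D)) ^ q = (3 : ℝ) ^ D * (((3 : ℝ) ^ D)⁻¹) ^ q := by
    have e1 : ((3 : ℝ) ^ D)⁻¹ = E (-D) := by rw [E_neg_nat, one_div, inv_pow]
    rw [e1, ← E_nat, E_pow, E_pow, ← E_add]
    congr 1
    field_simp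
    ring
  have hkey : E (-((1 - 1 / q) * D)) * Sq q D + κ ≤ E (-(e₀ * D / 2)) * Sq q D ^ 2 := by
    have hHlow : E (-(τ₀ * D)) ≤ Sq q D := hlow D
    have hH0 : 0 ≤ Sq q D := Sq_nonneg hq1
    have h2 : E (-((1 - 1 / q) * D)) ≤ E (-(e₀ * D)) * Sq q D := by
      refine le_trans (le_of_eq ?_) (mul_le_mul_of_nonneg_left hHlow (E_pos _).le)
      rw [← E_add]; congr 1
      rw [← heτ]; ring
    have h3 : E (-((1 - 1 / q) * D)) * Sq q D ≤ E (-(e₀ * D)) * Sq q D ^ 2 := by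
      have := mul_le_mul_of_nonneg_right h2 hH0
      refine this.trans (le_of_eq ?_); ring
    have h4 : κ ≤ E (-(e₀ * D)) * Sq q D ^ 2 := by
      have h5 : E (-(τ₀ * D)) ^ 2 ≤ Sq q D ^ 2 := pow_le_pow_left₀ (E_pos _).le hHlow 2
      refine le_trans ?_ (mul_le_mul_of_nonneg_left h5 (E_pos _).le)
      rw [E_pow, ← E_add, hκ]
      apply E_le
      push_cast
      have h6 : e₀ * D ≤ 1 * D := mul_le_mul_of_nonneg_right he1 (Nat.cast_nonneg _)
      have h7 : τ₀ * D ≤ 1 * D := mul_le_mul_of_nonneg_right hτ1 (Nat.cast_nonneg _)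
      linarith
    have h5 : 2 * E (-(e₀ * D)) ≤ E (-(e₀ * D / 2)) := by
      have h6 : E (-(e₀ * D / 2)) = E (-(e₀ * D)) * E (e₀ * D / 2) := by
        rw [← E_add]; congr 1; ring
      rw [h6, mul_comm]
      apply mul_le_mul_of_nonneg_left _ (E_pos _).le
      have h7 : E 1 ≤ E (e₀ * D / 2) := E_le (by linarith)
      have h8 : E 1 = 3 := by unfold E; exact Real.rpow_one 3
      linarith
    have h6 := mul_le_mul_of_nonneg_right h5 (sq_nonneg (Sq q D))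
    linarith
  have hGB : K * (2 * g) + k * L ≤ K * (4 * g) := by
    have h2 : k * L = 2 * (j * g) := by rw [hL, hj]; ring
    have h3 : j * g ≤ K * g := Nat.mul_le_mul_right _ hKj.le
    have h4 : K * (2 * g) = 2 * (K * g) := by ring
    have h5 : K * (4 * g) = 4 * (K * g) := by ring
    rw [h2, h4, h5]
    omega
  have hLoc : Loc D q (Sq q D) L (nu m B) 1 := by rw [hm]; exact nu_loc hq1 L
  have hθ1 : E (-(e₀ * D / 2)) ≤ 1 := E_le_one (by
      have : 0 ≤ e₀ * D / 2 := by positivity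
      linarith)
  have hupper := step4 (K := K) (D := D) (k := k) (q := q) (L := L) (G := g) (B := 4 * g) hq hK0
    (H := Sq q D) (χ := E (-((1 - 1 / q) * D))) (κ := κ) (θ := E (-(e₀ * D / 2)))
    (Sq_nonneg hq1) (E_pos _).le hκ0.le (E_pos _).le hθ1 hχ hk.le hkey
    (τ := sy (3 ^ m) τ) (μ := nu m B) (sy_nonneg hτ0) (by rw [← hMM]; exact sy_per hτp)
    (a := (3 / 4 : ℝ) ^ (32 * D * g)) (sy_le hτ0 hτp hτm hτa)
    (by rw [← hMM]; exact sy_mass hτp hτm) hF0 (by rw [← hMM]; exact hFp) hLoc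
    hGB (S := S) hSpos.le (by rw [← hMM]; exact hFq)
  rw [← hMM] at hupper
  have hcomb := hlower.trans hupper
  have hcomb' := le_of_pow_le_pow_left₀ (by omega) (add_nonneg (mul_nonneg
    (pow_nonneg (E_pos _).le _) (pow_nonneg (Sq_nonneg hq1) _))
    (mul_nonneg (by positivity) hSpos.le)) hcomb
  -- the three exponentials
  have t1 : E (-(e₀ * D / 2)) ^ g * Sq q D ^ L ≤ E (-(3 / 8 * (e₀ * D * g))) * S := by
    have h2 : Sq q D ^ L ≤ E (-((τ₀ - e₀ / 5120) * D)) ^ L := pow_le_pow_left₀ (Sq_nonneg hq1) hD1 L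
    have h3 : E (-(e₀ * D / 2)) ^ g * Sq q D ^ L
        ≤ E (-(e₀ * D / 2)) ^ g * E (-((τ₀ - e₀ / 5120) * D)) ^ L :=
      mul_le_mul_of_nonneg_left h2 (pow_nonneg (E_pos _).le _)
    refine h3.trans ?_
    rw [E_pow, E_pow, ← E_add]
    refine le_trans (le_of_eq ?_) (mul_le_mul_of_nonneg_left hSlow (E_pos _).le)
    rw [← E_add]
    congr 1
    rw [hmR, hL]
    push_cast
    ring
  have t2 : (K : ℝ) * (√((3 / 4 : ℝ) ^ (32 * D * g)) * √((3 : ℝ) ^ D) ^ (4 * g) * 2 ^ L)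
      ≤ K * E (-(3 / 8 * (e₀ * D * g))) := by
    apply mul_le_mul_of_nonneg_left _ (Nat.cast_nonneg _)
    have h2 : √((3 / 4 : ℝ) ^ (32 * D * g)) ≤ E (-(4 * (D * g))) := by
      have h3 : (3 / 4 : ℝ) ^ (32 * D * g) ≤ E (-(8 * (D * g))) := by
        have e1 : E (-(8 * (D * g))) = ((1 / 3 : ℝ) ^ 8) ^ (D * g) := by
          rw [← pow_mul, ← E_neg_nat]; congr 1; push_cast; ring
        have e2 : 32 * D * g = 32 * (D * g) := by ring
        rw [e1, e2, pow_mul]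
        apply pow_le_pow_left₀ (by positivity)
        norm_num
      refine (Real.sqrt_le_sqrt h3).trans (le_of_eq ?_)
      rw [E_sqrt]
      congr 1; ring
    have h3 : √((3 : ℝ) ^ D) ^ (4 * g) = E (2 * (D * g)) := by
      rw [← E_nat, E_sqrt, E_pow]
      congr 1; push_cast; ring
    have h4 : (2 : ℝ) ^ L ≤ E (D * g) := by
      have h5 : (2 : ℝ) ^ L ≤ 3 ^ L := pow_le_pow_left₀ (by norm_num) (by norm_num) L
      refine h5.trans ?_
      rw [← E_nat]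
      apply E_le
      rw [hL]
      push_cast
      exact mul_le_mul_of_nonneg_right hDpos hg0
    rw [h3]
    calc √((3 / 4 : ℝ) ^ (32 * D * g)) * E (2 * (D * g)) * 2 ^ L
        ≤ E (-(4 * (D * g))) * E (2 * (D * g)) * E (D * g) := by
          apply mul_le_mul _ h4 (by positivity) (mul_nonneg (E_pos _).le (E_pos _).le)
          exact mul_le_mul_of_nonneg_right h2 (E_pos _).le
      _ = E (-(D * g)) := by rw [← E_add, ← E_add]; congr 1; ring
      _ ≤ _ := by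
          apply E_le
          have h6 : (0 : ℝ) ≤ D * g := by positivity
          have h7 : e₀ * (D * g) ≤ 1 * (D * g) := mul_le_mul_of_nonneg_right he1 h6
          have h8 : 0 ≤ e₀ * (D * g) := by positivity
          have h9 : e₀ * D * g = e₀ * (D * g) := by ring
          rw [h9]
          linarith
  have t3 : ρ ^ (2 ^ j * q) = E (-(1 / 8 * (e₀ * D * g))) := by
    rw [hρ, E_pow]
    congr 1
    push_cast
    have : (2 : ℝ) ^ j = K := by rw [hK]; push_cast; rfl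
    rw [this]
    have h2 : ε * g * (K * q) = e₀ * D / 8 * g := by
      rw [← hεK]; ring
    linear_combination -h2
  rw [t3] at hcomb'
  have h2 : (K : ℝ) * (√((3 / 4 : ℝ) ^ (32 * D * g)) * √((3 : ℝ) ^ D) ^ (4 * g) * 2 ^ L) * S
      ≤ K * E (-(3 / 8 * (e₀ * D * g))) * S := mul_le_mul_of_nonneg_right t2 hSpos.le
  have h3 : E (-(1 / 8 * (e₀ * D * g))) * S ≤ (1 + K) * E (-(3 / 8 * (e₀ * D * g))) * S := by
    refine hcomb'.trans ((add_le_add t1 h2).trans (le_of_eq ?_))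
    ring
  have h4 := le_of_mul_le_mul_right h3 hSpos
  have h5 : E (-(3 / 8 * (e₀ * D * g))) = E (-(1 / 8 * (e₀ * D * g))) * E (-(e₀ * D / 4 * g)) := by
    rw [← E_add]; congr 1; ring
  rw [h5] at h4
  have h6 : E (-(1 / 8 * (e₀ * D * g))) * 1
      ≤ E (-(1 / 8 * (e₀ * D * g))) * ((1 + K) * E (-(e₀ * D / 4 * g))) := by
    rw [mul_one]
    refine h4.trans (le_of_eq ?_)
    ring
  have h7 := le_of_mul_le_mul_left h6 (E_pos _)
  linarith

end Pool.Agent.LqFlat
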