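import Pool.Agent.LqFlat.CLoc

open Finset

namespace Pool.Agent.LqFlat

/-- Young's inequality for one factor -/
lemma T_young {M q : ℕ} [NeZero M] (hq : 1 ≤ q) {τ F : ℤ → ℝ} (hτ : ∀ x, 0 ≤ τ x)
    (hF : ∀ x, 0 ≤ F x) (hp : Per M F) {S : ℝ} (hS : 0 ≤ S)
    (h : ∑ y ∈ range M, F y ^ q ≤ S ^ q) :
    ∑ y ∈ range M, (T M τ F y) ^ q ≤ (mass M τ * S) ^ q := by
  unfold T mass
  rw [Finset.sum_mul]
  apply mink hq
  · intro c _ y _
    exact mul_nonneg (hτ _) (hF _)
  · intro c _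
    exact mul_nonneg (hτ _) hS
  · intro c _
    simp only [mul_pow]
    rw [← Finset.mul_sum]
    apply mul_le_mul_of_nonneg_left _ (pow_nonneg (hτ _) q)
    have hpq : Per M fun x => F x ^ q := fun x => by simp only [hp x]
    have h3 := sum_shift hpq (-(c : ℤ))
    simp only [← sub_eq_add_neg] at h3
    rw [h3]; exact h

/-- transfer operator in the variable `z = 2 ^ b x` -/
noncomputable def gop (n b : ℕ) (F : ℤ → ℝ) (z : ℤ) : ℝ :=
  ∑ S ∈ W n b, if (3 : ℤ) ^ n ∣ z - S then F ((z - S) / 3 ^ n) else 0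

lemma op_gop (n b : ℕ) (F : ℤ → ℝ) (x : ℤ) : op n b F x = gop n b F (2 ^ b * x) := rfl

lemma gop_add (n b : ℕ) (F : ℤ → ℝ) (r y : ℤ) : gop n b F (r + 3 ^ n * y)
    = ∑ S ∈ W n b, if (3 : ℤ) ^ n ∣ r - S then F (y + (r - S) / 3 ^ n) else 0 := by
  unfold gop
  apply Finset.sum_congr rfl
  intro S _
  have e : r + 3 ^ n * y - S = (r - S) + 3 ^ n * y := by ring
  rw [e]
  by_cases hd : (3 : ℤ) ^ n ∣ r - S
  · rw [if_pos hd, if_pos (dvd_add hd (dvd_mul_right _ _)),
      Int.add_mul_ediv_left _ _ (by positivity), add_comm]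
  · rw [if_neg hd, if_neg]
    intro h
    exact hd ((Int.dvd_add_left (dvd_mul_right _ _)).1 h)

lemma gop_per {n m b : ℕ} {F : ℤ → ℝ} (hF : Per (3 ^ m) F) : Per (3 ^ (m + n)) (gop n b F) := by
  intro x
  have e : x + ((3 ^ (m + n) : ℕ) : ℤ) = x + 3 ^ n * 3 ^ m := by push_cast; ring
  have e0 : gop n b F x = gop n b F (x + 3 ^ n * 0) := by rw [mul_zero, add_zero]
  rw [e, e0, gop_add, gop_add]
  apply Finset.sum_congr rfl
  intro S _
  split_ifs
  · apply hF.eq_of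
    exact ⟨1, by push_cast; ring⟩
  · rfl

open Classical in
/-- distribution of the translates in the class `r` -/
noncomputable def tau (n m b : ℕ) (r : ℤ) (t : ℤ) : ℝ :=
  #((W n b).filter fun S : ℕ => (3 : ℤ) ^ (n + m) ∣ (S : ℤ) - (r + 3 ^ n * t))

lemma tau_nonneg (n m b : ℕ) (r t : ℤ) : 0 ≤ tau n m b r t := Nat.cast_nonneg _

lemma tau_per (n m b : ℕ) (r : ℤ) : Per (3 ^ m) (tau n m b r) := by
  intro t
  unfold tau
  congr 2
  ext S
  simp only [Finset.mem_filter, and_congr_right_iff]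
  intro _
  have e : (S : ℤ) - (r + 3 ^ n * (t + ((3 ^ m : ℕ) : ℤ)))
      = ((S : ℤ) - (r + 3 ^ n * t)) + 3 ^ (n + m) * (-1) := by
    push_cast; rw [pow_add]; ring
  rw [e]
  exact Int.dvd_add_left (dvd_mul_right _ _)

lemma tau_le_one {n m b : ℕ} (h : 2 ^ b ≤ 3 ^ m) (r t : ℤ) : tau n m b r t ≤ 1 := by
  classical
  unfold tau
  have : #((W n b).filter fun S : ℕ => (3 : ℤ) ^ (n + m) ∣ (S : ℤ) - (r + 3 ^ n * t)) ≤ 1 := by
    apply Finset.card_le_one.2
    intro S hS S' hS'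
    simp only [Finset.mem_filter] at hS hS'
    have h1 := W_lt hS.1
    have h2 := W_lt hS'.1
    have h3 : 3 ^ n * 2 ^ b ≤ 3 ^ n * 3 ^ m := Nat.mul_le_mul_left _ h
    have h4 : (3 : ℤ) ^ (n + m) ∣ (S : ℤ) - S' := by
      have := dvd_sub hS.2 hS'.2
      have e : (S : ℤ) - (r + 3 ^ n * t) - ((S' : ℤ) - (r + 3 ^ n * t)) = S - S' := by ring
      rwa [e] at this
    have h5 : ((S : ℤ) - S').natAbs < 3 ^ (n + m) := by
      rw [pow_add]
      omega
    have h6 : ((3 : ℤ) ^ (n + m)).natAbs = 3 ^ (n + m) := by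
      rw [Int.natAbs_pow]; rfl
    have h7 := Int.natAbs_dvd_natAbs.2 h4
    rw [h6] at h7
    have h8 := Nat.eq_zero_of_dvd_of_lt h7 h5
    omega
  exact_mod_cast this

lemma gop_eq {n m b : ℕ} {F : ℤ → ℝ} (hF : Per (3 ^ m) F) (r y : ℤ) :
    gop n b F (r + 3 ^ n * y) = T (3 ^ m) (tau n m b r) F y := by
  classical
  rw [gop_add]
  unfold T tau
  have h1 : ∀ c : ℤ, ((#((W n b).filter fun S : ℕ =>
      (3 : ℤ) ^ (n + m) ∣ (S : ℤ) - (r + 3 ^ n * c)) : ℕ) : ℝ)
      * F (y - c) = ∑ S ∈ W n b, if (3 : ℤ) ^ (n + m) ∣ (S : ℤ) - (r + 3 ^ n * c) then F (y - c)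
        else 0 := by
    intro c
    rw [← Finset.sum_filter, Finset.sum_const, nsmul_eq_mul]
  simp only [h1]
  rw [Finset.sum_comm]
  apply Finset.sum_congr rfl
  intro S _
  by_cases hd : (3 : ℤ) ^ n ∣ r - S
  · rw [if_pos hd]
    obtain ⟨t, ht⟩ := hd
    have hM : ((3 ^ m : ℕ) : ℤ) ≠ 0 := by positivity
    have h8 : 0 ≤ (-t) % ((3 ^ m : ℕ) : ℤ) := Int.emod_nonneg _ hM
    have h9 : (-t) % ((3 ^ m : ℕ) : ℤ) < (3 ^ m : ℕ) := Int.emod_lt_of_pos _ (by positivity)
    have hc0 : (((-t) % ((3 ^ m : ℕ) : ℤ)).toNat : ℤ) = (-t) % ((3 ^ m : ℕ) : ℤ) :=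
      Int.toNat_of_nonneg h8
    have hdv : ∀ c : ℤ, (3 : ℤ) ^ (n + m) ∣ (S : ℤ) - (r + 3 ^ n * c) ↔ (3 : ℤ) ^ m ∣ t + c := by
      intro c
      have e : (S : ℤ) - (r + 3 ^ n * c) = 3 ^ n * (-(t + c)) := by
        have : (S : ℤ) = r - 3 ^ n * t := by linarith
        rw [this]; ring
      rw [e, pow_add]
      constructor
      · intro h
        have := Int.dvd_of_mul_dvd_mul_left (by positivity) h
        exact (dvd_neg).1 this
      · intro h
        exact mul_dvd_mul_left _ ((dvd_neg).2 h)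
    rw [Finset.sum_eq_single_of_mem ((-t) % ((3 ^ m : ℕ) : ℤ)).toNat
      (Finset.mem_range.2 (by omega))]
    · rw [hc0, if_pos]
      · rw [ht, Int.mul_ediv_cancel_left _ (by positivity)]
        apply hF.eq_of
        have := Int.emod_add_mul_ediv (-t) ((3 ^ m : ℕ) : ℤ)
        exact ⟨-((-t) / ((3 ^ m : ℕ) : ℤ)), by linear_combination this⟩
      · rw [hdv]
        have := Int.emod_add_mul_ediv (-t) ((3 ^ m : ℕ) : ℤ)
        refine ⟨-((-t) / ((3 ^ m : ℕ) : ℤ)), ?_⟩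
        push_cast at this ⊢
        linear_combination this
    · intro c hc hne
      rw [if_neg]
      rw [hdv]
      intro hd
      apply hne
      have hc' := Finset.mem_range.1 hc
      have h10 : ((3 ^ m : ℕ) : ℤ) ∣ (c : ℤ) - (-t) := by
        push_cast
        have e : (c : ℤ) - (-t) = t + c := by ring
        rw [e]; exact hd
      have h11 : (c : ℤ) % ((3 ^ m : ℕ) : ℤ) = (-t) % ((3 ^ m : ℕ) : ℤ) :=
        (Int.emod_eq_emod_iff_emod_sub_eq_zero).2 (Int.emod_eq_zero_of_dvd h10)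
      have h12 : (c : ℤ) % ((3 ^ m : ℕ) : ℤ) = c := Int.emod_eq_of_lt (by positivity) (by omega)
      omega
  · rw [if_neg hd]
    symm
    apply Finset.sum_eq_zero
    intro c _
    rw [if_neg]
    intro h
    apply hd
    have h2 : (3 : ℤ) ^ n ∣ (S : ℤ) - (r + 3 ^ n * c) := dvd_trans (pow_dvd_pow _ (by omega)) h
    have h3 := dvd_add h2 (dvd_mul_right ((3 : ℤ) ^ n) (c : ℤ))
    have e : (S : ℤ) - (r + 3 ^ n * c) + 3 ^ n * c = -(r - S) := by ring
    rw [e] at h3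
    exact (dvd_neg).1 h3

lemma tau_mass (n m b : ℕ) (r : ℤ) : mass (3 ^ m) (tau n m b r) = gop n b (fun _ => 1) r := by
  have h := gop_eq (n := n) (m := m) (b := b) (F := fun _ => 1) (fun _ => rfl) r 0
  rw [mul_zero, add_zero] at h
  rw [h]
  unfold mass T
  simp

lemma op_lq {n m b q : ℕ} {F : ℤ → ℝ} (hF : Per (3 ^ m) F) :
    ∑ x ∈ range (3 ^ m * 3 ^ n), (op n b F x) ^ q
      = ∑ r ∈ range (3 ^ n), ∑ y ∈ range (3 ^ m), (T (3 ^ m) (tau n m b r) F y) ^ q := by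
  have hne : NeZero (3 ^ (m + n)) := ⟨by positivity⟩
  have hp : Per (3 ^ (m + n)) fun z => (gop n b F z) ^ q := fun z => by
    simp only [gop_per hF z]
  have h1 := sum_unit hp (a := 2 ^ b) (isUnit_two_pow b (m + n))
  have h2 := sum_mul_range (3 ^ m) (3 ^ n) (fun z => (gop n b F z) ^ q)
  rw [← pow_add] at h2 ⊢
  simp only [op_gop]
  rw [h1, h2]
  apply Finset.sum_congr rfl
  intro r _
  apply Finset.sum_congr rfl
  intro y _
  push_cast
  rw [gop_eq hF]

lemma gop_one_lq (n b q : ℕ) : ∑ r ∈ range (3 ^ n), (gop n b (fun _ => 1) r) ^ q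
    = ∑ x ∈ range (3 ^ n), (op n b (fun _ => 1) x) ^ q := by
  have hne : NeZero (3 ^ n) := ⟨by positivity⟩
  have hp : Per (3 ^ n) fun z => (gop n b (fun _ => 1) z) ^ q := fun z => by
    have := gop_per (n := n) (m := 0) (b := b) (F := fun _ => 1) (fun _ => rfl) z
    rw [zero_add] at this
    simp only [this]
  exact (sum_unit hp (a := 2 ^ b) (isUnit_two_pow b n)).symm

lemma gop_nonneg {n b : ℕ} {F : ℤ → ℝ} (hF : ∀ x, 0 ≤ F x) (z : ℤ) : 0 ≤ gop n b F z := by
  unfold gop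
  apply Finset.sum_nonneg
  intro S _
  split_ifs
  · exact hF _
  · exact le_rfl

lemma T_smul (M : ℕ) (c : ℝ) (τ F : ℤ → ℝ) (y : ℤ) :
    T M (fun x => c * τ x) F y = c * T M τ F y := by
  unfold T
  rw [Finset.mul_sum]
  exact Finset.sum_congr rfl fun x _ => by ring

/-- the flattening step for one value of `b` -/
lemma flat_b {q n m b : ℕ} (hq : 1 ≤ q) (hnb : n ≤ b) (hbm : 2 ^ b ≤ 3 ^ m) {F : ℤ → ℝ}
    (hF : ∀ x, 0 ≤ F x) (hp : Per (3 ^ m) F) {S γ : ℝ} (hS : 0 ≤ S) (hγ : 0 ≤ γ)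
    (h : ∑ y ∈ range (3 ^ m), F y ^ q ≤ S ^ q)
    (hflat : ∀ τ : ℤ → ℝ, (∀ x, 0 ≤ τ x) → Per (3 ^ m) τ → mass (3 ^ m) τ = 1 →
      (∀ x, τ x ≤ (3 / 4 : ℝ) ^ n) → ∑ y ∈ range (3 ^ m), (T (3 ^ m) τ F y) ^ q ≤ (γ * S) ^ q) :
    ∑ x ∈ range (3 ^ m * 3 ^ n), (wt n b * op n b F x) ^ q
      ≤ S ^ q * (γ ^ q * hh q n + 3 ^ n * ((1 / 3 : ℝ) ^ n) ^ q) := by
  have hne : NeZero (3 ^ m) := ⟨by positivity⟩
  simp only [mul_pow (wt n b)]
  rw [← Finset.mul_sum, op_lq hp]
  have h1 : ∀ r ∈ range (3 ^ n), ∑ y ∈ range (3 ^ m), (T (3 ^ m) (tau n m b r) F y) ^ q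
      ≤ (gop n b (fun _ => 1) r) ^ q * (γ * S) ^ q + ((4 / 3 : ℝ) ^ b * S) ^ q := by
    intro r _
    set c := gop n b (fun _ => 1) (r : ℤ) with hc
    have hc0 : 0 ≤ c := gop_nonneg (fun _ => zero_le_one) _
    by_cases hcb : (4 / 3 : ℝ) ^ b ≤ c
    · have hcpos : 0 < c := lt_of_lt_of_le (by positivity) hcb
      have h2 := hflat (fun x => c⁻¹ * tau n m b r x)
        (fun x => mul_nonneg (inv_nonneg.2 hc0) (tau_nonneg _ _ _ _ _))
        (fun x => by simp only [tau_per n m b r x])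
        (by
          have : mass (3 ^ m) (fun x => c⁻¹ * tau n m b r x) = c⁻¹ * mass (3 ^ m) (tau n m b r) := by
            unfold mass; rw [Finset.mul_sum]
          rw [this, tau_mass, ← hc, inv_mul_cancel₀ hcpos.ne'])
        (by
          intro x
          have h3 := mul_le_mul_of_nonneg_left (tau_le_one (n := n) hbm r x) (inv_nonneg.2 hc0)
          refine h3.trans ?_
          rw [mul_one]
          have h4 : c⁻¹ ≤ ((4 / 3 : ℝ) ^ b)⁻¹ := inv_anti₀ (by positivity) hcb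
          refine h4.trans ?_
          rw [← inv_pow]
          have e : (4 / 3 : ℝ)⁻¹ = 3 / 4 := by norm_num
          rw [e]
          exact pow_le_pow_of_le_one (by norm_num) (by norm_num) hnb)
      simp only [T_smul, mul_pow c⁻¹] at h2
      rw [← Finset.mul_sum] at h2
      have h3 : ∑ y ∈ range (3 ^ m), (T (3 ^ m) (tau n m b r) F y) ^ q
          = c ^ q * (c⁻¹ ^ q * ∑ y ∈ range (3 ^ m), (T (3 ^ m) (tau n m b r) F y) ^ q) := by
        rw [← mul_assoc, ← mul_pow, mul_inv_cancel₀ hcpos.ne', one_pow, one_mul]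
      rw [h3]
      have h4 := mul_le_mul_of_nonneg_left h2 (pow_nonneg hc0 q)
      have h5 : 0 ≤ ((4 / 3 : ℝ) ^ b * S) ^ q := by positivity
      linarith
    · push Not at hcb
      have h2 := T_young (M := 3 ^ m) hq (tau_nonneg n m b r) hF hp hS h
      rw [tau_mass, ← hc] at h2
      have h3 : (c * S) ^ q ≤ ((4 / 3 : ℝ) ^ b * S) ^ q :=
        pow_le_pow_left₀ (mul_nonneg hc0 hS) (mul_le_mul_of_nonneg_right hcb.le hS) q
      have h5 : 0 ≤ c ^ q * (γ * S) ^ q := by positivity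
      linarith
  have h2 := mul_le_mul_of_nonneg_left (Finset.sum_le_sum h1) (pow_nonneg (wt_nonneg n b) q)
  refine h2.trans ?_
  rw [Finset.sum_add_distrib, ← Finset.sum_mul, gop_one_lq, mul_add, Finset.sum_const, card_range,
    nsmul_eq_mul]
  have h3 : wt n b ^ q * ∑ x ∈ range (3 ^ n), (op n b (fun _ => 1) x) ^ q ≤ hh q n := by
    rw [Finset.mul_sum]
    refine le_trans (Finset.sum_le_sum fun x _ => ?_) (le_hh hq b)
    rw [← mul_pow]
    apply pow_le_pow_left₀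
    · exact mul_nonneg (wt_nonneg _ _) (op_nonneg (fun _ => zero_le_one) _)
    · unfold nu A
      exact Finset.single_le_sum (f := fun b => wt n b * op n b (fun _ => 1) x)
        (fun b _ => mul_nonneg (wt_nonneg _ _) (op_nonneg (fun _ => zero_le_one) _))
        (Finset.mem_range.2 (by omega))
  have h4 : wt n b * (4 / 3 : ℝ) ^ b = (1 / 3) ^ n := by
    unfold wt
    rw [mul_assoc, ← mul_pow]
    norm_num
  have h5 : wt n b ^ q * ((3 ^ n : ℕ) * ((4 / 3 : ℝ) ^ b * S) ^ q)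
      = S ^ q * (3 ^ n * ((1 / 3 : ℝ) ^ n) ^ q) := by
    rw [← h4, mul_pow, mul_pow]
    push_cast
    ring
  rw [h5]
  have h6 : 0 ≤ (γ * S) ^ q := by positivity
  have h7 := mul_le_mul_of_nonneg_right h3 h6
  calc wt n b ^ q * ((∑ x ∈ range (3 ^ n), (op n b (fun _ => 1) x) ^ q) * (γ * S) ^ q)
        + S ^ q * (3 ^ n * ((1 / 3 : ℝ) ^ n) ^ q)
      = wt n b ^ q * (∑ x ∈ range (3 ^ n), (op n b (fun _ => 1) x) ^ q) * (γ * S) ^ q
        + S ^ q * (3 ^ n * ((1 / 3 : ℝ) ^ n) ^ q) := by ring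
    _ ≤ hh q n * (γ * S) ^ q + S ^ q * (3 ^ n * ((1 / 3 : ℝ) ^ n) ^ q) := by linarith
    _ = _ := by rw [mul_pow]; ring

lemma tail_b {q n m b : ℕ} (hq : 1 ≤ q) {F : ℤ → ℝ}
    (hF : ∀ x, 0 ≤ F x) (hp : Per (3 ^ m) F) {S : ℝ} (hS : 0 ≤ S)
    (h : ∑ y ∈ range (3 ^ m), F y ^ q ≤ S ^ q) :
    ∑ x ∈ range (3 ^ m * 3 ^ n), (wt n b * op n b F x) ^ q
      ≤ (wt n b * #(W n b) * S) ^ q := by
  have hne : NeZero (3 ^ m) := ⟨by positivity⟩
  simp only [mul_pow (wt n b)]
  rw [← Finset.mul_sum, op_lq hp, mul_assoc, mul_pow]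
  apply mul_le_mul_of_nonneg_left _ (pow_nonneg (wt_nonneg n b) q)
  have h1 : ∀ r ∈ range (3 ^ n), ∑ y ∈ range (3 ^ m), (T (3 ^ m) (tau n m b r) F y) ^ q
      ≤ (gop n b (fun _ => 1) r) ^ q * S ^ q := by
    intro r _
    have h2 := T_young (M := 3 ^ m) hq (tau_nonneg n m b r) hF hp hS h
    rw [tau_mass, mul_pow] at h2
    exact h2
  refine (Finset.sum_le_sum h1).trans ?_
  rw [← Finset.sum_mul, mul_pow]
  apply mul_le_mul_of_nonneg_right _ (pow_nonneg hS q)
  have h3 : ∑ r ∈ range (3 ^ n), gop n b (fun _ => 1) r = #(W n b) := by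
    have h4 := gop_one_lq n b 1
    simp only [pow_one] at h4
    rw [h4, sum_op_one]
  rw [← h3]
  set C := ∑ r ∈ range (3 ^ n), gop n b (fun _ => 1) r with hC
  have h5 : ∀ r ∈ range (3 ^ n), gop n b (fun _ => 1) r ≤ C := fun r hr =>
    Finset.single_le_sum (f := fun r : ℕ => gop n b (fun _ => 1) r)
      (fun r _ => gop_nonneg (fun _ => zero_le_one) _) hr
  obtain ⟨p, rfl⟩ : ∃ p, q = p + 1 := ⟨q - 1, by omega⟩
  calc ∑ r ∈ range (3 ^ n), (gop n b (fun _ => 1) r) ^ (p + 1)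
      ≤ ∑ r ∈ range (3 ^ n), C ^ p * gop n b (fun _ => 1) r := by
        apply Finset.sum_le_sum
        intro r hr
        rw [pow_succ]
        have h6 : 0 ≤ gop n b (fun _ => 1) (r : ℤ) := gop_nonneg (fun _ => zero_le_one) _
        exact mul_le_mul_of_nonneg_right (pow_le_pow_left₀ h6 (h5 r hr) p) h6
    _ = C ^ (p + 1) := by rw [← Finset.mul_sum, ← hC, pow_succ]

lemma add_pow_le_pow_add' {q : ℕ} (hq : 1 ≤ q) {a b : ℝ} (ha : 0 ≤ a) (hb : 0 ≤ b) :
    a ^ q + b ^ q ≤ (a + b) ^ q := by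
  obtain ⟨p, rfl⟩ : ∃ p, q = p + 1 := ⟨q - 1, by omega⟩
  have h1 : a ^ p ≤ (a + b) ^ p := pow_le_pow_left₀ ha (by linarith) p
  have h2 : b ^ p ≤ (a + b) ^ p := pow_le_pow_left₀ hb (by linarith) p
  have h3 := mul_le_mul_of_nonneg_right h1 ha
  have h4 := mul_le_mul_of_nonneg_right h2 hb
  rw [pow_succ, pow_succ, pow_succ]
  nlinarith

/-- the key inequality -/
theorem key_ineq {q n m β : ℕ} {γ ω : ℝ} (hq : 1 ≤ q) (hm : 2 ^ (β * n) ≤ 3 ^ m)
    (hω0 : 0 ≤ ω) (hω : ω ^ q = 3 ^ n * ((1 / 3 : ℝ) ^ n) ^ q) (hγ : 0 ≤ γ)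
    (hflat : ∀ B : ℕ, ∀ τ : ℤ → ℝ, (∀ x, 0 ≤ τ x) → Per (3 ^ m) τ → mass (3 ^ m) τ = 1 →
      (∀ x, τ x ≤ (3 / 4 : ℝ) ^ n) →
      ∑ y ∈ range (3 ^ m), (T (3 ^ m) τ (nu m B) y) ^ q ≤ (γ * Sq q m) ^ q) :
    Sq q (n + m) ≤ Sq q m * ((β * n + 1) * (γ * Sq q n + ω) + (7 / 3) ^ n * (6 / 7) ^ (β * n)) := by
  set S := Sq q m with hSdef
  have hS : 0 ≤ S := Sq_nonneg hq
  have hSn : 0 ≤ Sq q n := Sq_nonneg hq
  set Z := S * ((β * n + 1) * (γ * Sq q n + ω) + (7 / 3) ^ n * (6 / 7) ^ (β * n)) with hZ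
  have hZ0 : 0 ≤ Z := by positivity
  have key : ∀ B : ℕ, ∑ x ∈ range (3 ^ m * 3 ^ n), (A n B (nu m B) x) ^ q ≤ Z ^ q := by
    intro B
    have hF := nu_nonneg m B
    have hp := nu_per m B
    have hFq : ∑ y ∈ range (3 ^ m), nu m B y ^ q ≤ S ^ q := by
      rw [hSdef, Sq_pow hq]; exact le_hh hq B
    have h1 := mink hq (range (B + 1)) (range (3 ^ m * 3 ^ n))
      (fun b (x : ℕ) => wt n b * op n b (nu m B) x)
      (fun b => if b ≤ β * n then S * (γ * Sq q n + ω) else wt n b * #(W n b) * S)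
      (fun b _ x _ => mul_nonneg (wt_nonneg _ _) (op_nonneg hF _))
      (fun b _ => by
        split_ifs
        · positivity
        · exact mul_nonneg (mul_nonneg (wt_nonneg _ _) (Nat.cast_nonneg _)) hS)
      (by
        intro b _
        split_ifs with hb
        · by_cases hnb : n ≤ b
          · have h2 : 2 ^ b ≤ 3 ^ m := (Nat.pow_le_pow_right (by norm_num) hb).trans hm
            refine (flat_b hq hnb h2 hF hp hS hγ hFq (hflat B)).trans ?_
            rw [mul_pow]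
            apply mul_le_mul_of_nonneg_left _ (pow_nonneg hS q)
            rw [← hω, ← Sq_pow (m := n) hq, ← mul_pow]
            exact add_pow_le_pow_add' hq (by positivity) hω0
          · have h3 : ∀ x : ℤ, op n b (nu m B) x = 0 := by
              intro x
              unfold op
              apply Finset.sum_eq_zero
              intro S hS
              exact absurd (W_le hS) hnb
            simp only [h3, mul_zero]
            rw [Finset.sum_eq_zero fun x _ => zero_pow (by omega)]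
            positivity
        · exact tail_b hq hF hp hS hFq)
    unfold A
    refine h1.trans ?_
    apply pow_le_pow_left₀
    · apply Finset.sum_nonneg
      intro b _
      split_ifs
      · positivity
      · exact mul_nonneg (mul_nonneg (wt_nonneg _ _) (Nat.cast_nonneg _)) hS
    · have h2 : ∀ b ∈ range (B + 1), (if b ≤ β * n then S * (γ * Sq q n + ω)
            else wt n b * #(W n b) * S)
          ≤ (if b ≤ β * n then S * (γ * Sq q n + ω) else 0)
            + S * ((1 / 3) ^ n * (6 / 7) ^ (β * n)) * ((7 / 8 : ℝ) ^ b * #(W n b)) := by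
        intro b _
        have h0 : (0 : ℝ) ≤ S * ((1 / 3) ^ n * (6 / 7) ^ (β * n)) * ((7 / 8 : ℝ) ^ b * #(W n b)) := by
          positivity
        split_ifs with hb
        · linarith
        · rw [zero_add]
          push Not at hb
          have h3 : wt n b ≤ (1 / 3) ^ n * (6 / 7) ^ (β * n) * (7 / 8 : ℝ) ^ b := by
            unfold wt
            rw [mul_assoc]
            apply mul_le_mul_of_nonneg_left _ (by positivity)
            have e : (3 / 4 : ℝ) ^ b = (6 / 7) ^ b * (7 / 8) ^ b := by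
              rw [← mul_pow]; norm_num
            rw [e]
            apply mul_le_mul_of_nonneg_right _ (by positivity)
            exact pow_le_pow_of_le_one (by norm_num) (by norm_num) hb.le
          have h4 : (0 : ℝ) ≤ #(W n b) * S := by positivity
          have h5 := mul_le_mul_of_nonneg_right h3 h4
          calc wt n b * #(W n b) * S = wt n b * (#(W n b) * S) := by ring
            _ ≤ _ := h5
            _ = _ := by ring
      refine (Finset.sum_le_sum h2).trans ?_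
      rw [Finset.sum_add_distrib, ← Finset.mul_sum, ← Finset.sum_filter, Finset.sum_const,
        nsmul_eq_mul]
      have h3 := sum_W_le (s := 7 / 8) (by norm_num) (by norm_num) n B
      have h4 : (7 / 8 : ℝ) / (1 - 7 / 8) = 7 := by norm_num
      rw [h4] at h3
      have h5 : (#{b ∈ range (B + 1) | b ≤ β * n} : ℝ) ≤ β * n + 1 := by
        have : #{b ∈ range (B + 1) | b ≤ β * n} ≤ β * n + 1 := by
          refine (Finset.card_le_card (t := range (β * n + 1)) ?_).trans (by rw [card_range])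
          intro b hb
          simp only [Finset.mem_filter, Finset.mem_range] at hb ⊢
          omega
        exact_mod_cast this
      have h6 : (0 : ℝ) ≤ S * (γ * Sq q n + ω) := by positivity
      have h7 := mul_le_mul_of_nonneg_right h5 h6
      have h8 : (0 : ℝ) ≤ S * ((1 / 3) ^ n * (6 / 7) ^ (β * n)) := by positivity
      have h9 := mul_le_mul_of_nonneg_left h3 h8
      have h10 : S * ((1 / 3 : ℝ) ^ n * (6 / 7) ^ (β * n)) * 7 ^ n
          = S * ((7 / 3) ^ n * (6 / 7) ^ (β * n)) := by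
        have : (7 / 3 : ℝ) ^ n = (1 / 3) ^ n * 7 ^ n := by rw [← mul_pow]; norm_num
        rw [this]; ring
      rw [h10] at h9
      calc _ ≤ (β * n + 1) * (S * (γ * Sq q n + ω)) + S * ((7 / 3) ^ n * (6 / 7) ^ (β * n)) :=
            add_le_add h7 h9
        _ = Z := by rw [hZ]; ring
  have h11 : hh q (n + m) ≤ Z ^ q := by
    apply ciSup_le
    intro B
    refine le_trans ?_ (key B)
    rw [add_comm n m, pow_add]
    apply Finset.sum_le_sum
    intro x _
    apply pow_le_pow_left₀ (nu_nonneg _ _ _)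
    rw [add_comm m n]
    exact nu_add_le n m B x
  have h12 : Sq q (n + m) ^ q ≤ Z ^ q := by rw [Sq_pow hq]; exact h11
  exact le_of_pow_le_pow_left₀ (by omega) hZ0 h12

end Pool.Agent.LqFlat
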