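import Pool.Agent.LqFlat.Basic

open Finset

namespace Pool.Agent.LqFlat

/-- `g` has zero average over the cosets of `P ℤ / P² ℤ` -/
def V (P : ℕ) (g : ℤ → ℝ) : Prop := ∀ x, ∑ j ∈ range P, g (x + P * j) = 0

lemma T_V {P M : ℕ} {π g : ℤ → ℝ} (hg : V P g) : V P (T M π g) := by
  intro x
  unfold T
  rw [Finset.sum_comm]
  apply Finset.sum_eq_zero
  intro c _
  rw [← Finset.mul_sum]
  have : ∑ j ∈ range P, g (x + P * j - c) = ∑ j ∈ range P, g ((x - c) + P * j) := by
    apply Finset.sum_congr rfl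
    intro j _
    congr 1; ring
  rw [this, hg, mul_zero]

/-- sum of squares over a period -/
def sq2 (M : ℕ) (g : ℤ → ℝ) : ℝ := ∑ y ∈ range M, g y ^ 2

lemma sq2_nonneg (M : ℕ) (g : ℤ → ℝ) : 0 ≤ sq2 M g := Finset.sum_nonneg fun _ _ => sq_nonneg _

/-- the displacement functional -/
def disp (M : ℕ) (g : ℤ → ℝ) (h : ℤ) : ℝ := ∑ y ∈ range M, (g (y + h) - g y) ^ 2

lemma disp_nonneg (M : ℕ) (g : ℤ → ℝ) (h : ℤ) : 0 ≤ disp M g h :=
  Finset.sum_nonneg fun _ _ => sq_nonneg _

lemma sq2_shift {M : ℕ} [NeZero M] {g : ℤ → ℝ} (hg : Per M g) (t : ℤ) :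
    ∑ y ∈ range M, g (y + t) ^ 2 = sq2 M g := by
  have : Per M fun x => g x ^ 2 := fun x => by simp only [hg x]
  exact sum_shift this t

lemma T_sq {M : ℕ} [NeZero M] {π g : ℤ → ℝ} (hg : Per M g) :
    2 * ((mass M π) ^ 2 * sq2 M g - ∑ y ∈ range M, T M π g y ^ 2)
      = ∑ c ∈ range M, ∑ c' ∈ range M, π c * π c' * disp M g ((c' : ℤ) - c) := by
  have h1 : ∀ c c' : ℕ, disp M g ((c' : ℤ) - c)
      = 2 * sq2 M g - 2 * ∑ y ∈ range M, g (y - c) * g (y - c') := by
    intro c c'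
    have hper : Per M fun y => (g (y + ((c' : ℤ) - c)) - g y) ^ 2 := by
      intro x
      have e1 : g (x + M + ((c' : ℤ) - c)) = g (x + ((c' : ℤ) - c)) := hg.eq_of ⟨1, by ring⟩
      simp only [e1, hg x]
    have h2 : disp M g ((c' : ℤ) - c) = ∑ y ∈ range M, (g (y - c) - g (y - c')) ^ 2 := by
      unfold disp
      rw [← sum_shift hper (-(c' : ℤ))]
      apply Finset.sum_congr rfl
      intro y _
      congr 2
      · congr 1; ring
    rw [h2]
    have h3 : ∀ t : ℕ, ∑ y ∈ range M, g (y - t) ^ 2 = sq2 M g := by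
      intro t
      have := sq2_shift hg (-(t : ℤ))
      simpa [sub_eq_add_neg] using this
    have h4 : ∑ y ∈ range M, (g (y - c) - g (y - c')) ^ 2
        = ∑ y ∈ range M, g (y - c) ^ 2 + ∑ y ∈ range M, g (y - c') ^ 2
          - 2 * ∑ y ∈ range M, g (y - c) * g (y - c') := by
      rw [Finset.mul_sum, ← Finset.sum_add_distrib, ← Finset.sum_sub_distrib]
      apply Finset.sum_congr rfl
      intro y _
      ring
    rw [h4, h3, h3]; ring
  simp only [h1]
  have h5 : ∑ y ∈ range M, T M π g y ^ 2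
      = ∑ c ∈ range M, ∑ c' ∈ range M, π c * π c' * ∑ y ∈ range M, g (y - c) * g (y - c') := by
    have : ∀ y : ℕ, T M π g y ^ 2
        = ∑ c ∈ range M, ∑ c' ∈ range M, π c * π c' * (g (y - c) * g (y - c')) := by
      intro y
      unfold T
      rw [sq, Finset.sum_mul_sum]
      apply Finset.sum_congr rfl
      intro c _
      apply Finset.sum_congr rfl
      intro c' _
      ring
    simp only [this]
    rw [Finset.sum_comm]
    apply Finset.sum_congr rfl
    intro c _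
    rw [Finset.sum_comm]
    apply Finset.sum_congr rfl
    intro c' _
    rw [Finset.mul_sum]
  have h6 : (mass M π) ^ 2 = ∑ c ∈ range M, ∑ c' ∈ range M, π c * π c' := by
    unfold mass
    rw [sq, Finset.sum_mul_sum]
  rw [h5, h6]
  simp only [mul_sub, Finset.sum_sub_distrib]
  rw [Finset.sum_mul, Finset.mul_sum, Finset.mul_sum]
  congr 1
  · apply Finset.sum_congr rfl
    intro c _
    rw [Finset.sum_mul, Finset.mul_sum]
    apply Finset.sum_congr rfl
    intro c' _
    ring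
  · apply Finset.sum_congr rfl
    intro c _
    rw [Finset.mul_sum]
    apply Finset.sum_congr rfl
    intro c' _
    ring

lemma T_contr {M : ℕ} [NeZero M] {π g : ℤ → ℝ} (hπ : ∀ x, 0 ≤ π x) (hg : Per M g) :
    ∑ y ∈ range M, T M π g y ^ 2 ≤ (mass M π) ^ 2 * sq2 M g := by
  have h := T_sq (π := π) hg
  have : 0 ≤ ∑ c ∈ range M, ∑ c' ∈ range M, π c * π c' * disp M g ((c' : ℤ) - c) :=
    Finset.sum_nonneg fun c _ => Finset.sum_nonneg fun c' _ =>
      mul_nonneg (mul_nonneg (hπ _) (hπ _)) (disp_nonneg _ _ _)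
  linarith

lemma disp_mul_le {M : ℕ} [NeZero M] {g : ℤ → ℝ} (hg : Per M g) (h : ℤ) (t : ℕ) :
    disp M g (t * h) ≤ (t : ℝ) ^ 2 * disp M g h := by
  unfold disp
  have h1 : ∀ y : ℕ, (g (y + t * h) - g y) ^ 2
      ≤ t * ∑ s ∈ range t, (g (y + (s + 1) * h) - g (y + s * h)) ^ 2 := by
    intro y
    have e : g (y + t * h) - g y = ∑ s ∈ range t, (g (y + (s + 1) * h) - g (y + s * h)) := by
      have := Finset.sum_range_sub (fun s : ℕ => g (y + (s : ℤ) * h)) t
      simp only [Nat.cast_add, Nat.cast_one] at this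
      rw [this]
      simp
    rw [e]
    have := sq_sum_le_card_mul_sum_sq (s := range t)
      (f := fun s : ℕ => g (y + ((s : ℤ) + 1) * h) - g (y + (s : ℤ) * h))
    simpa using this
  calc ∑ y ∈ range M, (g (y + t * h) - g y) ^ 2
      ≤ ∑ y ∈ range M, (t : ℝ) * ∑ s ∈ range t, (g (y + (s + 1) * h) - g (y + s * h)) ^ 2 :=
        Finset.sum_le_sum fun y _ => h1 y
    _ = (t : ℝ) * ∑ s ∈ range t, ∑ y ∈ range M, (g (y + (s + 1) * h) - g (y + s * h)) ^ 2 := by
        rw [← Finset.mul_sum, Finset.sum_comm]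
    _ = (t : ℝ) * ∑ s ∈ range t, ∑ y ∈ range M, (g (y + h) - g y) ^ 2 := by
        congr 1
        apply Finset.sum_congr rfl
        intro s _
        have hper : Per M fun y => (g (y + h) - g y) ^ 2 := by
          intro x
          have e1 : g (x + M + h) = g (x + h) := hg.eq_of ⟨1, by ring⟩
          simp only [e1, hg x]
        rw [← sum_shift hper ((s : ℤ) * h)]
        apply Finset.sum_congr rfl
        intro y _
        congr 2
        congr 1; ring
    _ = (t : ℝ) ^ 2 * ∑ y ∈ range M, (g (y + h) - g y) ^ 2 := by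
        rw [Finset.sum_const, card_range, nsmul_eq_mul]; ring

lemma disp_per {M : ℕ} {g : ℤ → ℝ} (hg : Per M g) {h h' : ℤ} (hh : (M : ℤ) ∣ h - h') :
    disp M g h = disp M g h' := by
  unfold disp
  apply Finset.sum_congr rfl
  intro y _
  have : g (y + h) = g (y + h') := hg.eq_of (by
    have : (y : ℤ) + h - (y + h') = h - h' := by ring
    rwa [this])
  rw [this]

/-- displacement by a non-multiple of `P` -/
lemma disp_lower {D : ℕ} {g : ℤ → ℝ} (hg : Per (3 ^ D * 3 ^ D) g) (hV : V (3 ^ D) g) {h : ℤ}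
    (hh : ¬ ((3 ^ D : ℕ) : ℤ) ∣ h) :
    2 * sq2 (3 ^ D * 3 ^ D) g ≤ ((3 : ℝ) ^ D) ^ 4 * disp (3 ^ D * 3 ^ D) g h := by
  set P : ℕ := 3 ^ D with hP
  have hP0 : 0 < P := by positivity
  set R : ℕ := P * P with hR
  have : NeZero R := ⟨by positivity⟩
  -- the gcd divides `P`
  have hgcd : (Int.gcd h R : ℤ) ∣ P := by
    have h1 : Int.gcd h R ∣ R := by
      have := Int.gcd_dvd_right h (R : ℤ)
      exact_mod_cast this
    have h2 : R = 3 ^ (D + D) := by rw [hR, hP, pow_add]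
    rw [h2] at h1
    obtain ⟨v, hv, hv2⟩ := (Nat.dvd_prime_pow Nat.prime_three).1 h1
    rw [h2, hv2]
    have hvD : v ≤ D := by
      by_contra hcon
      push Not at hcon
      apply hh
      have h3 : ((3 ^ v : ℕ) : ℤ) ∣ h := by
        rw [← hv2, ← h2]; exact Int.gcd_dvd_left h (R : ℤ)
      refine dvd_trans ?_ h3
      exact_mod_cast pow_dvd_pow 3 hcon.le
    exact_mod_cast pow_dvd_pow 3 hvD
  obtain ⟨s, hs⟩ := hgcd
  have hbez := Int.gcd_eq_gcd_ab h R
  have hstep : ∀ i ∈ range P, disp R g (P * i) ≤ (R : ℝ) ^ 2 * disp R g h := by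
    intro i _
    set t0 : ℤ := Int.gcdA h R * s * i with ht0
    set t : ℕ := (t0 % R).toNat with ht
    have hRpos : (0 : ℤ) < R := by exact_mod_cast Nat.pos_of_ne_zero (NeZero.ne R)
    have ht1 : (t : ℤ) = t0 % R := Int.toNat_of_nonneg (Int.emod_nonneg _ hRpos.ne')
    have ht2 : (t : ℤ) < R := by rw [ht1]; exact Int.emod_lt_of_pos _ hRpos
    have hcong : (R : ℤ) ∣ (P : ℤ) * i - t * h := by
      have e1 : (P : ℤ) * i = (Int.gcd h R : ℤ) * s * i := by rw [← hs]
      have e2 : (t : ℤ) = t0 - R * (t0 / R) := by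
        rw [ht1, Int.emod_def]
      rw [e1, e2, hbez]
      refine ⟨Int.gcdB h R * s * i + (t0 / R) * h, ?_⟩
      rw [ht0]; ring
    rw [disp_per hg hcong]
    refine (disp_mul_le hg h t).trans ?_
    have : (t : ℝ) ≤ R := by exact_mod_cast ht2.le
    have ht0' : (0 : ℝ) ≤ t := Nat.cast_nonneg t
    exact mul_le_mul_of_nonneg_right (by nlinarith) (disp_nonneg _ _ _)
  have hsum : ∑ i ∈ range P, disp R g (P * i) = 2 * P * sq2 R g := by
    have h1 : ∀ i : ℕ, disp R g (P * i)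
        = 2 * sq2 R g - 2 * ∑ y ∈ range R, g y * g (y + P * i) := by
      intro i
      unfold disp
      have h3 := sq2_shift hg ((P : ℤ) * i)
      have h4 : ∑ y ∈ range R, (g (y + P * i) - g y) ^ 2
          = ∑ y ∈ range R, g (y + P * i) ^ 2 + ∑ y ∈ range R, g y ^ 2
            - 2 * ∑ y ∈ range R, g y * g (y + P * i) := by
        rw [Finset.mul_sum, ← Finset.sum_add_distrib, ← Finset.sum_sub_distrib]
        apply Finset.sum_congr rfl
        intro y _
        ring
      rw [h4, h3]; unfold sq2; ring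
    simp only [h1]
    rw [Finset.sum_sub_distrib, Finset.sum_const, card_range, nsmul_eq_mul, ← Finset.mul_sum,
      Finset.sum_comm]
    have h2 : ∑ y ∈ range R, ∑ i ∈ range P, g y * g (y + P * i) = 0 := by
      apply Finset.sum_eq_zero
      intro y _
      rw [← Finset.mul_sum, hV, mul_zero]
    rw [h2]; ring
  have h7 : 2 * P * sq2 R g ≤ P * ((R : ℝ) ^ 2 * disp R g h) := by
    rw [← hsum]
    refine (Finset.sum_le_sum hstep).trans (le_of_eq ?_)
    rw [Finset.sum_const, card_range, nsmul_eq_mul]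
  have hPr : (0 : ℝ) < P := by exact_mod_cast hP0
  have h8 : 2 * sq2 R g ≤ (R : ℝ) ^ 2 * disp R g h := by
    have : (P : ℝ) * (2 * sq2 R g) ≤ P * ((R : ℝ) ^ 2 * disp R g h) := by linarith
    exact le_of_mul_le_mul_left this hPr
  have h9 : (R : ℝ) ^ 2 = ((3 : ℝ) ^ D) ^ 4 := by
    rw [hR, hP]; push_cast; ring
  rwa [h9] at h8

/-- contraction for a branching distribution -/
lemma T_contr_bra {D : ℕ} {π g : ℤ → ℝ} (hπ : ∀ x, 0 ≤ π x)
    (hg : Per (3 ^ D * 3 ^ D) g) (hV : V (3 ^ D) g)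
    (hb : ∀ v ∈ range (3 ^ D), ∑ j ∈ range (3 ^ D), π (v + (3 ^ D : ℕ) * j)
      ≤ (1 - ((3 : ℝ) ^ D)⁻¹) * mass (3 ^ D * 3 ^ D) π) :
    ∑ y ∈ range (3 ^ D * 3 ^ D), T (3 ^ D * 3 ^ D) π g y ^ 2
      ≤ (1 - (((3 : ℝ) ^ D) ^ 5)⁻¹) * ((mass (3 ^ D * 3 ^ D) π) ^ 2 * sq2 (3 ^ D * 3 ^ D) g) := by
  set P : ℕ := 3 ^ D with hP
  have hP0 : 0 < P := by positivity
  set R : ℕ := P * P with hR
  have : NeZero R := ⟨by positivity⟩
  set Q : ℝ := (3 : ℝ) ^ D with hQ
  have hQ0 : 0 < Q := by positivity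
  set m := mass R π with hm
  have hm0 : 0 ≤ m := mass_nonneg hπ
  -- mass of the non-equivalent pairs
  have hrow : ∀ c ∈ range R, Q⁻¹ * m ≤ ∑ c' ∈ range R, if ((P : ℤ) ∣ (c' : ℤ) - c) then 0 else π c' := by
    intro c _
    have h1 : ∑ c' ∈ range R, (if ((P : ℤ) ∣ (c' : ℤ) - c) then π c' else 0)
        = ∑ j ∈ range P, π (((c % P : ℕ) : ℤ) + (P : ℤ) * j) := by
      have h2 := sum_mul_range P P (fun x : ℤ => if ((P : ℤ) ∣ x - c) then π x else 0)
      rw [← hR] at h2
      rw [h2, Finset.sum_eq_single (c % P)]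
      · apply Finset.sum_congr rfl
        intro j _
        rw [if_pos]
        have : (c : ℤ) = (c % P : ℕ) + P * (c / P : ℕ) := by
          exact_mod_cast (Nat.mod_add_div c P).symm
        refine ⟨(j : ℤ) - (c / P : ℕ), ?_⟩
        push_cast at this ⊢
        linear_combination -this
      · intro v hv hvc
        apply Finset.sum_eq_zero
        intro j _
        rw [if_neg]
        rintro ⟨k, hk⟩
        apply hvc
        have hv' : v < P := Finset.mem_range.1 hv
        have h3 : (c : ℤ) = v + P * (j - k) := by linear_combination -hk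
        have h4 : ((c % P : ℕ) : ℤ) = v := by
          push_cast
          rw [h3, Int.add_mul_emod_self_left]
          exact Int.emod_eq_of_lt (by positivity) (by exact_mod_cast hv')
        exact_mod_cast h4.symm
      · intro hc
        exact absurd (Finset.mem_range.2 (Nat.mod_lt _ hP0)) hc
    have h5 := hb (c % P) (Finset.mem_range.2 (Nat.mod_lt _ hP0))
    rw [← h1] at h5
    have h6 : ∑ c' ∈ range R, (if ((P : ℤ) ∣ (c' : ℤ) - c) then π c' else 0)
        + ∑ c' ∈ range R, (if ((P : ℤ) ∣ (c' : ℤ) - c) then 0 else π c') = m := by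
      rw [← Finset.sum_add_distrib, hm, mass]
      apply Finset.sum_congr rfl
      intro c' _
      split_ifs <;> simp
    nlinarith
  have hpair : Q⁻¹ * m ^ 2 ≤ ∑ c ∈ range R, ∑ c' ∈ range R,
      π c * (if ((P : ℤ) ∣ (c' : ℤ) - c) then 0 else π c') := by
    calc Q⁻¹ * m ^ 2 = ∑ c ∈ range R, π c * (Q⁻¹ * m) := by
          rw [← Finset.sum_mul, hm, mass]; ring
      _ ≤ ∑ c ∈ range R, π c * ∑ c' ∈ range R,
          (if ((P : ℤ) ∣ (c' : ℤ) - c) then 0 else π c') :=
        Finset.sum_le_sum fun c hc => mul_le_mul_of_nonneg_left (hrow c hc) (hπ _)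
      _ = _ := by simp only [Finset.mul_sum]
  have hS0 := sq2_nonneg R g
  have hmain : Q⁻¹ * m ^ 2 * (2 * (Q ^ 4)⁻¹ * sq2 R g)
      ≤ ∑ c ∈ range R, ∑ c' ∈ range R, π c * π c' * disp R g ((c' : ℤ) - c) := by
    calc Q⁻¹ * m ^ 2 * (2 * (Q ^ 4)⁻¹ * sq2 R g)
        ≤ (∑ c ∈ range R, ∑ c' ∈ range R,
          π c * (if ((P : ℤ) ∣ (c' : ℤ) - c) then 0 else π c')) * (2 * (Q ^ 4)⁻¹ * sq2 R g) :=
        mul_le_mul_of_nonneg_right hpair (by positivity)
      _ = ∑ c ∈ range R, ∑ c' ∈ range R,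
          π c * (if ((P : ℤ) ∣ (c' : ℤ) - c) then 0 else π c') * (2 * (Q ^ 4)⁻¹ * sq2 R g) := by
        rw [Finset.sum_mul]
        apply Finset.sum_congr rfl
        intro c _
        rw [Finset.sum_mul]
      _ ≤ _ := by
        apply Finset.sum_le_sum
        intro c _
        apply Finset.sum_le_sum
        intro c' _
        split_ifs with hd
        · rw [mul_zero, zero_mul]
          exact mul_nonneg (mul_nonneg (hπ _) (hπ _)) (disp_nonneg _ _ _)
        · apply mul_le_mul_of_nonneg_left _ (mul_nonneg (hπ _) (hπ _))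
          have := disp_lower hg hV hd
          have h4 : (0 : ℝ) < Q ^ 4 := by positivity
          rw [show 2 * (Q ^ 4)⁻¹ * sq2 R g = (2 * sq2 R g) / Q ^ 4 by
            field_simp, div_le_iff₀ h4]
          linarith
  have hid := T_sq (π := π) hg
  rw [← hid] at hmain
  have e5 : Q⁻¹ * m ^ 2 * (2 * (Q ^ 4)⁻¹ * sq2 R g) = 2 * ((Q ^ 5)⁻¹ * (m ^ 2 * sq2 R g)) := by
    rw [show Q ^ 5 = Q * Q ^ 4 by ring, mul_inv]; ring
  rw [e5] at hmain
  linarith

end Pool.Agent.LqFlat
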