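import Pool.Agent.LqFlat.Mean
import Pool.Agent.LqFlat.Decay

open Finset Filter Topology

namespace Pool.Agent.LqFlat

lemma Sq_decay {q : ℕ} (hq : 2 ≤ q) : ∃ C : ℝ, 0 < C ∧ ∀ j : ℕ,
    3 ^ j * Sq q j ≤ C * E (3 / (2 * q) * j) := by
  have hq1 : 1 ≤ q := by omega
  have hq0 : (0 : ℝ) < q := by exact_mod_cast (by omega : 0 < q)
  have hq2 : (2 : ℝ) ≤ q := by exact_mod_cast hq
  obtain ⟨C, hC, h⟩ := decay_all hq (t := q - 3 / 2) (by linarith) (by linarith)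
  refine ⟨max 1 C, lt_of_lt_of_le one_pos (le_max_left _ _), fun j => ?_⟩
  have h1 : Sq q j ≤ max 1 C * E (-((q - 3 / 2) / q * j)) := by
    have h2 : Sq q j ^ q ≤ (max 1 C * E (-((q - 3 / 2) / q * j))) ^ q := by
      rw [Sq_pow hq1, mul_pow]
      refine (h j).trans ?_
      have h3 : C ≤ max 1 C ^ q :=
        (le_max_right _ _).trans (le_self_pow₀ (le_max_left _ _) (by omega))
      have h4 : E (-((q - 3 / 2) * j)) = E (-((q - 3 / 2) / q * j)) ^ q := by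
        rw [E_pow]; congr 1; field_simp
      rw [h4]
      exact mul_le_mul_of_nonneg_right h3 (pow_nonneg (E_pos _).le _)
    exact le_of_pow_le_pow_left₀ (by omega) (mul_nonneg (by positivity) (E_pos _).le) h2
  have h2 := mul_le_mul_of_nonneg_left h1 (show (0 : ℝ) ≤ 3 ^ j by positivity)
  refine h2.trans (le_of_eq ?_)
  rw [← E_nat]
  have h3 : E j * (max 1 C * E (-((q - 3 / 2) / q * j)))
      = max 1 C * (E j * E (-((q - 3 / 2) / q * j))) := by ring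
  rw [h3, ← E_add]
  congr 2
  field_simp
  ring

/-- uniform upper bound -/
theorem upper {ε : ℝ} (hε : 0 < ε) : ∃ K : ℕ, ∀ k : ℕ, K ≤ k → ∀ a : ℕ,
    (({m : ℕ | tm^[k] m = a}.ncard : ℕ) : ℝ) ≤ (4 / 3 : ℝ) ^ ((1 + ε) * k) := by
  set s : ℝ := Real.logb 3 (4 / 3) with hs
  have hs0 : 0 < s := Real.logb_pos (by norm_num) (by norm_num)
  have hsE : ∀ x : ℝ, (4 / 3 : ℝ) ^ x = E (s * x) := by
    intro x
    unfold E
    rw [Real.rpow_mul (by norm_num), hs, Real.rpow_logb (by norm_num) (by norm_num) (by norm_num)]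
  obtain ⟨q₀, hq₀⟩ := exists_nat_gt (3 / (2 * (s * ε)))
  set q := max q₀ 2 with hqdef
  have hq : 2 ≤ q := le_max_right _ _
  have hq0 : (0 : ℝ) < q := by exact_mod_cast (by omega : 0 < q)
  have hq1 : 3 / (2 * (s * ε)) < q := hq₀.trans_le (by exact_mod_cast le_max_left _ _)
  have hlam : 0 < s * ε - 3 / (2 * q) := by
    have h1 : 0 < s * ε := by positivity
    rw [div_lt_iff₀ (by positivity)] at hq1
    rw [sub_pos, div_lt_iff₀ (by positivity)]
    linarith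
  obtain ⟨C, hC, hSq⟩ := Sq_decay hq
  obtain ⟨K, hK⟩ := (eventually_atTop.1 ((ev_small hlam (2 * C) 1).and (eventually_ge_atTop 1)))
  refine ⟨K, fun k hk a => ?_⟩
  obtain ⟨h1, h2⟩ := hK k hk
  rw [pow_one] at h1
  have hk1 : (1 : ℝ) ≤ k := by exact_mod_cast h2
  refine (leaves_le (q := q) (by omega) k a).trans ?_
  have h3 : ∑ j ∈ range (k + 1), 3 ^ j * Sq q j ≤ ∑ j ∈ range (k + 1), C * E (3 / (2 * q) * k) := by
    apply Finset.sum_le_sum
    intro j hj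
    refine (hSq j).trans ?_
    apply mul_le_mul_of_nonneg_left _ hC.le
    apply E_le
    apply mul_le_mul_of_nonneg_left _ (by positivity)
    have := Finset.mem_range.1 hj
    exact_mod_cast (by omega : j ≤ k)
  rw [Finset.sum_const, card_range, nsmul_eq_mul] at h3
  have h4 : (4 / 3 : ℝ) ^ ((1 + ε) * k) = (4 / 3 : ℝ) ^ k * E (s * ε * k) := by
    rw [add_mul, one_mul, Real.rpow_add (by norm_num), Real.rpow_natCast, hsE]
    congr 2; ring
  rw [h4]
  apply mul_le_mul_of_nonneg_left _ (by positivity)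
  refine h3.trans ?_
  have h5 : E (3 / (2 * q) * k) = E (s * ε * k) * E (-((s * ε - 3 / (2 * q)) * k)) := by
    rw [← E_add]; congr 1; ring
  rw [h5]
  have h6 : ((k + 1 : ℕ) : ℝ) ≤ 2 * k := by push_cast; linarith
  have h7 : 0 ≤ C * (E (s * ε * k) * E (-((s * ε - 3 / (2 * q)) * k))) :=
    mul_nonneg hC.le (mul_nonneg (E_pos _).le (E_pos _).le)
  have h8 := mul_le_mul_of_nonneg_right h6 h7
  refine h8.trans ?_
  have h9 := mul_le_mul_of_nonneg_left h1.le (E_pos (s * ε * k)).le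
  rw [mul_one] at h9
  refine le_trans (le_of_eq ?_) h9
  ring

lemma pos_of_mod {n : ℕ} (h : n % 3 ≠ 0) : 1 ≤ n := by
  rcases Nat.eq_zero_or_pos n with rfl | h1
  · exact absurd rfl h
  · exact h1

lemma Nstar_eq (k a : ℕ) : (Nstar k a : ℝ) = cz k a := by
  rw [← cz_ncard]
  unfold Nstar
  congr 2
  ext n
  constructor
  · rintro ⟨_, h2, h3⟩; exact ⟨h3, h2⟩
  · rintro ⟨h2, h3⟩; exact ⟨pos_of_mod h3, h3, h2⟩

lemma Nstar_le (k a : ℕ) : (Nstar k a : ℝ) ≤ (({m : ℕ | tm^[k] m = a}.ncard : ℕ) : ℝ) := by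
  have h : {n : ℕ | 1 ≤ n ∧ n % 3 ≠ 0 ∧ tm^[k] n = a} ⊆ {m : ℕ | tm^[k] m = a} :=
    fun n hn => hn.2.2
  unfold Nstar
  exact_mod_cast Set.ncard_le_ncard h (leaves_finite k a)

lemma Nall_le (k a : ℕ) : (Nall k a : ℝ) ≤ (({m : ℕ | tm^[k] m = a}.ncard : ℕ) : ℝ) := by
  have h : {n : ℕ | 1 ≤ n ∧ tm^[k] n = a} ⊆ {m : ℕ | tm^[k] m = a} := fun n hn => hn.2
  unfold Nall
  exact_mod_cast Set.ncard_le_ncard h (leaves_finite k a)

lemma sum_Nstar (k : ℕ) : ∑ a ∈ classes k, (Nstar k a : ℝ) = 2 * 4 ^ k := by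
  rw [← cz_sum]
  unfold classes
  rw [Finset.sum_filter]
  apply Finset.sum_congr rfl
  intro a _
  split_ifs with h
  · exact Nstar_eq k a
  · push Not at h
    rw [cz_zero k (by omega)]

lemma card_classes (k : ℕ) : (#(classes k) : ℝ) = 2 * 3 ^ k := by
  unfold classes
  rw [Finset.card_filter]
  push_cast
  have h := sum_mul_range (3 ^ k) 3 (fun a => if a % 3 ≠ 0 then (1 : ℝ) else 0)
  rw [← pow_succ] at h
  have h1 : ∑ a ∈ range (3 ^ (k + 1)), (if a % 3 ≠ 0 then (1 : ℝ) else 0)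
      = ∑ a ∈ range (3 ^ (k + 1)), (if (a : ℤ) % 3 ≠ 0 then (1 : ℝ) else 0) := by
    apply Finset.sum_congr rfl
    intro a _
    by_cases h2 : a % 3 ≠ 0
    · rw [if_pos h2, if_pos (by omega)]
    · rw [if_neg h2, if_neg (by omega)]
  rw [h1, h, Finset.sum_range_succ, Finset.sum_range_succ, Finset.sum_range_succ,
    Finset.sum_range_zero]
  have z0 : ∀ x : ℕ, (if (((0 : ℕ) : ℤ) + ((3 : ℕ) : ℤ) * x) % 3 ≠ 0 then (1 : ℝ) else 0) = 0 := by
    intro x; rw [if_neg]; omega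
  have z1 : ∀ x : ℕ, (if (((1 : ℕ) : ℤ) + ((3 : ℕ) : ℤ) * x) % 3 ≠ 0 then (1 : ℝ) else 0) = 1 := by
    intro x; rw [if_pos]; omega
  have z2 : ∀ x : ℕ, (if (((2 : ℕ) : ℤ) + ((3 : ℕ) : ℤ) * x) % 3 ≠ 0 then (1 : ℝ) else 0) = 1 := by
    intro x; rw [if_pos]; omega
  simp only [z0, z1, z2, Finset.sum_const, card_range, nsmul_eq_mul]
  push_cast
  ring

lemma Nstar_le_Nplus {k a : ℕ} (ha : a ∈ classes k) : Nstar k a ≤ Nplus k :=
  Finset.le_sup (f := Nstar k) ha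

lemma lower (k : ℕ) : (4 / 3 : ℝ) ^ k ≤ Nplus k := by
  have h1 : ∑ a ∈ classes k, (Nstar k a : ℝ) ≤ ∑ a ∈ classes k, (Nplus k : ℝ) :=
    Finset.sum_le_sum fun a ha => by exact_mod_cast Nstar_le_Nplus ha
  rw [sum_Nstar, Finset.sum_const, nsmul_eq_mul, card_classes] at h1
  rw [div_pow, div_le_iff₀ (by positivity)]
  linarith

lemma Nplus_le {B : ℝ} (hB : 0 ≤ B) {k : ℕ} (h : ∀ a, (Nstar k a : ℝ) ≤ B) : (Nplus k : ℝ) ≤ B := by
  have h1 : Nplus k ≤ ⌊B⌋₊ := by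
    apply Finset.sup_le
    intro a _
    exact Nat.le_floor (h a)
  exact (Nat.le_floor_iff hB).1 h1

theorem main_limit : Tendsto (fun k : ℕ => Real.log (Nplus k) / k) atTop (𝓝 (Real.log (4 / 3))) := by
  have hl : 0 < Real.log (4 / 3) := Real.log_pos (by norm_num)
  rw [tendsto_order]
  constructor
  · intro u hu
    filter_upwards [eventually_ge_atTop 1] with k hk
    have hk0 : (0 : ℝ) < k := by exact_mod_cast hk
    have h1 : Real.log ((4 / 3 : ℝ) ^ k) ≤ Real.log (Nplus k) :=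
      Real.log_le_log (by positivity) (lower k)
    rw [Real.log_pow] at h1
    refine lt_of_lt_of_le hu ?_
    rw [le_div_iff₀ hk0]
    linarith
  · intro u hu
    set ε : ℝ := (u - Real.log (4 / 3)) / (2 * Real.log (4 / 3)) with hε
    have hε0 : 0 < ε := div_pos (by linarith) (by positivity)
    have hεl : ε * Real.log (4 / 3) = (u - Real.log (4 / 3)) / 2 := by
      rw [hε]; field_simp
    obtain ⟨K, hK⟩ := upper hε0
    filter_upwards [eventually_ge_atTop (max K 1)] with k hk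
    have hk0 : (0 : ℝ) < k := by
      have : 1 ≤ k := (le_max_right _ _).trans hk
      exact_mod_cast this
    have h1 : (Nplus k : ℝ) ≤ (4 / 3 : ℝ) ^ ((1 + ε) * k) :=
      Nplus_le (by positivity) fun a => (Nstar_le k a).trans (hK k ((le_max_left _ _).trans hk) a)
    have h2 : Real.log (Nplus k) ≤ Real.log ((4 / 3 : ℝ) ^ ((1 + ε) * k)) :=
      Real.log_le_log (lt_of_lt_of_le (by positivity) (lower k)) h1
    rw [Real.log_rpow (by norm_num)] at h2
    rw [div_lt_iff₀ hk0]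
    refine lt_of_le_of_lt h2 ?_
    have h3 : (1 + ε) * Real.log (4 / 3) < u := by
      rw [add_mul, one_mul, hεl]; linarith
    have := mul_lt_mul_of_pos_right h3 hk0
    linarith

theorem many_large {ε : ℝ} (hε : 0 < ε) : ∃ K : ℕ, ∀ k : ℕ, K ≤ k →
    (3 : ℝ) ^ ((1 - ε) * k) ≤ #((classes k).filter fun a => (4 / 3 : ℝ) ^ k / 2 ≤ Nstar k a) := by
  obtain ⟨K, hK⟩ := upper hε
  refine ⟨K, fun k hk => ?_⟩
  set G := (classes k).filter fun a => (4 / 3 : ℝ) ^ k / 2 ≤ Nstar k a with hG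
  set U : ℝ := (4 / 3 : ℝ) ^ ((1 + ε) * k) with hU
  have hU0 : 0 < U := by positivity
  have h1 : ∑ a ∈ classes k, (Nstar k a : ℝ)
      ≤ ∑ a ∈ classes k, ((if (4 / 3 : ℝ) ^ k / 2 ≤ Nstar k a then U else 0) + (4 / 3 : ℝ) ^ k / 2) := by
    apply Finset.sum_le_sum
    intro a _
    have h0 : (0 : ℝ) ≤ (4 / 3 : ℝ) ^ k / 2 := by positivity
    split_ifs with h
    · have := (Nstar_le k a).trans (hK k hk a)
      linarith
    · push Not at h
      linarith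
  rw [sum_Nstar, Finset.sum_add_distrib, ← Finset.sum_filter, ← hG, Finset.sum_const,
    Finset.sum_const, nsmul_eq_mul, nsmul_eq_mul, card_classes] at h1
  have h2 : 2 * (3 : ℝ) ^ k * ((4 / 3) ^ k / 2) = 4 ^ k := by
    rw [div_pow]; field_simp
  rw [h2] at h1
  have h3 : (4 : ℝ) ^ k ≤ #G * U := by linarith
  have h4 : (3 : ℝ) ^ ((1 - ε) * k) * U ≤ 4 ^ k := by
    have e1 : (3 : ℝ) ^ ((1 - ε) * k) = 3 ^ k * (3 : ℝ) ^ (-(ε * k)) := by
      rw [← Real.rpow_natCast 3 k, ← Real.rpow_add (by norm_num)]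
      congr 1; ring
    have e2 : U = (4 / 3) ^ k * (4 / 3 : ℝ) ^ (ε * k) := by
      rw [hU, ← Real.rpow_natCast (4 / 3) k, ← Real.rpow_add (by norm_num)]
      congr 1; ring
    have e3 : (4 / 3 : ℝ) ^ (ε * k) ≤ (3 : ℝ) ^ (ε * k) :=
      Real.rpow_le_rpow (by norm_num) (by norm_num) (by positivity)
    have e4 : (3 : ℝ) ^ (-(ε * k)) * (3 : ℝ) ^ (ε * k) = 1 := by
      rw [← Real.rpow_add (by norm_num)]; simp
    have e5 : (3 : ℝ) ^ k * (4 / 3) ^ k = 4 ^ k := by rw [← mul_pow]; norm_num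
    rw [e1, e2]
    calc (3 : ℝ) ^ k * 3 ^ (-(ε * k)) * ((4 / 3) ^ k * (4 / 3 : ℝ) ^ (ε * k))
        = (3 ^ k * (4 / 3) ^ k) * (3 ^ (-(ε * k)) * (4 / 3 : ℝ) ^ (ε * k)) := by ring
      _ ≤ (3 ^ k * (4 / 3) ^ k) * (3 ^ (-(ε * k)) * (3 : ℝ) ^ (ε * k)) := by
          apply mul_le_mul_of_nonneg_left _ (by positivity)
          exact mul_le_mul_of_nonneg_left e3 (by positivity)
      _ = 4 ^ k := by rw [e4, e5, mul_one]
  exact le_of_mul_le_mul_right (h4.trans h3) hU0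

end Pool.Agent.LqFlat
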