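import Pool.Agent.LqFlat.Count

open Finset

namespace Pool.Agent.LqFlat

/-- pruned leaf counts, on the integers -/
noncomputable def cz : ℕ → ℤ → ℝ
  | 0, a => if a % 3 = 0 then 0 else 1
  | k + 1, a => cz k (2 * a) + if a % 3 = 2 then cz k ((2 * a - 1) / 3) else 0

lemma cz_per (k : ℕ) : Per (3 ^ (k + 1)) (cz k) := by
  induction k with
  | zero =>
    intro a
    unfold cz
    have : (a + ((3 ^ (0 + 1) : ℕ) : ℤ)) % 3 = a % 3 := by norm_num
    rw [this]
  | succ k ih =>
    intro a
    rw [cz, cz]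
    have e1 : cz k (2 * (a + ((3 ^ (k + 1 + 1) : ℕ) : ℤ))) = cz k (2 * a) := by
      apply ih.eq_of
      exact ⟨6, by push_cast; ring⟩
    have e2 : (a + ((3 ^ (k + 1 + 1) : ℕ) : ℤ)) % 3 = a % 3 := by
      push_cast
      rw [pow_succ]
      simp
    have e3 : cz k ((2 * (a + ((3 ^ (k + 1 + 1) : ℕ) : ℤ)) - 1) / 3) = cz k ((2 * a - 1) / 3) := by
      have h : (2 * (a + ((3 ^ (k + 1 + 1) : ℕ) : ℤ)) - 1)
          = (2 * a - 1) + 3 * (2 * 3 ^ (k + 1)) := by push_cast; ring
      rw [h, Int.add_mul_ediv_left _ _ (by norm_num)]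
      apply ih.eq_of
      exact ⟨2, by push_cast; ring⟩
    rw [e1, e2, e3]

lemma cz_sum (k : ℕ) : ∑ a ∈ range (3 ^ (k + 1)), cz k a = 2 * 4 ^ k := by
  induction k with
  | zero =>
    simp only [zero_add, pow_one, pow_zero, mul_one]
    rw [Finset.sum_range_succ, Finset.sum_range_succ, Finset.sum_range_succ, Finset.sum_range_zero]
    unfold cz
    norm_num
  | succ k ih =>
    have hne : NeZero (3 ^ (k + 1)) := ⟨by positivity⟩
    simp only [cz]
    rw [Finset.sum_add_distrib]
    have h1 : ∑ a ∈ range (3 ^ (k + 1 + 1)), cz k (2 * a) = 3 * (2 * 4 ^ k) := by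
      have h := sum_mul_range 3 (3 ^ (k + 1)) (fun a => cz k (2 * a))
      have e : 3 ^ (k + 1 + 1) = 3 * 3 ^ (k + 1) := by ring
      rw [e, h]
      have h2 : ∀ c : ℕ, ∑ x ∈ range 3, cz k (2 * ((c : ℤ) + ((3 ^ (k + 1) : ℕ) : ℤ) * x))
          = 3 * cz k (2 * c) := by
        intro c
        have h3 : ∀ x : ℕ, cz k (2 * ((c : ℤ) + ((3 ^ (k + 1) : ℕ) : ℤ) * x)) = cz k (2 * c) := by
          intro x
          apply (cz_per k).eq_of
          exact ⟨2 * x, by ring⟩
        simp only [h3, Finset.sum_const, card_range, nsmul_eq_mul]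
        norm_num
      simp only [h2]
      rw [← Finset.mul_sum]
      have h4 := sum_unit (cz_per k) (a := 2) (by
        have := isUnit_two_pow 1 (k + 1)
        simpa using this)
      rw [h4, ih]
    have h2 : ∑ a ∈ range (3 ^ (k + 1 + 1)), (if (a : ℤ) % 3 = 2 then cz k ((2 * a - 1) / 3) else 0)
        = 2 * 4 ^ k := by
      have h := sum_mul_range (3 ^ (k + 1)) 3 (fun a => if a % 3 = 2 then cz k ((2 * a - 1) / 3) else 0)
      rw [pow_succ, h]
      rw [Finset.sum_range_succ, Finset.sum_range_succ, Finset.sum_range_succ,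
        Finset.sum_range_zero]
      have z0 : ∑ x ∈ range (3 ^ (k + 1)), (if (((0 : ℕ) : ℤ) + ((3 : ℕ) : ℤ) * x) % 3 = 2 then
          cz k ((2 * (((0 : ℕ) : ℤ) + ((3 : ℕ) : ℤ) * x) - 1) / 3) else 0) = 0 := by
        apply Finset.sum_eq_zero
        intro x _
        rw [if_neg]; omega
      have z1 : ∑ x ∈ range (3 ^ (k + 1)), (if (((1 : ℕ) : ℤ) + ((3 : ℕ) : ℤ) * x) % 3 = 2 then
          cz k ((2 * (((1 : ℕ) : ℤ) + ((3 : ℕ) : ℤ) * x) - 1) / 3) else 0) = 0 := by
        apply Finset.sum_eq_zero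
        intro x _
        rw [if_neg]; omega
      have z2 : ∑ x ∈ range (3 ^ (k + 1)), (if (((2 : ℕ) : ℤ) + ((3 : ℕ) : ℤ) * x) % 3 = 2 then
          cz k ((2 * (((2 : ℕ) : ℤ) + ((3 : ℕ) : ℤ) * x) - 1) / 3) else 0)
          = ∑ x ∈ range (3 ^ (k + 1)), cz k (2 * x + 1) := by
        apply Finset.sum_congr rfl
        intro x _
        rw [if_pos (by omega)]
        congr 1
        omega
      rw [z0, z1, z2]
      have h4 := sum_unit ((cz_per k).comp_add 1) (a := 2) (by
        have := isUnit_two_pow 1 (k + 1)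
        simpa using this)
      rw [h4, sum_shift (cz_per k), ih]
      ring
    rw [h1, h2]
    ring

lemma cz_zero {a : ℤ} : ∀ (k : ℕ), a % 3 = 0 → cz k a = 0 := by
  intro k
  induction k generalizing a with
  | zero => intro h; unfold cz; rw [if_pos h]
  | succ k ih =>
    intro h
    rw [cz, ih (by omega), if_neg (by omega), add_zero]

lemma cz_ncard (k : ℕ) : ∀ a : ℕ, (({m : ℕ | tm^[k] m = a ∧ m % 3 ≠ 0}.ncard : ℕ) : ℝ) = cz k a := by
  induction k with
  | zero =>
    intro a
    unfold cz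
    by_cases h : a % 3 = 0
    · have : {m : ℕ | tm^[0] m = a ∧ m % 3 ≠ 0} = ∅ := by
        ext m
        simp only [Function.iterate_zero, id_eq, Set.mem_ofPred_eq, Set.mem_empty_iff_false,
          iff_false]
        rintro ⟨rfl, h2⟩
        exact h2 h
      rw [this, Set.ncard_empty, if_pos (by omega)]
      simp
    · have : {m : ℕ | tm^[0] m = a ∧ m % 3 ≠ 0} = {a} := by
        ext m
        simp only [Function.iterate_zero, id_eq, Set.mem_ofPred_eq, Set.mem_singleton_iff]
        constructor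
        · rintro ⟨rfl, _⟩; rfl
        · rintro rfl; exact ⟨rfl, h⟩
      rw [this, Set.ncard_singleton, if_neg (by omega)]
      simp
  | succ k ih =>
    intro a
    rw [cz]
    have hfin : ∀ b : ℕ, {m : ℕ | tm^[k] m = b ∧ m % 3 ≠ 0}.Finite := fun b =>
      (leaves_finite k b).subset fun m hm => hm.1
    by_cases h : a % 3 = 2
    · have hset : {m : ℕ | tm^[k + 1] m = a ∧ m % 3 ≠ 0}
          = {m : ℕ | tm^[k] m = 2 * a ∧ m % 3 ≠ 0} ∪ {m : ℕ | tm^[k] m = (2 * a - 1) / 3 ∧ m % 3 ≠ 0} := by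
        ext m
        simp only [Function.iterate_succ_apply', Set.mem_ofPred_eq, Set.mem_union, tm_eq]
        have : (3 * tm^[k] m + 1 = 2 * a) ↔ tm^[k] m = (2 * a - 1) / 3 := by omega
        rw [this]
        tauto
      rw [hset, Set.ncard_union_eq _ (hfin _) (hfin _)]
      · push_cast
        rw [ih, ih, if_pos (by omega)]
        congr 1
        congr 1
        push_cast
        omega
      · rw [Set.disjoint_left]
        rintro m ⟨h1, _⟩ ⟨h2, _⟩
        omega
    · have hset : {m : ℕ | tm^[k + 1] m = a ∧ m % 3 ≠ 0}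
          = {m : ℕ | tm^[k] m = 2 * a ∧ m % 3 ≠ 0} := by
        ext m
        simp only [Function.iterate_succ_apply', Set.mem_ofPred_eq, tm_eq]
        have : ¬ (3 * tm^[k] m + 1 = 2 * a) := by omega
        tauto
      rw [hset, ih, if_neg (by omega), add_zero]
      push_cast
      rfl

end Pool.Agent.LqFlat
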