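import Pool.Agent.LqFlat.Tail

open Finset

namespace Pool.Agent.LqFlat

lemma T_assoc {M : ℕ} [NeZero M] {a b g : ℤ → ℝ} (hb : Per M b) (hg : Per M g) (y : ℤ) :
    T M (T M a b) g y = T M a (T M b g) y := by
  unfold T
  simp only [Finset.sum_mul, Finset.mul_sum]
  rw [Finset.sum_comm]
  apply Finset.sum_congr rfl
  intro d _
  have hp : Per M fun c : ℤ => a d * b (c - d) * g (y - c) := by
    intro c
    have e1 : b (c + M - d) = b (c - d) := hb.eq_of ⟨1, by ring⟩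
    have e2 : g (y - (c + M)) = g (y - c) := hg.eq_of ⟨-1, by ring⟩
    simp only [e1, e2]
  have h := sum_shift hp (d : ℤ)
  rw [← h]
  apply Finset.sum_congr rfl
  intro c _
  have e1 : (c : ℤ) + d - d = c := by ring
  have e2 : y - ((c : ℤ) + d) = y - d - c := by ring
  rw [e1, e2]; ring

/-- inner product modulo `M` -/
def ip (M : ℕ) (f g : ℤ → ℝ) : ℝ := ∑ y ∈ range M, f y * g y

/-- reflection -/
def rf (τ : ℤ → ℝ) : ℤ → ℝ := fun x => τ (-x)

lemma rf_rf (τ : ℤ → ℝ) : rf (rf τ) = τ := by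
  ext x; simp [rf]

lemma rf_per {M : ℕ} {τ : ℤ → ℝ} (hτ : Per M τ) : Per M (rf τ) := by
  have := hτ.comp_sub 0
  simpa [rf] using this

lemma T_adj {M : ℕ} [NeZero M] {τ f g : ℤ → ℝ} (hτ : Per M τ) (hf : Per M f) (hg : Per M g) :
    ip M (T M τ f) g = ip M f (T M (rf τ) g) := by
  unfold ip T
  simp only [Finset.sum_mul, Finset.mul_sum]
  rw [Finset.sum_comm]
  have h1 : ∀ c : ℤ, ∑ y ∈ range M, τ c * f (y - c) * g y
      = ∑ y ∈ range M, f y * (τ c * g (y + c)) := by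
    intro c
    have hp : Per M fun y : ℤ => τ c * f (y - c) * g y := by
      intro y
      have e1 : f (y + M - c) = f (y - c) := hf.eq_of ⟨1, by ring⟩
      have e2 : g (y + M) = g y := hg y
      simp only [e1, e2]
    rw [← sum_shift hp c]
    apply Finset.sum_congr rfl
    intro y _
    have e1 : (y : ℤ) + c - c = y := by ring
    rw [e1]; ring
  simp only [h1]
  rw [Finset.sum_comm]
  apply Finset.sum_congr rfl
  intro y _
  have hp : Per M fun c : ℤ => f y * (τ c * g (y + c)) := by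
    intro c
    have e1 : g (y + (c + M)) = g (y + c) := hg.eq_of ⟨1, by ring⟩
    have e2 : τ (c + M) = τ c := hτ c
    simp only [e1, e2]
  rw [← sum_refl hp 0]
  apply Finset.sum_congr rfl
  intro c _
  simp only [rf, sub_eq_add_neg, zero_add]

/-- symmetrisation -/
def sy (M : ℕ) (τ : ℤ → ℝ) : ℤ → ℝ := T M (rf τ) τ

lemma ip_comm (M : ℕ) (f g : ℤ → ℝ) : ip M f g = ip M g f := by
  unfold ip
  exact Finset.sum_congr rfl fun y _ => mul_comm _ _

lemma sy_ip {M : ℕ} [NeZero M] {τ f g : ℤ → ℝ} (hτ : Per M τ) (hf : Per M f) (hg : Per M g) :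
    ip M (T M (sy M τ) f) g = ip M (T M τ f) (T M τ g) := by
  have h1 : T M (sy M τ) f = T M (rf τ) (T M τ f) := by
    ext y; exact T_assoc hτ hf y
  rw [h1, T_adj (rf_per hτ) (T_per hf) hg, rf_rf]

lemma sy_adj {M : ℕ} [NeZero M] {τ f g : ℤ → ℝ} (hτ : Per M τ) (hf : Per M f) (hg : Per M g) :
    ip M (T M (sy M τ) f) g = ip M f (T M (sy M τ) g) := by
  rw [sy_ip hτ hf hg, ip_comm M f, sy_ip hτ hg hf, ip_comm]

lemma it_per {M : ℕ} {s f : ℤ → ℝ} (hf : Per M f) (i : ℕ) : Per M ((T M s)^[i] f) := by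
  induction i with
  | zero => exact hf
  | succ i ih =>
    rw [Function.iterate_succ_apply']
    exact T_per ih

lemma ip_it {M : ℕ} [NeZero M] {τ f g : ℤ → ℝ} (hτ : Per M τ) (hf : Per M f) (hg : Per M g)
    (i : ℕ) : ip M ((T M (sy M τ))^[i] f) g = ip M f ((T M (sy M τ))^[i] g) := by
  induction i generalizing f g with
  | zero => rfl
  | succ i ih =>
    rw [Function.iterate_succ_apply', sy_adj hτ (it_per hf i) hg, ih hf (T_per hg),
      ← Function.iterate_succ_apply]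

lemma ip_sq_le (M : ℕ) (f g : ℤ → ℝ) : ip M f g ^ 2 ≤ sq2 M f * sq2 M g := by
  unfold ip sq2
  exact Finset.sum_mul_sq_le_sq_mul_sq _ _ _

lemma ip_self (M : ℕ) (f : ℤ → ℝ) : ip M f f = sq2 M f := by
  unfold ip sq2
  exact Finset.sum_congr rfl fun y _ => (sq _).symm

lemma sy_nonneg {M : ℕ} {τ : ℤ → ℝ} (hτ : ∀ x, 0 ≤ τ x) : ∀ x, 0 ≤ sy M τ x := fun x =>
  T_nonneg (fun _ => hτ _) hτ x

lemma it_nonneg {M : ℕ} {s f : ℤ → ℝ} (hs : ∀ x, 0 ≤ s x) (hf : ∀ x, 0 ≤ f x) (i : ℕ) :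
    ∀ x, 0 ≤ (T M s)^[i] f x := by
  induction i with
  | zero => exact hf
  | succ i ih =>
    rw [Function.iterate_succ_apply']
    exact fun x => T_nonneg hs ih x

/-- spectral lower bound -/
lemma spec {M : ℕ} [NeZero M] {τ f : ℤ → ℝ} (hτ0 : ∀ x, 0 ≤ τ x) (hτ : Per M τ)
    (hf0 : ∀ x, 0 ≤ f x) (hf : Per M f) {R : ℝ} (hR : 0 ≤ R)
    (h : R * sq2 M f ≤ sq2 M (T M τ f)) (j : ℕ) :
    R ^ (2 ^ j) * sq2 M f ≤ ip M ((T M (sy M τ))^[2 ^ j] f) f := by
  have hF := sq2_nonneg M f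
  rcases hF.eq_or_lt with h0 | hpos
  · rw [← h0, mul_zero]
    unfold ip
    exact Finset.sum_nonneg fun y _ => mul_nonneg (it_nonneg (sy_nonneg hτ0) hf0 _ _) (hf0 _)
  induction j with
  | zero =>
    simp only [pow_zero, pow_one, Function.iterate_one]
    rw [sy_ip hτ hf hf, ip_self]
    exact h
  | succ j ih =>
    set a := ip M ((T M (sy M τ))^[2 ^ j] f) f with ha
    have h1 : ip M ((T M (sy M τ))^[2 ^ (j + 1)] f) f = sq2 M ((T M (sy M τ))^[2 ^ j] f) := by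
      rw [← ip_self, pow_succ, mul_two, Function.iterate_add_apply]
      rw [ip_it hτ (it_per hf _) hf]
    rw [h1]
    have h2 := ip_sq_le M ((T M (sy M τ))^[2 ^ j] f) f
    rw [← ha] at h2
    have h3 : (R ^ (2 ^ j) * sq2 M f) ^ 2 ≤ a ^ 2 :=
      pow_le_pow_left₀ (mul_nonneg (pow_nonneg hR _) hF) ih 2
    have h4 : (R ^ (2 ^ (j + 1)) * sq2 M f) * sq2 M f
        ≤ sq2 M ((T M (sy M τ))^[2 ^ j] f) * sq2 M f := by
      refine le_trans (le_of_eq ?_) (h3.trans h2)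
      rw [pow_succ 2 j, pow_mul]; ring
    exact le_of_mul_le_mul_right h4 hpos

lemma CK_it {M : ℕ} (s f : ℤ → ℝ) (K : ℕ) : CK K M (fun _ => s) f = (T M s)^[K] f := by
  induction K with
  | zero => ext y; exact CK_zero _ _ _ _
  | succ K ih =>
    ext y
    rw [CK_succ, Function.iterate_succ_apply', ← ih]

/-- Hölder on an indicator -/
lemma holder_ind {M q : ℕ} (hq : 1 ≤ q) {f g : ℤ → ℝ} (hf : ∀ x, f x = 0 ∨ f x = 1)
    (hg : ∀ x, 0 ≤ g x) (hpos : 0 < sq2 M f) :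
    (ip M g f) ^ q ≤ sq2 M f ^ (q - 1) * ∑ y ∈ range M, g y ^ q := by
  have hf2 : ∀ x, f x ^ 2 = f x := by
    intro x; rcases hf x with h | h <;> rw [h] <;> norm_num
  have hf0 : ∀ x, 0 ≤ f x := by
    intro x; rcases hf x with h | h <;> rw [h]; norm_num
  have hf1 : ∀ x, f x ≤ 1 := by
    intro x; rcases hf x with h | h <;> rw [h]; norm_num
  have hN : ∑ y ∈ range M, f y = sq2 M f := by
    unfold sq2
    exact Finset.sum_congr rfl fun y _ => (hf2 _).symm
  set N := sq2 M f with hNdef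
  have h1 := Real.pow_arith_mean_le_arith_mean_pow (range M) (fun y : ℕ => f y / N)
    (fun y : ℕ => g y) (fun y _ => div_nonneg (hf0 _) hpos.le)
    (by rw [← Finset.sum_div, hN, div_self hpos.ne']) (fun y _ => hg _) q
  have h2 : ∑ y ∈ range M, f y / N * g y = ip M g f / N := by
    unfold ip
    rw [Finset.sum_div]
    exact Finset.sum_congr rfl fun y _ => by ring
  have h3 : ∑ y ∈ range M, f y / N * g y ^ q ≤ (∑ y ∈ range M, g y ^ q) / N := by
    rw [Finset.sum_div]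
    apply Finset.sum_le_sum
    intro y _
    rw [div_mul_eq_mul_div]
    apply div_le_div_of_nonneg_right _ hpos.le
    have := mul_le_mul_of_nonneg_right (hf1 y) (pow_nonneg (hg y) q)
    linarith
  rw [h2, div_pow] at h1
  have h4 := h1.trans h3
  rw [div_le_div_iff₀ (by positivity) hpos] at h4
  obtain ⟨r, rfl⟩ : ∃ r, q = r + 1 := ⟨q - 1, by omega⟩
  rw [Nat.add_sub_cancel]
  rw [pow_succ N r] at h4
  have h5 : (ip M g f ^ (r + 1)) * N ≤ (N ^ r * ∑ y ∈ range M, g y ^ (r + 1)) * N := by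
    refine h4.trans (le_of_eq ?_); ring
  exact le_of_mul_le_mul_right h5 hpos

lemma spec_ind {M q : ℕ} [NeZero M] (hq : 2 ≤ q) {τ f : ℤ → ℝ} (hτ0 : ∀ x, 0 ≤ τ x)
    (hτ : Per M τ) (hm : mass M τ = 1) (hf : ∀ x, f x = 0 ∨ f x = 1) (hfp : Per M f)
    {R : ℝ} (hR : 0 ≤ R) (h : R * sq2 M f ≤ ∑ y ∈ range M, (T M τ f y) ^ q) (j : ℕ) :
    R ^ (2 ^ j * q) * sq2 M f
      ≤ ∑ y ∈ range M, (CK (2 ^ j) M (fun _ => sy M τ) f y) ^ q := by
  have hf0 : ∀ x, 0 ≤ f x := by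
    intro x; rcases hf x with h | h <;> rw [h]; norm_num
  have hf1 : ∀ x, f x ≤ 1 := by
    intro x; rcases hf x with h | h <;> rw [h]; norm_num
  rcases (sq2_nonneg M f).eq_or_lt with h0 | hpos
  · rw [← h0, mul_zero]
    exact Finset.sum_nonneg fun y _ => pow_nonneg (CK_nonneg (fun _ => sy_nonneg hτ0) hf0 _) _
  have hT0 : ∀ y, 0 ≤ T M τ f y := T_nonneg hτ0 hf0
  have hT1 : ∀ y, T M τ f y ≤ 1 := by
    intro y
    unfold T
    rw [← hm]
    unfold mass
    apply Finset.sum_le_sum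
    intro c _
    have := mul_le_mul_of_nonneg_left (hf1 (y - c)) (hτ0 c)
    linarith
  have h1 : R * sq2 M f ≤ sq2 M (T M τ f) := by
    refine h.trans ?_
    unfold sq2
    apply Finset.sum_le_sum
    intro y _
    exact pow_le_pow_of_le_one (hT0 y) (hT1 y) hq
  have h2 := spec hτ0 hτ hf0 hfp hR h1 j
  have h3 := holder_ind (M := M) (q := q) (by omega) hf
    (g := (T M (sy M τ))^[2 ^ j] f) (it_nonneg (M := M) (sy_nonneg hτ0) hf0 (2 ^ j)) hpos
  rw [CK_it]
  have h4 : (R ^ 2 ^ j * sq2 M f) ^ q ≤ (ip M ((T M (sy M τ))^[2 ^ j] f) f) ^ q :=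
    pow_le_pow_left₀ (mul_nonneg (pow_nonneg hR _) hpos.le) h2 q
  have h5 := h4.trans h3
  have h6 : sq2 M f ^ (q - 1) * (R ^ (2 ^ j * q) * sq2 M f)
      ≤ sq2 M f ^ (q - 1) * ∑ y ∈ range M, ((T M (sy M τ))^[2 ^ j] f y) ^ q := by
    refine le_trans (le_of_eq ?_) h5
    obtain ⟨r, rfl⟩ : ∃ r, q = r + 1 := ⟨q - 1, by omega⟩
    rw [Nat.add_sub_cancel, pow_mul]; ring
  exact le_of_mul_le_mul_left h6 (pow_pos hpos _)

open Classical in
/-- dyadic level set -/
noncomputable def lev (μ : ℤ → ℝ) (i : ℕ) : ℤ → ℝ := fun x =>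
  if (1 / 2 : ℝ) ^ (i + 1) < μ x ∧ μ x ≤ (1 / 2 : ℝ) ^ i then 1 else 0

lemma lev_or (μ : ℤ → ℝ) (i : ℕ) (x : ℤ) : lev μ i x = 0 ∨ lev μ i x = 1 := by
  unfold lev
  split_ifs
  · exact Or.inr rfl
  · exact Or.inl rfl

lemma lev_per {M : ℕ} {μ : ℤ → ℝ} (hμ : Per M μ) (i : ℕ) : Per M (lev μ i) := by
  intro x
  unfold lev
  rw [hμ x]

lemma lev_le {μ : ℤ → ℝ} (hμ : ∀ x, 0 ≤ μ x) (i : ℕ) (x : ℤ) :
    (1 / 2 : ℝ) ^ (i + 1) * lev μ i x ≤ μ x := by
  unfold lev
  split_ifs with h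
  · linarith [h.1]
  · rw [mul_zero]; exact hμ x

lemma le_lev {μ : ℤ → ℝ} (hμ : ∀ x, 0 ≤ μ x) (hμ1 : ∀ x, μ x ≤ 1) (J : ℕ) (x : ℤ) :
    μ x ≤ ∑ i ∈ range J, (1 / 2 : ℝ) ^ i * lev μ i x + (1 / 2 : ℝ) ^ J := by
  by_cases h : μ x ≤ (1 / 2 : ℝ) ^ J
  · have : 0 ≤ ∑ i ∈ range J, (1 / 2 : ℝ) ^ i * lev μ i x := by
      apply Finset.sum_nonneg
      intro i _
      rcases lev_or μ i x with h | h <;> rw [h] <;> positivity
    linarith
  · have hex : ∃ i, i < J ∧ (1 / 2 : ℝ) ^ (i + 1) < μ x ∧ μ x ≤ (1 / 2 : ℝ) ^ i := by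
      clear * - h hμ1
      induction J with
      | zero => exfalso; apply h; simpa using hμ1 x
      | succ J ih =>
        push Not at h
        by_cases h2 : μ x ≤ (1 / 2 : ℝ) ^ J
        · exact ⟨J, by omega, h, h2⟩
        · obtain ⟨i, hi, hi2⟩ := ih h2
          exact ⟨i, by omega, hi2⟩
    obtain ⟨i, hi, hi2⟩ := hex
    have h1 : (1 / 2 : ℝ) ^ i * lev μ i x ≤ ∑ i ∈ range J, (1 / 2 : ℝ) ^ i * lev μ i x := by
      apply Finset.single_le_sum (f := fun i => (1 / 2 : ℝ) ^ i * lev μ i x) _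
        (Finset.mem_range.2 hi)
      intro i _
      rcases lev_or μ i x with h | h <;> simp only [h] <;> positivity
    have h2 : lev μ i x = 1 := by unfold lev; rw [if_pos hi2]
    rw [h2, mul_one] at h1
    have h3 : (0 : ℝ) ≤ (1 / 2 : ℝ) ^ J := by positivity
    linarith [hi2.2]

/-- the flattening alternative -/
theorem flat {M q J j : ℕ} [NeZero M] (hq : 2 ≤ q) {τ μ : ℤ → ℝ} (hτ0 : ∀ x, 0 ≤ τ x)
    (hτ : Per M τ) (hm : mass M τ = 1) (hμ0 : ∀ x, 0 ≤ μ x) (hμ1 : ∀ x, μ x ≤ 1)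
    (hμ : Per M μ) {S ρ : ℝ} (hS : 0 < S) (hρ : 0 ≤ ρ) (hρ1 : ρ ≤ 1)
    (h1 : ∑ y ∈ range M, μ y ^ q ≤ S ^ q) (hJ : M * ((1 / 2 : ℝ) ^ J) ^ q ≤ (2 * ρ * S) ^ q)
    (h2 : ((J + 1) * (2 * ρ * S)) ^ q < ∑ y ∈ range M, (T M τ μ y) ^ q) :
    (ρ ^ (2 ^ j * q) * S) ^ q
      ≤ ∑ y ∈ range M, (CK (2 ^ j) M (fun _ => sy M τ) μ y) ^ q := by
  have hq0 : q ≠ 0 := by omega
  -- some level set is large
  have hex : ∃ i, (2 * ρ * S) ^ q < ∑ y ∈ range M, ((1 / 2 : ℝ) ^ i * T M τ (lev μ i) y) ^ q := by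
    by_contra hcon
    push Not at hcon
    have hlev0 : ∀ i x, 0 ≤ lev μ i x := by
      intro i x
      rcases lev_or μ i x with h | h <;> rw [h]; norm_num
    have h3 := mink (q := q) (by omega) (range (J + 1)) (range M)
      (fun i y => if i < J then (1 / 2 : ℝ) ^ i * T M τ (lev μ i) y else (1 / 2 : ℝ) ^ J)
      (fun _ => 2 * ρ * S) (by
        intro i _ y _
        split_ifs
        · exact mul_nonneg (by positivity) (T_nonneg hτ0 (hlev0 i) _)
        · positivity) (fun i _ => by positivity) (by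
        intro i _
        split_ifs with hi
        · exact hcon i
        · simp only [Finset.sum_const, card_range, nsmul_eq_mul]
          exact hJ)
    have h4 : ∑ y ∈ range M, (T M τ μ y) ^ q ≤ ((J + 1) * (2 * ρ * S)) ^ q := by
      have e1 : ∑ i ∈ range (J + 1), 2 * ρ * S = (J + 1) * (2 * ρ * S) := by
        simp
      rw [e1] at h3
      refine le_trans (Finset.sum_le_sum fun y _ => pow_le_pow_left₀ (T_nonneg hτ0 hμ0 _) ?_ q) h3
      rw [Finset.sum_range_succ, if_neg (lt_irrefl J)]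
      have e2 : ∑ i ∈ range J, (if i < J then (1 / 2 : ℝ) ^ i * T M τ (lev μ i) y
          else (1 / 2 : ℝ) ^ J) = ∑ i ∈ range J, (1 / 2 : ℝ) ^ i * T M τ (lev μ i) y := by
        apply Finset.sum_congr rfl
        intro i hi
        rw [if_pos (Finset.mem_range.1 hi)]
      rw [e2]
      have e3 : (1 / 2 : ℝ) ^ J = ∑ c ∈ range M, τ c * (1 / 2 : ℝ) ^ J := by
        rw [← Finset.sum_mul]
        have : ∑ c ∈ range M, τ c = 1 := hm
        rw [this, one_mul]
      rw [e3]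
      unfold T
      simp only [Finset.mul_sum]
      rw [Finset.sum_comm, ← Finset.sum_add_distrib]
      apply Finset.sum_le_sum
      intro c _
      have h5 := mul_le_mul_of_nonneg_left (le_lev hμ0 hμ1 J (y - c)) (hτ0 c)
      refine h5.trans (le_of_eq ?_)
      rw [mul_add, Finset.mul_sum]
      congr 1
      apply Finset.sum_congr rfl
      intro i _
      ring
    exact absurd h4 (not_le.2 h2)
  obtain ⟨i, hi⟩ := hex
  set f := lev μ i with hf
  have hfor := lev_or μ i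
  rw [← hf] at hfor
  have hfp : Per M f := lev_per hμ i
  have hf0 : ∀ x, 0 ≤ f x := by
    intro x; rcases hfor x with h | h <;> rw [h]; norm_num
  set t : ℝ := (1 / 2 : ℝ) ^ i with ht
  have ht0 : 0 < t := by positivity
  simp only [mul_pow t] at hi
  rw [← Finset.mul_sum] at hi
  set R0 := ∑ y ∈ range M, (T M τ f y) ^ q with hR0
  have hR0pos : 0 < R0 := by
    have : 0 ≤ (2 * ρ * S) ^ q := by positivity
    by_contra hcon
    push Not at hcon
    have := mul_nonpos_of_nonneg_of_nonpos (pow_nonneg ht0.le q) hcon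
    linarith
  -- size of the level set
  have hN1 : (t / 2) ^ q * sq2 M f ≤ S ^ q := by
    refine le_trans ?_ h1
    unfold sq2
    rw [Finset.mul_sum]
    apply Finset.sum_le_sum
    intro y _
    have h5 := lev_le hμ0 i y
    rw [← hf] at h5
    have h6 : (1 / 2 : ℝ) ^ (i + 1) = t / 2 := by rw [pow_succ, ht]; ring
    rw [h6] at h5
    rcases hfor y with h | h
    · rw [h]
      simp only [ne_eq, OfNat.ofNat_ne_zero, not_false_eq_true, zero_pow, mul_zero]
      exact pow_nonneg (hμ0 _) q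
    · rw [h] at h5 ⊢
      rw [one_pow, mul_one]
      rw [mul_one] at h5
      exact pow_le_pow_left₀ (by positivity) h5 q
  have hNpos : 0 < sq2 M f := by
    by_contra hcon
    have h0 : sq2 M f = 0 := le_antisymm (not_lt.1 hcon) (sq2_nonneg M f)
    have hz : ∀ y ∈ range M, f y = 0 := by
      intro y hy
      unfold sq2 at h0
      have h7 : f y ^ 2 = 0 := (Finset.sum_eq_zero_iff_of_nonneg
        (f := fun y : ℕ => f y ^ 2) (fun y _ => sq_nonneg (f y))).1 h0 y hy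
      exact pow_eq_zero_iff (by norm_num) |>.1 h7
    have hz' : ∀ x : ℤ, f x = 0 := by
      intro x
      have hM : (M : ℤ) ≠ 0 := by exact_mod_cast (NeZero.ne M)
      have hMp : (0 : ℤ) < M := by have := NeZero.pos M; exact_mod_cast this
      have h8 : 0 ≤ x % (M : ℤ) := Int.emod_nonneg _ hM
      have h9 : x % (M : ℤ) < M := Int.emod_lt_of_pos _ hMp
      have h10 := hz (x % (M : ℤ)).toNat (Finset.mem_range.2 (by omega))
      rw [Int.toNat_of_nonneg h8] at h10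
      rw [← h10]
      apply hfp.eq_of
      exact Int.dvd_self_sub_emod
    have h11 : R0 = 0 := by
      rw [hR0]
      apply Finset.sum_eq_zero
      intro y _
      have : T M τ f y = 0 := by
        unfold T
        exact Finset.sum_eq_zero fun c _ => by rw [hz', mul_zero]
      rw [this, zero_pow hq0]
    linarith
  set R := R0 / sq2 M f with hR
  have hRpos : 0 < R := div_pos hR0pos hNpos
  have hRN : R * sq2 M f = R0 := div_mul_cancel₀ _ hNpos.ne'
  have h8 := spec_ind hq hτ0 hτ hm hfor hfp hRpos.le hRN.le j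
  -- lower bound for `R`
  have hRρ : ρ ^ q ≤ R := by
    have h9 : ρ ^ q * ((t / 2) ^ q * sq2 M f) ≤ ρ ^ q * S ^ q :=
      mul_le_mul_of_nonneg_left hN1 (pow_nonneg hρ q)
    have h10 : ρ ^ q * S ^ q = (1 / 2) ^ q * (2 * ρ * S) ^ q := by
      rw [← mul_pow, ← mul_pow]; congr 1; ring
    have h11 : (1 / 2) ^ q * (2 * ρ * S) ^ q ≤ (1 / 2) ^ q * (t ^ q * R0) :=
      mul_le_mul_of_nonneg_left hi.le (by positivity)
    rw [← hRN] at h11
    have h12 : (ρ ^ q) * ((t / 2) ^ q * sq2 M f) ≤ R * ((t / 2) ^ q * sq2 M f) := by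
      refine h9.trans (h10.le.trans (h11.trans (le_of_eq ?_)))
      rw [div_pow t]
      rw [one_div, inv_pow]
      field_simp
    exact le_of_mul_le_mul_right h12 (by positivity)
  -- conclusion
  have h13 : (t / 2) ^ q * (∑ y ∈ range M, (CK (2 ^ j) M (fun _ => sy M τ) f y) ^ q)
      ≤ ∑ y ∈ range M, (CK (2 ^ j) M (fun _ => sy M τ) μ y) ^ q := by
    rw [Finset.mul_sum]
    apply Finset.sum_le_sum
    intro y _
    rw [← mul_pow]
    apply pow_le_pow_left₀
    · exact mul_nonneg (by positivity) (CK_nonneg (fun _ => sy_nonneg hτ0) hf0 _)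
    · unfold CK
      rw [Finset.mul_sum]
      apply Finset.sum_le_sum
      intro c _
      have h14 := lev_le hμ0 i (y - ∑ i, (c i : ℤ))
      rw [← hf] at h14
      have h6 : (1 / 2 : ℝ) ^ (i + 1) = t / 2 := by rw [pow_succ, ht]; ring
      rw [h6] at h14
      have h15 : 0 ≤ ∏ i, sy M τ (c i) := Finset.prod_nonneg fun _ _ => sy_nonneg hτ0 _
      have := mul_le_mul_of_nonneg_left h14 h15
      refine le_trans (le_of_eq ?_) this
      ring
  refine le_trans ?_ h13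
  refine le_trans ?_ (mul_le_mul_of_nonneg_left h8 (by positivity))
  obtain ⟨n, hn⟩ : ∃ n, 2 ^ j * q = n + 1 := ⟨2 ^ j * q - 1, by
    have : 0 < 2 ^ j * q := by positivity
    omega⟩
  rw [hn, pow_succ R n, mul_assoc (R ^ n), hRN]
  have h16 : (ρ ^ q) ^ n ≤ R ^ n := pow_le_pow_left₀ (pow_nonneg hρ q) hRρ n
  have h17 : (2 * ρ * S) ^ q * (1 / 2) ^ q ≤ (t / 2) ^ q * R0 := by
    refine (mul_le_mul_of_nonneg_right hi.le (by positivity)).trans (le_of_eq ?_)
    rw [div_pow t, one_div, inv_pow]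
    field_simp
  have h18 : (2 * ρ * S) ^ q * (1 / 2) ^ q = (ρ * S) ^ q := by
    rw [← mul_pow]; congr 1; ring
  rw [h18] at h17
  calc (ρ ^ (n + 1) * S) ^ q = (ρ ^ q) ^ n * (ρ * S) ^ q := by
        rw [← pow_mul, mul_pow, mul_pow, ← pow_mul, add_mul, one_mul, pow_add, mul_comm q n]
        ring
    _ ≤ R ^ n * ((t / 2) ^ q * R0) := mul_le_mul h16 h17 (by positivity) (by positivity)
    _ = _ := by ring

end Pool.Agent.LqFlat
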