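import Pool.Agent.LqFlat.Tree

open Finset

namespace Pool.Agent.LqFlat

open Classical in
/-- number of branching blocks along the path of `x` -/
noncomputable def Br (D : ℕ) : ℕ → (ℤ → ℝ) → ℕ → ℕ
  | 0, _, _ => 0
  | L + 1, τ, x => (if bra D L τ then 1 else 0) +
      Br D L (sl (3 ^ D) ((x % 3 ^ D : ℕ) : ℤ) τ) (x / 3 ^ D)

/-- number of good levels -/
noncomputable def gd {K : ℕ} (D k : ℕ) : ℕ → (Fin K → ℤ → ℝ) → (Fin K → ℕ) → ℕ
  | 0, _, _ => 0
  | L + 1, τ, x => (if k ≤ nb D L τ then 1 else 0) +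
      gd D k L (fun i => sl (3 ^ D) ((x i % 3 ^ D : ℕ) : ℤ) (τ i)) (fun i => x i / 3 ^ D)

lemma gd_le {K : ℕ} (D k : ℕ) : ∀ (L : ℕ) (τ : Fin K → ℤ → ℝ) (x : Fin K → ℕ),
    gd D k L τ x ≤ 2 * cnt D k L τ x + 1 := by
  intro L
  induction L using Nat.strong_induction_on with
  | _ L ih =>
    intro τ x
    rcases L with _ | _ | L
    · simp [gd]
    · simp only [gd, cnt]; split_ifs <;> simp
    · by_cases hg : k ≤ nb D (L + 1) τ
      · have h1 : gd D k (L + 1 + 1) τ x ≤ 2 + gd D k L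
            (fun i => sl (3 ^ D * 3 ^ D) ((x i % (3 ^ D * 3 ^ D) : ℕ) : ℤ) (τ i))
            (fun i => x i / (3 ^ D * 3 ^ D)) := by
          rw [gd, gd]
          have e1 : (fun i => sl (3 ^ D) ((x i / 3 ^ D % 3 ^ D : ℕ) : ℤ)
              (sl (3 ^ D) ((x i % 3 ^ D : ℕ) : ℤ) (τ i)))
              = fun i => sl (3 ^ D * 3 ^ D) ((x i % (3 ^ D * 3 ^ D) : ℕ) : ℤ) (τ i) := by
            ext i y
            rw [sl_sl, Nat.mod_mul]
            push_cast; rfl
          have e2 : (fun i => x i / 3 ^ D / 3 ^ D) = fun i => x i / (3 ^ D * 3 ^ D) := by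
            ext i; rw [Nat.div_div_eq_div_mul]
          rw [e1, e2]
          split_ifs <;> omega
        have h2 := ih L (by omega)
          (fun i => sl (3 ^ D * 3 ^ D) ((x i % (3 ^ D * 3 ^ D) : ℕ) : ℤ) (τ i))
          (fun i => x i / (3 ^ D * 3 ^ D))
        rw [cnt, if_pos hg]
        omega
      · rw [cnt, if_neg hg, gd, if_neg hg]
        have := ih (L + 1) (by omega) (fun i => sl (3 ^ D) ((x i % 3 ^ D : ℕ) : ℤ) (τ i))
          (fun i => x i / 3 ^ D)
        omega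

open Classical in
lemma sum_Br_le {K : ℕ} (D k : ℕ) : ∀ (L : ℕ) (τ : Fin K → ℤ → ℝ) (x : Fin K → ℕ),
    ∑ i, Br D L (τ i) (x i) ≤ K * gd D k L τ x + k * L := by
  intro L
  induction L with
  | zero => intro τ x; simp [Br, gd]
  | succ L ih =>
    intro τ x
    simp only [Br, gd]
    rw [Finset.sum_add_distrib]
    have h1 := ih (fun i => sl (3 ^ D) ((x i % 3 ^ D : ℕ) : ℤ) (τ i)) (fun i => x i / 3 ^ D)
    have h2 : ∑ i, (if bra D L (τ i) then 1 else 0) = nb D L τ := by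
      unfold nb
      rw [Finset.card_filter]
    rw [h2]
    have h3 : nb D L τ ≤ K := by
      unfold nb
      refine (Finset.card_le_univ _).trans ?_
      simp
    split_ifs with hk
    · nlinarith
    · push Not at hk
      nlinarith

open Classical in
lemma sum_sqrt_le (D : ℕ) : ∀ (L : ℕ) (τ : ℤ → ℝ), (∀ x, 0 ≤ τ x) →
    ∑ x ∈ range ((3 ^ D) ^ L), √(τ x) * (√((3 : ℝ) ^ D))⁻¹ ^ (Br D L τ x)
      ≤ 2 ^ L * √(mass ((3 ^ D) ^ L) τ) := by
  intro L
  induction L with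
  | zero =>
    intro τ _
    simp [Br, mass]
  | succ L ih =>
    intro τ hτ
    set s : ℝ := (√((3 : ℝ) ^ D))⁻¹ with hs
    have hs0 : 0 ≤ s := inv_nonneg.2 (Real.sqrt_nonneg _)
    have hPpos : (0 : ℝ) < (3 : ℝ) ^ D := by positivity
    rw [pow_succ (3 ^ D) L]
    have hsum : ∑ x ∈ range ((3 ^ D) ^ L * 3 ^ D), √(τ x) * s ^ (Br D (L + 1) τ x)
        = ∑ c ∈ range (3 ^ D), ∑ x ∈ range ((3 ^ D) ^ L),
          √(τ ((c : ℤ) + (3 ^ D : ℕ) * x)) * s ^ (Br D (L + 1) τ (c + 3 ^ D * x)) := by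
      have := sum_mul_range ((3 ^ D) ^ L) (3 ^ D)
        (fun x => √(τ x) * s ^ (Br D (L + 1) τ x.toNat))
      simp only [Int.toNat_natCast] at this
      rw [this]
      apply Finset.sum_congr rfl
      intro c _
      apply Finset.sum_congr rfl
      intro x _
      have e : ((c : ℤ) + ((3 ^ D : ℕ) : ℤ) * (x : ℤ)).toNat = c + 3 ^ D * x := by
        rw [← Nat.cast_mul, ← Nat.cast_add, Int.toNat_natCast]
      rw [e]
    rw [hsum]
    set w : ℝ := if bra D L τ then s else 1 with hw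
    have hw0 : 0 ≤ w := by rw [hw]; split_ifs <;> [exact hs0; norm_num]
    have h1 : ∀ c ∈ range (3 ^ D), ∑ x ∈ range ((3 ^ D) ^ L),
          √(τ ((c : ℤ) + (3 ^ D : ℕ) * x)) * s ^ (Br D (L + 1) τ (c + 3 ^ D * x))
        ≤ w * (2 ^ L * √(mass ((3 ^ D) ^ L) (sl (3 ^ D) c τ))) := by
      intro c hc
      have hc' : c < 3 ^ D := Finset.mem_range.1 hc
      refine le_trans (le_of_eq ?_) (mul_le_mul_of_nonneg_left
        (ih (sl (3 ^ D) c τ) fun x => hτ _) hw0)
      rw [Finset.mul_sum]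
      apply Finset.sum_congr rfl
      intro x _
      rw [Br, Nat.add_mul_mod_self_left, Nat.mod_eq_of_lt hc',
        Nat.add_mul_div_left _ _ (by positivity), Nat.div_eq_of_lt hc', zero_add, pow_add]
      have e : s ^ (if bra D L τ then 1 else 0) = w := by
        rw [hw]; split_ifs <;> simp
      rw [e]
      unfold sl
      ring
    refine (Finset.sum_le_sum h1).trans ?_
    rw [← Finset.mul_sum, ← Finset.mul_sum]
    set m : ℕ → ℝ := fun c => mass ((3 ^ D) ^ L) (sl (3 ^ D) c τ) with hm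
    set M := mass ((3 ^ D) ^ (L + 1)) τ with hM
    have hm0 : ∀ c, 0 ≤ m c := fun c => mass_nonneg fun x => hτ _
    have hMsum : ∑ c ∈ range (3 ^ D), m c = M := by
      rw [hM, pow_succ, mass_mul]
    have hM0 : 0 ≤ M := mass_nonneg hτ
    have hcard : ((#(range (3 ^ D)) : ℕ) : ℝ) = (3 : ℝ) ^ D := by
      rw [card_range]; push_cast; rfl
    have hcs : ∀ S : Finset ℕ, (#S : ℝ) ≤ (3 : ℝ) ^ D → ∀ z : ℝ, ∑ c ∈ S, m c ≤ z →
        ∑ c ∈ S, √(m c) ≤ √((3 : ℝ) ^ D * z) := by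
      intro S hS z hz
      apply Real.le_sqrt_of_sq_le
      have h2 := sq_sum_le_card_mul_sum_sq (s := S) (f := fun c => √(m c))
      have h3 : ∑ c ∈ S, √(m c) ^ 2 = ∑ c ∈ S, m c :=
        Finset.sum_congr rfl fun c _ => Real.sq_sqrt (hm0 c)
      rw [h3] at h2
      have h4 : 0 ≤ ∑ c ∈ S, m c := Finset.sum_nonneg fun c _ => hm0 c
      calc _ ≤ _ := h2
        _ ≤ (3 : ℝ) ^ D * ∑ c ∈ S, m c := mul_le_mul_of_nonneg_right hS h4
        _ ≤ _ := mul_le_mul_of_nonneg_left hz hPpos.le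
    have hkey : w * ∑ c ∈ range (3 ^ D), √(m c) ≤ 2 * √M := by
      by_cases hb : bra D L τ
      · have hw1 : w = s := by rw [hw, if_pos hb]
        have h2 := hcs (range (3 ^ D)) hcard.le M hMsum.le
        rw [Real.sqrt_mul hPpos.le] at h2
        rw [hw1]
        have h3 : s * √((3 : ℝ) ^ D) = 1 := by
          rw [hs, inv_mul_cancel₀ (Real.sqrt_pos.2 hPpos).ne']
        calc s * ∑ c ∈ range (3 ^ D), √(m c) ≤ s * (√((3 : ℝ) ^ D) * √M) :=
              mul_le_mul_of_nonneg_left h2 hs0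
          _ = √M := by rw [← mul_assoc, h3, one_mul]
          _ ≤ 2 * √M := by linarith [Real.sqrt_nonneg M]
      · have hw1 : w = 1 := by rw [hw, if_neg hb]
        rw [hw1, one_mul]
        unfold bra at hb
        push Not at hb
        obtain ⟨v, hv, hvb⟩ := hb
        rw [← Finset.add_sum_erase _ _ hv]
        have h2 : √(m v) ≤ √M := by
          apply Real.sqrt_le_sqrt
          rw [← hMsum]
          exact Finset.single_le_sum (fun c _ => hm0 c) hv
        have h3 : ∑ c ∈ (range (3 ^ D)).erase v, m c ≤ ((3 : ℝ) ^ D)⁻¹ * M := by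
          have h4 := Finset.add_sum_erase (range (3 ^ D)) m hv
          rw [hMsum] at h4
          have h5 : (1 - ((3 : ℝ) ^ D)⁻¹) * M < m v := hvb
          nlinarith
        have h6 := hcs ((range (3 ^ D)).erase v) (by
          refine le_trans ?_ hcard.le
          exact_mod_cast Finset.card_le_card (Finset.erase_subset _ _)) _ h3
        rw [← mul_assoc, mul_inv_cancel₀ hPpos.ne', one_mul] at h6
        linarith
    calc w * (2 ^ L * ∑ c ∈ range (3 ^ D), √(m c))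
        = 2 ^ L * (w * ∑ c ∈ range (3 ^ D), √(m c)) := by ring
      _ ≤ 2 ^ L * (2 * √M) := mul_le_mul_of_nonneg_left hkey (by positivity)
      _ = _ := by rw [hM, pow_succ (3 ^ D) L]; ring

lemma tail_bound {D L B : ℕ} {τ : ℤ → ℝ} (hτ : ∀ x, 0 ≤ τ x) {a : ℝ} (ha : ∀ x, τ x ≤ a) :
    ∑ x ∈ range ((3 ^ D) ^ L), (if Br D L τ x < B then τ x else 0)
      ≤ √a * √((3 : ℝ) ^ D) ^ B * (2 ^ L * √(mass ((3 ^ D) ^ L) τ)) := by
  have hPpos : (0 : ℝ) < (3 : ℝ) ^ D := by positivity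
  have hsp : 0 < √((3 : ℝ) ^ D) := Real.sqrt_pos.2 hPpos
  have hs1 : 1 ≤ √((3 : ℝ) ^ D) := by
    rw [← Real.sqrt_one]
    exact Real.sqrt_le_sqrt (one_le_pow₀ (by norm_num))
  refine le_trans ?_ (mul_le_mul_of_nonneg_left (sum_sqrt_le D L τ hτ) (by positivity))
  rw [Finset.mul_sum]
  apply Finset.sum_le_sum
  intro x _
  have h0 : 0 ≤ √(τ x) * (√((3 : ℝ) ^ D))⁻¹ ^ (Br D L τ x) := by positivity
  split_ifs with hB
  · have h1 : √((3 : ℝ) ^ D) ^ (Br D L τ x) ≤ √((3 : ℝ) ^ D) ^ B :=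
      pow_le_pow_right₀ hs1 hB.le
    have h2 : √((3 : ℝ) ^ D) ^ (Br D L τ x) * (√((3 : ℝ) ^ D))⁻¹ ^ (Br D L τ x) = 1 := by
      rw [← mul_pow, mul_inv_cancel₀ hsp.ne', one_pow]
    have h3 : 1 ≤ √((3 : ℝ) ^ D) ^ B * (√((3 : ℝ) ^ D))⁻¹ ^ (Br D L τ x) := by
      rw [← h2]
      exact mul_le_mul_of_nonneg_right h1 (by positivity)
    have h4 : √(τ x) ≤ √a := Real.sqrt_le_sqrt (ha x)
    calc τ x = √(τ x) * √(τ x) := (Real.mul_self_sqrt (hτ x)).symm
      _ ≤ √a * √(τ x) := mul_le_mul_of_nonneg_right h4 (Real.sqrt_nonneg _)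
      _ = √a * √(τ x) * 1 := by ring
      _ ≤ √a * √(τ x) * (√((3 : ℝ) ^ D) ^ B * (√((3 : ℝ) ^ D))⁻¹ ^ (Br D L τ x)) :=
          mul_le_mul_of_nonneg_left h3 (by positivity)
      _ = _ := by ring
  · positivity

/-- probability of few double steps -/
lemma few_bound {K D L B G k : ℕ} {τ : ℤ → ℝ} (hτ : ∀ x, 0 ≤ τ x) {a : ℝ}
    (ha : ∀ x, τ x ≤ a) (hm : mass ((3 ^ D) ^ L) τ = 1) (hK : 0 < K)
    (hGB : K * (2 * G) + k * L ≤ K * B) :
    ∑ x ∈ box K ((3 ^ D) ^ L), (if G ≤ cnt D k L (fun _ : Fin K => τ) x then 0 else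
      ∏ i, τ (x i)) ≤ K * (√a * √((3 : ℝ) ^ D) ^ B * 2 ^ L) := by
  classical
  have htail := tail_bound (D := D) (L := L) (B := B) hτ ha
  rw [hm, Real.sqrt_one, mul_one] at htail
  have h1 : ∀ x ∈ box K ((3 ^ D) ^ L), (if G ≤ cnt D k L (fun _ : Fin K => τ) x then 0 else
      ∏ i, τ (x i)) ≤ ∑ j : Fin K, ∏ i, (fun z : ℤ => if i = j then
        (if Br D L τ z.toNat < B then τ z else 0) else τ z) (x i) := by
    intro x _
    have hnn : ∀ j : Fin K, 0 ≤ ∏ i, (fun z : ℤ => if i = j then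
        (if Br D L τ z.toNat < B then τ z else 0) else τ z) (x i) := by
      intro j
      apply Finset.prod_nonneg
      intro i _
      simp only
      split_ifs
      · exact hτ _
      · exact le_rfl
      · exact hτ _
    split_ifs with hc
    · exact Finset.sum_nonneg fun j _ => hnn j
    · have hex : ∃ j, Br D L τ (x j) < B := by
        by_contra hcon
        push Not at hcon
        have h2 := sum_Br_le D k L (fun _ : Fin K => τ) x
        have h3 := gd_le D k L (fun _ : Fin K => τ) x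
        have h4 : K * B ≤ ∑ i, Br D L τ (x i) := by
          have := Finset.sum_le_sum (s := (univ : Finset (Fin K))) (f := fun _ => B)
            (g := fun i => Br D L τ (x i)) (fun i _ => hcon i)
          simpa using this
        push Not at hc
        have h5 : gd D k L (fun _ : Fin K => τ) x + 1 ≤ 2 * G := by omega
        have h6 : K * (gd D k L (fun _ : Fin K => τ) x + 1) ≤ K * (2 * G) :=
          Nat.mul_le_mul_left _ h5
        nlinarith
      obtain ⟨j, hj⟩ := hex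
      refine le_trans (le_of_eq ?_) (Finset.single_le_sum (f := fun j : Fin K =>
        ∏ i, (fun z : ℤ => if i = j then (if Br D L τ z.toNat < B then τ z else 0) else τ z)
          (x i)) (fun j _ => hnn j) (Finset.mem_univ j))
      apply Finset.prod_congr rfl
      intro i _
      simp only
      split_ifs with h7 h8
      · rfl
      · exfalso; apply h8; rw [h7]; simpa using hj
      · rfl
  refine (Finset.sum_le_sum h1).trans ?_
  rw [Finset.sum_comm]
  have h2 : ∀ j : Fin K, ∑ x ∈ box K ((3 ^ D) ^ L), ∏ i, (fun z : ℤ => if i = j then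
        (if Br D L τ z.toNat < B then τ z else 0) else τ z) (x i)
      ≤ √a * √((3 : ℝ) ^ D) ^ B * 2 ^ L := by
    intro j
    have h3 := prod_mass (K := K) (M := (3 ^ D) ^ L) (fun i : Fin K => fun z : ℤ => if i = j then
        (if Br D L τ z.toNat < B then τ z else 0) else τ z)
    rw [h3, ← Finset.mul_prod_erase _ _ (Finset.mem_univ j)]
    have h4 : ∏ i ∈ univ.erase j, mass ((3 ^ D) ^ L) (fun z : ℤ => if i = j then
        (if Br D L τ z.toNat < B then τ z else 0) else τ z) = 1 := by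
      apply Finset.prod_eq_one
      intro i hi
      have : i ≠ j := Finset.ne_of_mem_erase hi
      simp only [if_neg this]
      exact hm
    rw [h4, mul_one]
    unfold mass
    simp only [if_true, Int.toNat_natCast]
    refine htail.trans (le_of_eq ?_)
    ring
  refine (Finset.sum_le_sum fun j _ => h2 j).trans (le_of_eq ?_)
  simp

/-- upper bound for the `K`-fold convolution -/
theorem step4 {K D k q L G B : ℕ} (hq : 2 ≤ q) (hK : 0 < K) {H χ κ θ : ℝ} (hH : 0 ≤ H)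
    (hχ : 0 ≤ χ) (hκ : 0 ≤ κ) (hθ : 0 ≤ θ) (hθ1 : θ ≤ 1)
    (hχq : χ ^ q = (3 : ℝ) ^ D * (((3 : ℝ) ^ D)⁻¹) ^ q)
    (hκk : (1 - (((3 : ℝ) ^ D) ^ 5)⁻¹) ^ k ≤ κ ^ 2) (hkey : χ * H + κ ≤ θ * H ^ 2)
    {τ μ : ℤ → ℝ} (hτ : ∀ x, 0 ≤ τ x) (hτp : Per ((3 ^ D) ^ L) τ) {a : ℝ}
    (ha : ∀ x, τ x ≤ a) (hm : mass ((3 ^ D) ^ L) τ = 1) (hμ : ∀ x, 0 ≤ μ x)
    (hμp : Per ((3 ^ D) ^ L) μ) (hLoc : Loc D q H L μ 1)
    (hGB : K * (2 * G) + k * L ≤ K * B) {S : ℝ} (hS0 : 0 ≤ S)
    (hS : ∑ y ∈ range ((3 ^ D) ^ L), μ y ^ q ≤ S ^ q) :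
    ∑ y ∈ range ((3 ^ D) ^ L), (CK K ((3 ^ D) ^ L) (fun _ => τ) μ y) ^ q
      ≤ (θ ^ G * H ^ L + K * (√a * √((3 : ℝ) ^ D) ^ B * 2 ^ L) * S) ^ q := by
  have hne : NeZero ((3 ^ D) ^ L) := ⟨by positivity⟩
  have h1 := main_rec (K := K) hq hH hχ hκ hθ hθ1 hχq hκk hkey L G (fun _ => τ) μ 1 zero_le_one
    (fun _ => hτ) (fun _ => hτp) hμ hμp hLoc
  simp only [hm, Finset.prod_const_one, mul_one] at h1
  have hfew := few_bound (K := K) (G := G) hτ ha hm hK hGB
  set F := ∑ x ∈ box K ((3 ^ D) ^ L), (if G ≤ cnt D k L (fun _ : Fin K => τ) x then 0 else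
      ∏ i, τ (x i)) with hF
  have hF0 : 0 ≤ F := Finset.sum_nonneg fun x _ => by
    split_ifs
    · exact le_rfl
    · exact Finset.prod_nonneg fun i _ => hτ _
  have h2 : ∑ y ∈ range ((3 ^ D) ^ L), (∑ x ∈ box K ((3 ^ D) ^ L),
      (if G ≤ cnt D k L (fun _ : Fin K => τ) x then 0 else ∏ i, τ (x i)) *
        μ (y - ∑ i, (x i : ℤ))) ^ q ≤ (F * S) ^ q := by
    have e : F * S = ∑ x ∈ box K ((3 ^ D) ^ L),
      (if G ≤ cnt D k L (fun _ : Fin K => τ) x then 0 else ∏ i, τ (x i)) * S := by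
      rw [hF, Finset.sum_mul]
    rw [e]
    have hw : ∀ x : Fin K → ℕ, 0 ≤ (if G ≤ cnt D k L (fun _ : Fin K => τ) x then 0 else
        ∏ i, τ (x i)) := fun x => by
      split_ifs
      · exact le_rfl
      · exact Finset.prod_nonneg fun i _ => hτ _
    apply mink (by omega)
    · intro x _ y _
      exact mul_nonneg (hw x) (hμ _)
    · intro x _
      exact mul_nonneg (hw x) hS0
    · intro x _
      simp only [mul_pow]
      rw [← Finset.mul_sum]
      apply mul_le_mul_of_nonneg_left _ (pow_nonneg (hw x) _)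
      have h2 : Per ((3 ^ D) ^ L) fun x => μ x ^ q := fun x => by simp only [hμp x]
      have h3 := sum_shift h2 (-(∑ i, (x i : ℤ)))
      simp only [← sub_eq_add_neg] at h3
      rw [h3]; exact hS
  have h3 : ∀ y : ℤ, CK K ((3 ^ D) ^ L) (fun _ => τ) μ y
      = Cv D k L G (fun _ : Fin K => τ) μ y + ∑ x ∈ box K ((3 ^ D) ^ L),
      (if G ≤ cnt D k L (fun _ : Fin K => τ) x then 0 else ∏ i, τ (x i)) *
        μ (y - ∑ i, (x i : ℤ)) := by
    intro y
    unfold CK Cv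
    rw [← Finset.sum_add_distrib]
    apply Finset.sum_congr rfl
    intro x _
    split_ifs <;> ring
  simp only [h3]
  have hCv0 : ∀ y : ℤ, 0 ≤ Cv D k L G (fun _ : Fin K => τ) μ y := fun y =>
    Finset.sum_nonneg fun x _ => mul_nonneg (by
      split_ifs
      · exact Finset.prod_nonneg fun i _ => hτ _
      · exact le_rfl) (hμ _)
  have h4 := mink2 (by omega : 1 ≤ q) (range ((3 ^ D) ^ L))
    (fun y : ℕ => Cv D k L G (fun _ : Fin K => τ) μ y)
    (fun y : ℕ => ∑ x ∈ box K ((3 ^ D) ^ L),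
      (if G ≤ cnt D k L (fun _ : Fin K => τ) x then 0 else ∏ i, τ (x i)) *
        μ (y - ∑ i, (x i : ℤ))) (θ ^ G * H ^ L) (F * S) (fun y _ => hCv0 y)
    (fun y _ => Finset.sum_nonneg fun x _ => mul_nonneg (by
      split_ifs
      · exact le_rfl
      · exact Finset.prod_nonneg fun i _ => hτ _) (hμ _)) (by positivity)
    (mul_nonneg hF0 hS0) h1 h2
  refine h4.trans ?_
  apply pow_le_pow_left₀
  · exact add_nonneg (by positivity) (mul_nonneg hF0 hS0)
  · have := mul_le_mul_of_nonneg_right hfew hS0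
    linarith

end Pool.Agent.LqFlat
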