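import Pool.Agent.LqFlat.CK

open Finset

namespace Pool.Agent.LqFlat

/-- branching of the root block of `τ`, which has `L + 1` blocks of `D` digits -/
def bra (D L : ℕ) (τ : ℤ → ℝ) : Prop :=
  ∀ v ∈ range (3 ^ D), mass ((3 ^ D) ^ L) (sl (3 ^ D) v τ)
    ≤ (1 - ((3 : ℝ) ^ D)⁻¹) * mass ((3 ^ D) ^ (L + 1)) τ

open Classical in
/-- number of branching coordinates -/
noncomputable def nb {K : ℕ} (D L : ℕ) (τ : Fin K → ℤ → ℝ) : ℕ := #{i | bra D L (τ i)}

/-- number of double steps -/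
noncomputable def cnt {K : ℕ} (D k : ℕ) : ℕ → (Fin K → ℤ → ℝ) → (Fin K → ℕ) → ℕ
  | 0, _, _ => 0
  | 1, _, _ => 0
  | L + 2, τ, x =>
    if k ≤ nb D (L + 1) τ then
      1 + cnt D k L (fun i => sl (3 ^ D * 3 ^ D) ((x i % (3 ^ D * 3 ^ D) : ℕ) : ℤ) (τ i))
        (fun i => x i / (3 ^ D * 3 ^ D))
    else cnt D k (L + 1) (fun i => sl (3 ^ D) ((x i % 3 ^ D : ℕ) : ℤ) (τ i))
        (fun i => x i / 3 ^ D)

/-- the part of the convolution with at least `G` double steps -/
noncomputable def Cv {K : ℕ} (D k L G : ℕ) (τ : Fin K → ℤ → ℝ) (μ : ℤ → ℝ) (y : ℤ) : ℝ :=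
  ∑ x ∈ box K ((3 ^ D) ^ L),
    (if G ≤ cnt D k L τ x then ∏ i, τ i (x i) else 0) * μ (y - ∑ i, (x i : ℤ))

/-- local `ℓ^q` control of `μ` with majorants -/
def Loc (D q : ℕ) (H : ℝ) : ℕ → (ℤ → ℝ) → ℝ → Prop
  | 0, μ, a => ∀ x, μ x ≤ a
  | L + 1, μ, a => ∃ A : ℤ → ℝ, (∀ x, 0 ≤ A x) ∧ Per (3 ^ D) A ∧
      ∑ v ∈ range (3 ^ D), A v ≤ a ∧ ∑ v ∈ range (3 ^ D), A v ^ q ≤ (H * a) ^ q ∧
      ∀ e : ℤ, Loc D q H L (sl (3 ^ D) e μ) (A e)

lemma sum_box_mul (K M : ℕ) {R : ℕ} (hR : 0 < R) (f : (Fin K → ℕ) → ℝ) :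
    ∑ x ∈ box K (M * R), f x
      = ∑ c ∈ box K R, ∑ x ∈ box K M, f (fun i => c i + R * x i) := by
  rw [← Finset.sum_product']
  symm
  apply Finset.sum_nbij' (fun p : (Fin K → ℕ) × (Fin K → ℕ) => fun i => p.1 i + R * p.2 i)
    (fun x : Fin K → ℕ => (fun i => x i % R, fun i => x i / R))
  · rintro ⟨c, x⟩ h
    simp only [Finset.mem_product, Fintype.mem_piFinset, Finset.mem_range] at h ⊢
    intro i
    have h1 := h.1 i
    have h2 := h.2 i
    nlinarith [Nat.mul_le_mul_left R (Nat.succ_le_of_lt h2)]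
  · intro x h
    simp only [Finset.mem_product, Fintype.mem_piFinset, Finset.mem_range] at h ⊢
    exact ⟨fun i => Nat.mod_lt _ hR, fun i => Nat.div_lt_of_lt_mul (by
      have := h i
      rwa [mul_comm] at this)⟩
  · rintro ⟨c, x⟩ h
    simp only [Finset.mem_product, Fintype.mem_piFinset, Finset.mem_range] at h ⊢
    congr 1
    · ext i
      rw [Nat.add_mul_mod_self_left, Nat.mod_eq_of_lt (h.1 i)]
    · ext i
      rw [Nat.add_mul_div_left _ _ hR, Nat.div_eq_of_lt (h.1 i), zero_add]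
  · intro x _
    ext i
    exact Nat.mod_add_div (x i) R
  · rintro ⟨c, x⟩ _
    rfl

/-- peeling off one block -/
lemma peel {K M R q : ℕ} (hR : 0 < R) (hq : 1 ≤ q) {w : (Fin K → ℕ) → ℝ} (hw : ∀ x, 0 ≤ w x)
    {μ : ℤ → ℝ} (hμ : ∀ x, 0 ≤ μ x) {A : ℤ → ℝ} (hA : ∀ x, 0 ≤ A x) {π : Fin K → ℤ → ℝ}
    (hπ : ∀ i x, 0 ≤ π i x) {B : ℝ} (hB : 0 ≤ B)
    (h : ∀ c ∈ box K R, ∀ e : ℤ, ∑ y ∈ range M,
      (∑ x ∈ box K M, w (fun i => c i + R * x i) * sl R e μ (y - ∑ i, (x i : ℤ))) ^ q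
        ≤ (B * A e * ∏ i, π i (c i)) ^ q) :
    ∑ y ∈ range (M * R), (∑ x ∈ box K (M * R), w x * μ (y - ∑ i, (x i : ℤ))) ^ q
      ≤ B ^ q * ∑ u ∈ range R, (CK K R π A u) ^ q := by
  have h1 := sum_mul_range M R (fun y => (∑ x ∈ box K (M * R), w x * μ (y - ∑ i, (x i : ℤ))) ^ q)
  rw [h1, Finset.mul_sum]
  apply Finset.sum_le_sum
  intro u _
  have h2 : ∀ y : ℕ, ∑ x ∈ box K (M * R), w x * μ ((u : ℤ) + R * y - ∑ i, (x i : ℤ))
      = ∑ c ∈ box K R, ∑ x ∈ box K M, w (fun i => c i + R * x i) *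
        sl R (u - ∑ i, (c i : ℤ)) μ (y - ∑ i, (x i : ℤ)) := by
    intro y
    rw [sum_box_mul K M hR]
    apply Finset.sum_congr rfl
    intro c _
    apply Finset.sum_congr rfl
    intro x _
    congr 1
    unfold sl
    congr 1
    push_cast
    rw [Finset.sum_add_distrib, ← Finset.mul_sum]
    ring
  simp only [h2]
  have h3 : B ^ q * (CK K R π A u) ^ q
      = (∑ c ∈ box K R, B * A (u - ∑ i, (c i : ℤ)) * ∏ i, π i (c i)) ^ q := by
    rw [← mul_pow]
    congr 1
    unfold CK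
    rw [Finset.mul_sum]
    apply Finset.sum_congr rfl
    intro c _
    ring
  rw [h3]
  apply mink hq
  · intro c _ y _
    exact Finset.sum_nonneg fun x _ => mul_nonneg (hw _) (hμ _)
  · intro c _
    exact mul_nonneg (mul_nonneg hB (hA _)) (Finset.prod_nonneg fun _ _ => hπ _ _)
  · intro c hc
    exact h c hc _

/-- the main recursion -/
theorem main_rec {K D k q : ℕ} (hq : 2 ≤ q) {H χ κ θ : ℝ} (hH : 0 ≤ H) (hχ : 0 ≤ χ)
    (hκ : 0 ≤ κ) (hθ : 0 ≤ θ) (hθ1 : θ ≤ 1)
    (hχq : χ ^ q = (3 : ℝ) ^ D * (((3 : ℝ) ^ D)⁻¹) ^ q)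
    (hκk : (1 - (((3 : ℝ) ^ D) ^ 5)⁻¹) ^ k ≤ κ ^ 2) (hkey : χ * H + κ ≤ θ * H ^ 2) :
    ∀ (L G : ℕ) (τ : Fin K → ℤ → ℝ) (μ : ℤ → ℝ) (a : ℝ), 0 ≤ a → (∀ i x, 0 ≤ τ i x) →
      (∀ i, Per ((3 ^ D) ^ L) (τ i)) → (∀ x, 0 ≤ μ x) → Per ((3 ^ D) ^ L) μ →
      Loc D q H L μ a →
      ∑ y ∈ range ((3 ^ D) ^ L), (Cv D k L G τ μ y) ^ q
        ≤ (θ ^ G * H ^ L * a * ∏ i, mass ((3 ^ D) ^ L) (τ i)) ^ q := by
  have hneP : NeZero (3 ^ D) := ⟨by positivity⟩
  have hneR : NeZero (3 ^ D * 3 ^ D) := ⟨by positivity⟩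
  -- the single step
  have single : ∀ (L : ℕ), (∀ (G : ℕ) (τ : Fin K → ℤ → ℝ) (μ : ℤ → ℝ) (a : ℝ), 0 ≤ a →
      (∀ i x, 0 ≤ τ i x) → (∀ i, Per ((3 ^ D) ^ L) (τ i)) → (∀ x, 0 ≤ μ x) →
      Per ((3 ^ D) ^ L) μ → Loc D q H L μ a →
      ∑ y ∈ range ((3 ^ D) ^ L), (Cv D k L G τ μ y) ^ q
        ≤ (θ ^ G * H ^ L * a * ∏ i, mass ((3 ^ D) ^ L) (τ i)) ^ q) →
      ∀ (G : ℕ) (τ : Fin K → ℤ → ℝ) (μ : ℤ → ℝ) (a : ℝ), 0 ≤ a → (∀ i x, 0 ≤ τ i x) →
      (∀ i, Per ((3 ^ D) ^ (L + 1)) (τ i)) → (∀ x, 0 ≤ μ x) → Per ((3 ^ D) ^ (L + 1)) μ →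
      Loc D q H (L + 1) μ a →
      (∀ x : Fin K → ℕ, cnt D k (L + 1) τ x
        = cnt D k L (fun i => sl (3 ^ D) ((x i % 3 ^ D : ℕ) : ℤ) (τ i)) (fun i => x i / 3 ^ D)) →
      ∑ y ∈ range ((3 ^ D) ^ (L + 1)), (Cv D k (L + 1) G τ μ y) ^ q
        ≤ (θ ^ G * H ^ (L + 1) * a * ∏ i, mass ((3 ^ D) ^ (L + 1)) (τ i)) ^ q := by
    intro L ih G τ μ a ha hτ hτp hμ hμp hLoc hcnt
    obtain ⟨A, hA0, hAp, hA1, hAq, hAe⟩ := hLoc
    have hB : 0 ≤ θ ^ G * H ^ L := by positivity
    have h1 := peel (K := K) (M := (3 ^ D) ^ L) (R := 3 ^ D) (q := q) (by positivity) (by omega)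
      (w := fun x => if G ≤ cnt D k (L + 1) τ x then ∏ i, τ i (x i) else 0)
      (fun x => by
        split_ifs
        · exact Finset.prod_nonneg fun i _ => hτ i _
        · exact le_rfl) hμ hA0 (π := fun i c => mass ((3 ^ D) ^ L) (sl (3 ^ D) c (τ i)))
      (fun i c => mass_nonneg fun x => hτ i _) hB (by
        intro c hc e
        have hc' : ∀ i, c i < 3 ^ D := fun i => Finset.mem_range.1 (Fintype.mem_piFinset.1 hc i)
        have h2 := ih G (fun i => sl (3 ^ D) (c i) (τ i)) (sl (3 ^ D) e μ) (A e) (hA0 e)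
          (fun i x => hτ i _) (fun i => sl_per (hτp i) _) (fun x => hμ _) (sl_per hμp e) (hAe e)
        refine le_trans (le_of_eq ?_) h2
        apply Finset.sum_congr rfl
        intro y _
        congr 1
        unfold Cv
        apply Finset.sum_congr rfl
        intro x _
        congr 1
        have e1 : (fun i => sl (3 ^ D) (((c i + 3 ^ D * x i) % 3 ^ D : ℕ) : ℤ) (τ i))
            = fun i => sl (3 ^ D) (c i : ℤ) (τ i) := by
          ext i
          rw [Nat.add_mul_mod_self_left, Nat.mod_eq_of_lt (hc' i)]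
        have e2 : (fun i => (c i + 3 ^ D * x i) / 3 ^ D) = x := by
          ext i
          rw [Nat.add_mul_div_left _ _ (by positivity), Nat.div_eq_of_lt (hc' i), zero_add]
        rw [hcnt, e1, e2]
        congr 1)
    refine h1.trans ?_
    have hE0 : 0 ≤ H * a := by positivity
    have h3 := CK_young (K := K) (R := 3 ^ D) (q := q) (by omega)
      (π := fun i c => mass ((3 ^ D) ^ L) (sl (3 ^ D) c (τ i)))
      (fun i c => mass_nonneg fun x => hτ i _) hA0 hAp hE0 hAq
    have h4 : ∀ i, mass (3 ^ D) (fun c => mass ((3 ^ D) ^ L) (sl (3 ^ D) c (τ i)))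
        = mass ((3 ^ D) ^ (L + 1)) (τ i) := by
      intro i
      rw [pow_succ, mass_mul ((3 ^ D) ^ L) (3 ^ D) (τ i)]; rfl
    simp only [h4] at h3
    refine (mul_le_mul_of_nonneg_left h3 (pow_nonneg hB q)).trans (le_of_eq ?_)
    rw [← mul_pow]
    congr 1
    rw [pow_succ H]; ring
  intro L
  induction L using Nat.strong_induction_on with
  | _ L ih =>
    rcases L with _ | _ | L
    · intro G τ μ a ha hτ _ hμ _ hLoc
      have hLoc' : ∀ x, μ x ≤ a := hLoc
      simp only [pow_zero, Finset.range_one, Finset.sum_singleton, mul_one]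
      apply pow_le_pow_left₀
      · unfold Cv
        apply Finset.sum_nonneg
        intro x _
        apply mul_nonneg _ (hμ _)
        split_ifs
        · exact Finset.prod_nonneg fun i _ => hτ i _
        · exact le_rfl
      · unfold Cv
        have hbox : box K ((3 ^ D) ^ 0) = {fun _ => 0} := by
          ext x
          simp only [pow_zero, Fintype.mem_piFinset, Finset.range_one, Finset.mem_singleton]
          constructor
          · intro h; ext i; exact h i
          · intro h i; rw [h]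
        rw [hbox, Finset.sum_singleton]
        have hm : ∀ i, mass 1 (τ i) = τ i 0 := by
          intro i; unfold mass; simp
        simp only [hm]
        have hp : 0 ≤ ∏ i, τ i 0 := Finset.prod_nonneg fun i _ => hτ i _
        have hc0 : cnt D k 0 τ (fun _ => 0) = 0 := by simp [cnt]
        rw [hc0]
        split_ifs with hG
        · have : G = 0 := by omega
          rw [this, pow_zero, one_mul]
          rw [mul_comm]
          simp only [Nat.cast_zero]
          exact mul_le_mul_of_nonneg_right (hLoc' _) hp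
        · rw [zero_mul]
          exact mul_nonneg (mul_nonneg (pow_nonneg hθ G) ha) hp
    · intro G τ μ a ha hτ hτp hμ hμp hLoc
      exact single 0 (ih 0 (by omega)) G τ μ a ha hτ hτp hμ hμp hLoc (fun x => by simp [cnt])
    · intro G τ μ a ha hτ hτp hμ hμp hLoc
      by_cases hgood : k ≤ nb D (L + 1) τ
      · -- the double step
        obtain ⟨A1, hA10, hA1p, hA11, hA1q, hA1e⟩ := hLoc
        choose A2 hA20 hA2p hA21 hA2q hA2e using hA1e
        let A : ℤ → ℝ := fun x => A2 (x % (3 ^ D : ℕ)) (x / (3 ^ D : ℕ))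
        have hP0 : ((3 ^ D : ℕ) : ℤ) ≠ 0 := by positivity
        have hA0 : ∀ x, 0 ≤ A x := fun x => hA20 _ _
        have hAp : Per (3 ^ D * 3 ^ D) A := by
          intro x
          simp only [A]
          have e1 : (x + ((3 ^ D * 3 ^ D : ℕ) : ℤ)) % (3 ^ D : ℕ) = x % (3 ^ D : ℕ) := by
            push_cast; rw [Int.add_mul_emod_self_left]
          have e2 : (x + ((3 ^ D * 3 ^ D : ℕ) : ℤ)) / (3 ^ D : ℕ) = x / (3 ^ D : ℕ) + (3 ^ D : ℕ) := by
            rw [Nat.cast_mul, Int.add_mul_ediv_left _ _ hP0]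
          rw [e1, e2]
          exact hA2p _ _
        have hAsum : ∀ v, ∑ j ∈ range (3 ^ D), A (v + (3 ^ D : ℕ) * j) ≤ A1 v := by
          intro v
          have e1 : ∀ j : ℕ, A (v + (3 ^ D : ℕ) * j)
              = A2 (v % (3 ^ D : ℕ)) ((j : ℤ) + v / (3 ^ D : ℕ)) := by
            intro j
            simp only [A]
            rw [Int.add_mul_emod_self_left, Int.add_mul_ediv_left _ _ hP0, add_comm (v / _)]
          simp only [e1]
          rw [sum_shift (hA2p _)]
          refine (hA21 _).trans (le_of_eq ?_)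
          apply Per.eq_of hA1p
          refine ⟨-(v / (3 ^ D : ℕ)), ?_⟩
          have := Int.emod_add_mul_ediv v (3 ^ D : ℕ)
          linear_combination this
        have hAe : ∀ e, Loc D q H L (sl (3 ^ D * 3 ^ D) e μ) (A e) := by
          intro e
          have h1 := hA2e (e % (3 ^ D : ℕ)) (e / (3 ^ D : ℕ))
          rw [sl_sl, Int.emod_add_mul_ediv] at h1
          exact h1
        have hB : 0 ≤ θ ^ (G - 1) * H ^ L := by positivity
        have hM : (3 ^ D) ^ (L + 2) = (3 ^ D) ^ L * (3 ^ D * 3 ^ D) := by ring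
        have hτp' : ∀ i, Per ((3 ^ D) ^ L * (3 ^ D * 3 ^ D)) (τ i) := by
          intro i; rw [← hM]; exact hτp i
        have hμp' : Per ((3 ^ D) ^ L * (3 ^ D * 3 ^ D)) μ := by rw [← hM]; exact hμp
        have h1 := peel (K := K) (M := (3 ^ D) ^ L) (R := 3 ^ D * 3 ^ D) (q := q) (by positivity) (by omega)
          (w := fun x => if G ≤ cnt D k (L + 2) τ x then ∏ i, τ i (x i) else 0)
          (fun x => by
            split_ifs
            · exact Finset.prod_nonneg fun i _ => hτ i _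
            · exact le_rfl) hμ hA0
          (π := fun i c => mass ((3 ^ D) ^ L) (sl (3 ^ D * 3 ^ D) c (τ i)))
          (fun i c => mass_nonneg fun x => hτ i _) hB (by
            intro c hc e
            have hc' : ∀ i, c i < 3 ^ D * 3 ^ D :=
              fun i => Finset.mem_range.1 (Fintype.mem_piFinset.1 hc i)
            have h2 := ih L (by omega) (G - 1) (fun i => sl (3 ^ D * 3 ^ D) (c i) (τ i))
              (sl (3 ^ D * 3 ^ D) e μ) (A e) (hA0 e)
              (fun i x => hτ i _) (fun i => sl_per (hτp' i) _) (fun x => hμ _) (sl_per hμp' e)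
              (hAe e)
            refine le_trans (le_of_eq ?_) h2
            apply Finset.sum_congr rfl
            intro y _
            congr 1
            unfold Cv
            apply Finset.sum_congr rfl
            intro x _
            congr 1
            have e1 : (fun i => sl (3 ^ D * 3 ^ D)
                (((c i + 3 ^ D * 3 ^ D * x i) % (3 ^ D * 3 ^ D) : ℕ) : ℤ) (τ i))
                = fun i => sl (3 ^ D * 3 ^ D) (c i : ℤ) (τ i) := by
              ext i
              rw [Nat.add_mul_mod_self_left, Nat.mod_eq_of_lt (hc' i)]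
            have e2 : (fun i => (c i + 3 ^ D * 3 ^ D * x i) / (3 ^ D * 3 ^ D)) = x := by
              ext i
              rw [Nat.add_mul_div_left _ _ (by positivity), Nat.div_eq_of_lt (hc' i), zero_add]
            have e3 : cnt D k (L + 2) τ (fun i => c i + 3 ^ D * 3 ^ D * x i)
                = 1 + cnt D k L (fun i => sl (3 ^ D * 3 ^ D) (c i : ℤ) (τ i)) x := by
              rw [cnt, if_pos hgood, e1, e2]
            rw [e3]
            have e4 : (G ≤ 1 + cnt D k L (fun i => sl (3 ^ D * 3 ^ D) (c i : ℤ) (τ i)) x)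
                ↔ (G - 1 ≤ cnt D k L (fun i => sl (3 ^ D * 3 ^ D) (c i : ℤ) (τ i)) x) := by
              omega
            simp only [e4]
            congr 1)
        have h3 := good_step (D := D) (K := K) (k := k) (q := q) hq
          (π := fun i c => mass ((3 ^ D) ^ L) (sl (3 ^ D * 3 ^ D) c (τ i))) (A := A) (A1 := A1)
          (fun i c => mass_nonneg fun x => hτ i _) hA0 hAp hAsum ha hH hχ hκ hA11 hA1q hχq hκk (by
            refine hgood.trans ?_
            unfold nb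
            apply Finset.card_le_card
            intro i hi
            simp only [Finset.mem_filter, Finset.mem_univ, true_and] at hi ⊢
            intro v hv
            have h5 := hi v hv
            have h6 : mass ((3 ^ D) ^ (L + 1)) (sl (3 ^ D) v (τ i))
                = ∑ j ∈ range (3 ^ D), mass ((3 ^ D) ^ L)
                  (sl (3 ^ D * 3 ^ D) ((v : ℤ) + (3 ^ D : ℕ) * j) (τ i)) := by
              rw [pow_succ, mass_mul]
              simp only [sl_sl]
            have h7 : mass ((3 ^ D) ^ (L + 1 + 1)) (τ i)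
                = mass (3 ^ D * 3 ^ D) fun c => mass ((3 ^ D) ^ L)
                  (sl (3 ^ D * 3 ^ D) c (τ i)) := by
              rw [hM, mass_mul ((3 ^ D) ^ L) (3 ^ D * 3 ^ D) (τ i)]; rfl
            rw [h6, h7] at h5
            exact h5)
        have h4 : ∀ i, mass (3 ^ D * 3 ^ D)
            (fun c => mass ((3 ^ D) ^ L) (sl (3 ^ D * 3 ^ D) c (τ i)))
            = mass ((3 ^ D) ^ (L + 2)) (τ i) := by
          intro i
          rw [hM, mass_mul ((3 ^ D) ^ L) (3 ^ D * 3 ^ D) (τ i)]; rfl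
        simp only [h4] at h3
        have hm0 : 0 ≤ ∏ i, mass ((3 ^ D) ^ (L + 2)) (τ i) :=
          Finset.prod_nonneg fun i _ => mass_nonneg fun x => hτ i _
        have h8 : ∑ y ∈ range ((3 ^ D) ^ (L + 2)), (Cv D k (L + 2) G τ μ y) ^ q
            ≤ (θ ^ (G - 1) * H ^ L) ^ q *
              ((χ * H + κ) * a * ∏ i, mass ((3 ^ D) ^ (L + 2)) (τ i)) ^ q := by
          refine le_trans ?_ (mul_le_mul_of_nonneg_left h3 (pow_nonneg hB q))
          refine le_trans (le_of_eq ?_) h1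
          rw [← hM]
          rfl
        refine h8.trans ?_
        rw [← mul_pow]
        apply pow_le_pow_left₀ (by positivity)
        calc θ ^ (G - 1) * H ^ L * ((χ * H + κ) * a * ∏ i, mass ((3 ^ D) ^ (L + 2)) (τ i))
            ≤ θ ^ (G - 1) * H ^ L * ((θ * H ^ 2) * a * ∏ i, mass ((3 ^ D) ^ (L + 2)) (τ i)) := by
              gcongr
          _ = (θ ^ (G - 1) * θ) * H ^ (L + 2) * a * ∏ i, mass ((3 ^ D) ^ (L + 2)) (τ i) := by
              rw [pow_add]; ring
          _ ≤ θ ^ G * H ^ (L + 2) * a * ∏ i, mass ((3 ^ D) ^ (L + 2)) (τ i) := by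
              have : θ ^ (G - 1) * θ ≤ θ ^ G := by
                rcases Nat.eq_zero_or_pos G with rfl | hG
                · simpa using hθ1
                · rw [← pow_succ, Nat.sub_add_cancel hG]
              gcongr
      · exact single (L + 1) (ih (L + 1) (by omega)) G τ μ a ha hτ hτp hμ hμp hLoc
          (fun x => by rw [cnt, if_neg hgood])

end Pool.Agent.LqFlat
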